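import Pool.Agent.T2h95.OD.Stm

/-! CR5: the circumradius of a body with a Poincare inequality -/

set_option autoImplicit false

namespace Pool.Agent.T2h95.OD

open MeasureTheory Set Filter Topology
open scoped ENNReal InnerProductSpace
open Pool.Agent.R972.OP (pd)
open Pool.Agent.T2h95.OC

/-- the linear function with coefficients `u` -/
noncomputable def cr5L {k : ℕ} (u : Fin k → ℝ) : (Fin k → ℝ) →L[ℝ] ℝ :=
  ∑ j, (u j) • (ContinuousLinearMap.proj (R := ℝ) (φ := fun _ : Fin k => ℝ) j)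

theorem cr5L_apply {k : ℕ} (u v : Fin k → ℝ) : cr5L u v = ∑ j, u j * v j := by
  unfold cr5L
  simp

theorem cr5_pow (k : ℕ) : (1 : ℝ) / 3 ≤ (1 - 1 / ((k : ℝ) + 1)) ^ k := by
  rcases Nat.eq_zero_or_pos k with h | h
  · subst h
    norm_num
  · have hk : (0 : ℝ) < k := by exact_mod_cast h
    have h1 : (1 - 1 / ((k : ℝ) + 1)) = (1 + 1 / (k : ℝ))⁻¹ := by
      field_simp
      ring
    have h2 : (1 + 1 / (k : ℝ)) ^ k ≤ 3 := by
      have h3 : (1 + 1 / (k : ℝ)) ≤ Real.exp (1 / k) := by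
        have := Real.add_one_le_exp (1 / (k : ℝ))
        linarith
      calc (1 + 1 / (k : ℝ)) ^ k ≤ (Real.exp (1 / k)) ^ k :=
            pow_le_pow_left₀ (by positivity) h3 k
        _ = Real.exp 1 := by
            rw [← Real.exp_nat_mul]
            congr 1
            field_simp
        _ ≤ 3 := by
            have := Real.exp_one_lt_d9
            linarith
    rw [h1, inv_pow, one_div]
    exact inv_anti₀ (by positivity) h2

theorem t_CR5 : S_CR5 := by
  intro k L lam hk hL hP hlam v hv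
  have hLm : MeasurableSet L := hL.comp.isClosed.measurableSet
  have hfin : volume L ≠ ⊤ := hL.comp.measure_lt_top.ne
  have hV : 0 < (volume L).toReal := ENNReal.toReal_pos hL.pos.ne' hfin
  set h : ℝ := ∑ j, v j ^ 2 with hh
  have hh0 : 0 ≤ h := Finset.sum_nonneg fun j _ => sq_nonneg _
  -- the linear function
  set ℓ : (Fin k → ℝ) →L[ℝ] ℝ := cr5L v with hℓ
  have hint : ∀ g : (Fin k → ℝ) → ℝ, Continuous g → IntegrableOn g L := fun g hg =>
    hg.continuousOn.integrableOn_compact hL.comp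
  have hmean : ∫ y in L, ℓ y = 0 := by
    simp_rw [hℓ, cr5L_apply]
    rw [integral_finsetSum _ fun j _ => (hint _ (continuous_apply j)).const_mul _]
    refine Finset.sum_eq_zero fun j _ => ?_
    rw [integral_const_mul, hL.cen j, mul_zero]
  -- Poincare
  have hpo : ∫ y in L, ℓ y ^ 2 ≤ lam * h * (volume L).toReal := by
    have h1 := hP ℓ ℓ.contDiff
    unfold EL at h1
    rw [hmean, zero_div] at h1
    have h2 : ∀ y : Fin k → ℝ, ∑ j, fderiv ℝ ℓ y (Pi.single j 1) ^ 2 = h := by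
      intro y
      rw [hh]
      refine Finset.sum_congr rfl fun j _ => ?_
      rw [ContinuousLinearMap.fderiv, hℓ, cr5L_apply]
      simp [Pi.single_apply]
    simp_rw [h2] at h1
    rw [setIntegral_const, smul_eq_mul] at h1
    have h3 : ((volume : Measure (Fin k → ℝ)).real L * h) / (volume L).toReal = h := by
      unfold Measure.real
      field_simp
    rw [h3, zero_pow two_ne_zero, sub_zero, div_le_iff₀ hV] at h1
    exact h1
  -- the small copy
  set δ : ℝ := 1 / ((k : ℝ) + 1) with hδ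
  have hk0 : (0 : ℝ) < (k : ℝ) + 1 := by positivity
  have hδ0 : 0 < δ := by positivity
  have hδ1 : δ < 1 := by
    rw [hδ, div_lt_one hk0]
    have : (1 : ℝ) ≤ k := by exact_mod_cast hk
    linarith
  have h1δ : 0 < 1 - δ := by linarith
  have hsub : ∀ y ∈ L, δ • v + (1 - δ) • y ∈ L := fun y hy =>
    hL.conv hv hy hδ0.le h1δ.le (by ring)
  -- change of variables
  set T : (Fin k → ℝ) → (Fin k → ℝ) := fun y => δ • v + (1 - δ) • y with hT
  have hinj : Function.Injective T := by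
    intro a b hab
    have h1 : (1 - δ) • a = (1 - δ) • b := add_left_cancel hab
    exact smul_right_injective _ h1δ.ne' h1
  have hderiv : ∀ y ∈ L, HasFDerivWithinAt T ((1 - δ) • ContinuousLinearMap.id ℝ (Fin k → ℝ)) L y :=
    fun y _ => (((hasFDerivAt_id y).const_smul (1 - δ)).const_add (δ • v)).hasFDerivWithinAt
  have hcv : ∫ z in T '' L, ℓ z ^ 2 = (1 - δ) ^ k * ∫ y in L, ℓ (T y) ^ 2 := by
    rw [integral_image_eq_integral_abs_det_fderiv_smul volume hLm hderiv hinj.injOn]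
    have h1 : ∀ y : Fin k → ℝ, |((1 - δ) • ContinuousLinearMap.id ℝ (Fin k → ℝ)).det| •
        (ℓ (T y) ^ 2) = (1 - δ) ^ k * ℓ (T y) ^ 2 := by
      intro y
      have h2 : ((1 - δ) • ContinuousLinearMap.id ℝ (Fin k → ℝ)).det = (1 - δ) ^ k := by
        rw [ContinuousLinearMap.det]
        simp
      rw [h2, abs_of_pos (pow_pos h1δ k), smul_eq_mul]
    simp_rw [h1]
    rw [integral_const_mul]
  have himg : T '' L ⊆ L := by
    rintro _ ⟨y, hy, rfl⟩
    exact hsub y hy
  have hmono : ∫ z in T '' L, ℓ z ^ 2 ≤ ∫ z in L, ℓ z ^ 2 := by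
    refine setIntegral_mono_set (hint _ (ℓ.continuous.pow 2)) ?_ himg.eventuallyLE
    exact Filter.Eventually.of_forall fun z => sq_nonneg _
  have hℓv : ℓ v = h := by
    rw [hℓ, cr5L_apply, hh]
    exact Finset.sum_congr rfl fun j _ => by ring
  have hlow : δ ^ 2 * h ^ 2 * (volume L).toReal ≤ ∫ y in L, ℓ (T y) ^ 2 := by
    have h1 : ∀ y, ℓ (T y) ^ 2 = (δ * h) ^ 2 + 2 * (δ * h) * (1 - δ) * ℓ y +
        (1 - δ) ^ 2 * ℓ y ^ 2 := by
      intro y
      rw [hT]
      simp only [map_add, map_smul, smul_eq_mul, hℓv]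
      ring
    simp_rw [h1]
    rw [integral_add, integral_add, setIntegral_const, integral_const_mul, hmean,
      integral_const_mul]
    · have h2 : 0 ≤ (1 - δ) ^ 2 * ∫ y in L, ℓ y ^ 2 :=
        mul_nonneg (sq_nonneg _) (integral_nonneg fun y => sq_nonneg _)
      rw [smul_eq_mul]
      unfold Measure.real
      nlinarith
    · exact hint _ continuous_const
    · exact (hint _ ℓ.continuous).const_mul _
    · exact hint _ (continuous_const.add (continuous_const.mul ℓ.continuous))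
    · exact (hint _ (ℓ.continuous.pow 2)).const_mul _
  have hpw : (1 : ℝ) / 3 ≤ (1 - δ) ^ k := cr5_pow k
  have hfinal : 1 / 3 * (δ ^ 2 * h ^ 2 * (volume L).toReal) ≤ lam * h * (volume L).toReal := by
    calc 1 / 3 * (δ ^ 2 * h ^ 2 * (volume L).toReal) ≤ (1 - δ) ^ k * ∫ y in L, ℓ (T y) ^ 2 :=
          mul_le_mul hpw hlow (by positivity) (by positivity)
      _ = ∫ z in T '' L, ℓ z ^ 2 := hcv.symm
      _ ≤ ∫ z in L, ℓ z ^ 2 := hmono
      _ ≤ _ := hpo
  have h5 : 1 / 3 * (δ ^ 2 * h ^ 2) ≤ lam * h := by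
    refine le_of_mul_le_mul_right ?_ hV
    calc 1 / 3 * (δ ^ 2 * h ^ 2) * (volume L).toReal =
        1 / 3 * (δ ^ 2 * h ^ 2 * (volume L).toReal) := by ring
      _ ≤ _ := hfinal
  rcases hh0.eq_or_lt with h6 | h6
  · rw [← h6]
    positivity
  · have h7 : 1 / 3 * (δ ^ 2 * h) ≤ lam := by
      refine le_of_mul_le_mul_right ?_ h6
      calc 1 / 3 * (δ ^ 2 * h) * h = 1 / 3 * (δ ^ 2 * h ^ 2) := by ring
        _ ≤ _ := h5
    have h8 : δ ^ 2 * ((k : ℝ) + 1) ^ 2 = 1 := by
      rw [hδ]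
      field_simp
    calc h = 3 * ((k : ℝ) + 1) ^ 2 * (1 / 3 * (δ ^ 2 * h)) := by
          have : 3 * ((k : ℝ) + 1) ^ 2 * (1 / 3 * (δ ^ 2 * h)) = (δ ^ 2 * ((k : ℝ) + 1) ^ 2) * h := by
            ring
          rw [this, h8, one_mul]
      _ ≤ 3 * ((k : ℝ) + 1) ^ 2 * lam := mul_le_mul_of_nonneg_left h7 (by positivity)

end Pool.Agent.T2h95.OD
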