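import Pool.Agent.T2h95.OD.Stm

/-! FL5: mean over the fibre of the square of a sum -/

set_option autoImplicit false

namespace Pool.Agent.T2h95.OD

open MeasureTheory Set Filter Topology
open scoped ENNReal InnerProductSpace
open Pool.Agent.R972.OP (pd)
open Pool.Agent.T2h95.OC

/-- the product of the normalised measures -/
theorem fl5_pi (n k : ℕ) (L : Set (Fin k → ℝ)) (hm : MeasurableSet L) (h0 : volume L ≠ 0)
    (hfin : volume L ≠ ⊤) :
    Measure.pi (fun _ : Fin n => ProbabilityTheory.cond (volume : Measure (Fin k → ℝ)) L) =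
      (volume (Ln n L))⁻¹ • (volume : Measure (Fin n → Fin k → ℝ)).restrict (Ln n L) := by
  have hLn : Ln n L = Set.pi Set.univ fun _ : Fin n => L := by
    ext v
    simp [Ln]
  have : IsProbabilityMeasure (ProbabilityTheory.cond (volume : Measure (Fin k → ℝ)) L) :=
    ProbabilityTheory.cond_isProbabilityMeasure_of_finite h0 hfin
  have hv : volume (Ln n L) = volume L ^ n := by
    rw [hLn, volume_pi_pi, Finset.prod_const, Finset.card_univ, Fintype.card_fin]
  refine Measure.pi_eq fun s hs => ?_
  have h2 : Set.pi Set.univ s ∩ Ln n L = Set.pi Set.univ fun i => s i ∩ L := by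
    rw [hLn, Set.pi_inter_distrib]
  rw [Measure.smul_apply, Measure.restrict_apply (MeasurableSet.univ_pi hs), h2, volume_pi_pi, hv,
    smul_eq_mul]
  have h1 : ∀ i : Fin n, (ProbabilityTheory.cond (volume : Measure (Fin k → ℝ)) L) (s i) =
      (volume L)⁻¹ * volume (s i ∩ L) := by
    intro i
    rw [ProbabilityTheory.cond_apply hm, Set.inter_comm]
  rw [Finset.prod_congr rfl fun i _ => h1 i, Finset.prod_mul_distrib, Finset.prod_const,
    Finset.card_univ, Fintype.card_fin, ENNReal.inv_pow]

theorem fl5_mean (n k : ℕ) (L : Set (Fin k → ℝ)) (hm : MeasurableSet L) (h0 : volume L ≠ 0)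
    (hfin : volume L ≠ ⊤) (G : (Fin n → Fin k → ℝ) → ℝ) :
    (∫ v in Ln n L, G v) / (volume (Ln n L)).toReal =
      ∫ v, G v ∂Measure.pi (fun _ : Fin n =>
        ProbabilityTheory.cond (volume : Measure (Fin k → ℝ)) L) := by
  rw [fl5_pi n k L hm h0 hfin, integral_smul_measure, ENNReal.toReal_inv, smul_eq_mul]
  ring

theorem fl5_mean1 (k : ℕ) (L : Set (Fin k → ℝ)) (G : (Fin k → ℝ) → ℝ) :
    EL L G = ∫ v, G v ∂ProbabilityTheory.cond (volume : Measure (Fin k → ℝ)) L := by
  unfold EL ProbabilityTheory.cond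
  rw [integral_smul_measure, ENNReal.toReal_inv, smul_eq_mul]
  ring

theorem t_FL5 : S_FL5 := by
  intro n k w u φ L a₀ c x hL
  have hm : MeasurableSet L := hL.comp.isClosed.measurableSet
  have h0 : volume L ≠ 0 := hL.pos.ne'
  have hfin : volume L ≠ ⊤ := hL.comp.measure_lt_top.ne
  set P : Measure (Fin k → ℝ) := ProbabilityTheory.cond (volume : Measure (Fin k → ℝ)) L with hP
  have hPp : IsProbabilityMeasure P := ProbabilityTheory.cond_isProbabilityMeasure_of_finite h0 hfin
  set ℓ : (Fin k → ℝ) → ℝ := fun v => ∑ j, u j * v j with hℓ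
  have hℓc : Continuous ℓ := by
    rw [hℓ]
    fun_prop
  have hmem : MemLp ℓ 2 P := by
    obtain ⟨C, hC⟩ := hL.comp.exists_bound_of_continuousOn hℓc.continuousOn
    refine MemLp.of_bound hℓc.aestronglyMeasurable C ?_
    filter_upwards [ProbabilityTheory.ae_cond_mem (μ := (volume : Measure (Fin k → ℝ))) hm]
      with v hv using hC v hv
  have hint : Integrable ℓ P := hmem.integrable one_le_two
  have hmean : ∫ v, ℓ v ∂P = 0 := by
    rw [← fl5_mean1 k L ℓ]
    unfold EL
    have hi : ∀ j : Fin k, IntegrableOn (fun v : Fin k → ℝ => u j * v j) L := fun j =>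
      (continuous_const.mul (continuous_apply j)).continuousOn.integrableOn_compact hL.comp
    rw [hℓ, integral_finsetSum _ fun j _ => hi j]
    have : ∑ j, ∫ v in L, u j * v j = 0 := by
      refine Finset.sum_eq_zero fun j _ => ?_
      rw [integral_const_mul, hL.cen j, mul_zero]
    rw [this, zero_div]
  set X : Fin n → (Fin k → ℝ) → ℝ := fun i v => φ (x i) * ℓ v with hX
  have hXm : ∀ i, MemLp (X i) 2 P := fun i => hmem.const_mul _
  set Y : (Fin n → Fin k → ℝ) → ℝ := ∑ i, fun v => X i (v i) with hY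
  have hYa : ∀ v, Y v = ∑ i, φ (x i) * ℓ (v i) := fun v => by
    rw [hY, Finset.sum_apply]
  have hYi : ∀ i : Fin n, MemLp (fun v : Fin n → Fin k → ℝ => X i (v i)) 2
      (Measure.pi fun _ : Fin n => P) := fun i =>
    (hXm i).comp_measurePreserving (measurePreserving_eval (fun _ : Fin n => P) i)
  have hYm : MemLp Y 2 (Measure.pi fun _ : Fin n => P) := memLp_finsetSum' _ fun i _ => hYi i
  have hvar := ProbabilityTheory.variance_sum_pi (μ := fun _ : Fin n => P) hXm
  have hEi : ∀ i : Fin n, ∫ v, X i (v i) ∂(Measure.pi fun _ : Fin n => P) = 0 := by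
    intro i
    have h2 : ∫ v, X i (v i) ∂(Measure.pi fun _ : Fin n => P) = ∫ y, X i y ∂P := by
      have h3 := (measurePreserving_eval (fun _ : Fin n => P) i).map_eq
      have h4 : AEStronglyMeasurable (X i)
          (Measure.map (Function.eval i) (Measure.pi fun _ : Fin n => P)) := by
        rw [h3]
        exact (hXm i).aestronglyMeasurable
      have hae : AEMeasurable (Function.eval i : (Fin n → Fin k → ℝ) → Fin k → ℝ)
          (Measure.pi fun _ : Fin n => P) := (measurable_pi_apply i).aemeasurable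
      have h5 := integral_map hae h4
      rw [h3] at h5
      exact h5.symm
    rw [h2, hX, integral_const_mul, hmean, mul_zero]
  have hEY : ∫ v, Y v ∂(Measure.pi fun _ : Fin n => P) = 0 := by
    have h1 : ∀ v, Y v = ∑ i, X i (v i) := fun v => by rw [hY, Finset.sum_apply]
    simp_rw [h1]
    rw [integral_finsetSum _ fun i _ => (hYi i).integrable one_le_two]
    exact Finset.sum_eq_zero fun i _ => hEi i
  have hEY2 : ∫ v, Y v ^ 2 ∂(Measure.pi fun _ : Fin n => P) =
      (∑ i, φ (x i) ^ 2) * EL L (fun v => (∑ j, u j * v j) ^ 2) := by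
    have h1 := ProbabilityTheory.variance_eq_sub hYm
    rw [hY] at h1
    rw [hvar] at h1
    rw [← hY] at h1
    rw [hEY] at h1
    have h2 : ∀ i, ProbabilityTheory.variance (X i) P =
        φ (x i) ^ 2 * EL L (fun v => (∑ j, u j * v j) ^ 2) := by
      intro i
      rw [ProbabilityTheory.variance_eq_sub (hXm i)]
      have h3 : ∫ y, X i y ∂P = 0 := by
        rw [hX, integral_const_mul, hmean, mul_zero]
      have h4 : ∫ y, (X i ^ 2) y ∂P = φ (x i) ^ 2 * EL L (fun v => (∑ j, u j * v j) ^ 2) := by
        rw [fl5_mean1, ← integral_const_mul]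
        congr 1
        funext y
        simp only [Pi.pow_apply, hX, hℓ]
        ring
      rw [h3, h4]
      ring
    rw [Finset.sum_congr rfl fun i _ => h2 i, ← Finset.sum_mul] at h1
    have h5 : ∫ v, (Y ^ 2) v ∂(Measure.pi fun _ : Fin n => P) =
        ∫ v, Y v ^ 2 ∂(Measure.pi fun _ : Fin n => P) := rfl
    rw [h5] at h1
    linarith
  -- the mean over the fibre
  unfold f5
  rw [fl5_mean n k L hm h0 hfin]
  set S : ℝ := (a₀ + ∑ j, w j * u j) * ∑ i, x i - c with hS
  have hexp : ∀ v : Fin n → Fin k → ℝ,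
      (∑ i, (a₀ * (x, s5 w φ x v).1 i + ∑ j, u j * (x, s5 w φ x v).2 i j) - c) ^ 2 =
        S ^ 2 + 2 * S * Y v + Y v ^ 2 := by
    intro v
    have h1 : ∑ i, (a₀ * (x, s5 w φ x v).1 i + ∑ j, u j * (x, s5 w φ x v).2 i j) - c =
        S + Y v := by
      rw [hYa, hS]
      have h2 : ∀ i : Fin n, a₀ * (x, s5 w φ x v).1 i + ∑ j, u j * (x, s5 w φ x v).2 i j =
          (a₀ + ∑ j, w j * u j) * x i + φ (x i) * ℓ (v i) := by
        intro i
        simp only [s5, hℓ]
        rw [add_mul, Finset.sum_mul, Finset.mul_sum, add_assoc, ← Finset.sum_add_distrib]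
        congr 1
        refine Finset.sum_congr rfl fun j _ => ?_
        ring
      rw [Finset.sum_congr rfl fun i _ => h2 i, Finset.sum_add_distrib, ← Finset.mul_sum]
      ring
    rw [h1]
    ring
  simp_rw [hexp]
  rw [integral_add, integral_add, integral_const, integral_const_mul, hEY, hEY2]
  · simp
  · exact integrable_const _
  · exact (hYm.integrable one_le_two).const_mul _
  · exact (integrable_const _).add ((hYm.integrable one_le_two).const_mul _)
  · exact hYm.integrable_sq

end Pool.Agent.T2h95.OD
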