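import Pool.Agent.T2h95.OD.Stm
import Pool.Agent.T2h95.OC.VSM

/-!
# Project OD, task LI5 (helper51): variances of linear functions from below
-/

set_option autoImplicit false

namespace Pool.Agent.T2h95.OD

open MeasureTheory Set Filter Topology ProbabilityTheory
open scoped ENNReal InnerProductSpace
open Pool.Agent.R972.OP (pd)
open Pool.Agent.T2h95.OC

namespace LI5

theorem var_le {ν : Measure ℝ} [IsProbabilityMeasure ν] (hL : MemLp (fun x : ℝ => x) 2 ν) (b c : ℝ) :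
    b ^ 2 * variance (fun x : ℝ => x) ν ≤ ∫ z, (b * z - c) ^ 2 ∂ν := by
  have h1 : AEStronglyMeasurable (fun x : ℝ => b * x) ν :=
    (continuous_const.mul continuous_id).aestronglyMeasurable
  have h2 : Var[fun x : ℝ => b * x - c; ν] = Var[fun x : ℝ => b * x; ν] :=
    variance_sub_const h1 c
  have h3 := variance_le_expectation_sq (μ := ν) (X := fun x : ℝ => b * x - c)
    (h1.sub aestronglyMeasurable_const)
  rw [h2, variance_const_mul] at h3
  exact h3

theorem int_eval {n : ℕ} {ν : Measure ℝ} [IsProbabilityMeasure ν] {g : ℝ → ℝ} (hg : Continuous g)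
    (i : Fin n) : ∫ x, g (x i) ∂pw n ν = ∫ x, g x ∂ν := by
  have h := (measurePreserving_eval (fun _ : Fin n => ν) i).map_eq
  conv_rhs => rw [← h]
  rw [integral_map (measurable_pi_apply i).aemeasurable hg.aestronglyMeasurable]

end LI5

open LI5 in
theorem t_LI5 (hFL : S_FL5) (hMO : S_MO5) (hLD : S_LD5) (hLC : S_LC) (hIN : S_IN5) : S_LI5 := by
  intro α β H φ k w u L a₀ c n hk hP hL
  obtain ⟨-, hρ⟩ := hLD α β H φ k hP
  obtain ⟨hprob, -, hmem, -⟩ := hLC _ hρ
  set ν := law (r5 α β k φ) with hν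
  set b : ℝ := a₀ + ∑ j, w j * u j with hb
  set E : ℝ := EL L (fun v => (∑ j, u j * v j) ^ 2) with hE
  have hE0 : 0 ≤ E := by
    rw [hE]
    unfold EL
    exact div_nonneg (integral_nonneg fun v => sq_nonneg _) ENNReal.toReal_nonneg
  have e1 : ∀ x : Fin n → ℝ,
      f5 w φ L (fun p => (∑ i, (a₀ * p.1 i + ∑ j, u j * p.2 i j) - c) ^ 2) x =
      (∑ i, b * x i - c) ^ 2 + (∑ i, φ (x i) ^ 2) * E := fun x => by
    rw [hFL n k w u φ L a₀ c x hL, ← Finset.mul_sum]
  simp only [e1]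
  have hc1 : Continuous fun x : Fin n → ℝ => (∑ i, b * x i - c) ^ 2 := by fun_prop
  have hc2 : Continuous fun x : Fin n → ℝ => ∑ i, φ (x i) ^ 2 :=
    continuous_finset_sum _ fun i _ => (hP.cont.comp (continuous_apply i)).pow 2
  have i1 := hIN α β H φ k hP n _ hc1
  have i2 := hIN α β H φ k hP n _ hc2
  have i3 : ∀ i : Fin n, Integrable (fun x : Fin n → ℝ => φ (x i) ^ 2) (pw n ν) := fun i =>
    hIN α β H φ k hP n _ ((hP.cont.comp (continuous_apply i)).pow 2)
  rw [integral_add i1 (i2.mul_const E), integral_mul_const]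
  have h1 := VSM.key (n := n) ν (fun z => b * z) (hmem.const_mul b)
    (b ^ 2 * variance (fun x : ℝ => x) ν) (fun c => var_le hmem b c) c
  have h2 : ∫ x, ∑ i, φ (x i) ^ 2 ∂pw n ν = n * ∫ x, φ x ^ 2 ∂ν := by
    rw [integral_finset_sum _ fun i _ => i3 i]
    have h3 : ∀ i : Fin n, ∫ x, φ (x i) ^ 2 ∂pw n ν = ∫ x, φ x ^ 2 ∂ν := fun i =>
      int_eval (ν := ν) (g := fun x => φ x ^ 2) (hP.cont.pow 2) i
    rw [Finset.sum_congr rfl fun i _ => h3 i]
    rw [Finset.sum_const, Finset.card_univ, Fintype.card_fin, nsmul_eq_mul]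
  have h3 := hMO α β H φ k hP
  have hV : V5 α β k φ = variance (fun x : ℝ => x) ν := rfl
  rw [h2, hV]
  have h4 : (n : ℝ) * (H ^ 2 / 4 * E) ≤ n * (∫ x, φ x ^ 2 ∂ν) * E := by
    rw [mul_assoc]
    exact mul_le_mul_of_nonneg_left (mul_le_mul_of_nonneg_right h3 hE0) (Nat.cast_nonneg n)
  rw [mul_add]
  exact add_le_add h1 h4

end Pool.Agent.T2h95.OD
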