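import Pool.Agent.T2h95.OD.Pre
import Pool.Agent.T2h95.OD.CR5
import Pool.Agent.T2h95.OD.FL5
import Pool.Agent.T2h95.OD.LI5

/-!
# Ordered tuples of points of a body with homothetic sections: the theorem

Parts by helpers 4, 9, 25, 26, 34, 49, 51, 60, 62, 71, 82, 84, 92, 97, 99 (statements: helper95).
-/

set_option autoImplicit false

namespace Pool.Agent.T2h95.OD

open Pool.Agent.T2h95.OC

theorem lv5_all : S_LV5 := t_LV5 eps_all wp5_all t_SM5 t_GD5 t_BD5 t_CR5 t_LD5 lc_all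

theorem lc5_all : S_LC5 := t_LC5 t_QFE wp5_all t_LD5 lc_all lv5_all in5_all t_FC5 t_EXH

theorem po5_all : S_PO5 := t_PO5 lc5_all cu5_all fu5_all in5_all t_FC5 t_LD5

theorem li5_all : S_LI5 := t_LI5 t_FL5 t_MO5 t_LD5 lc_all in5_all

theorem th5_all : S_TH5 := t_TH5 po5_all sy5_all li5_all t_EU5 t_GR5 t_CB5 t_PH5 t_GE5 t_CH5 fu5_all

end Pool.Agent.T2h95.OD
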