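import Pool.Agent.T2h95.OD.Stm2

/-! # CP6: crude Poincare inequality -/

set_option autoImplicit false

namespace Pool.Agent.T2h95.OD

open MeasureTheory Set Filter Topology
open scoped ENNReal InnerProductSpace
open Pool.Agent.W695.KH (EV VV)

namespace CP6

/-- homothety with the centre `x₀` -/
theorem scale {k : ℕ} {L : Set (EuclideanSpace ℝ (Fin k))} (hc : Convex ℝ L) (hL : IsCompact L)
    {x₀ : EuclideanSpace ℝ (Fin k)} (hx₀ : x₀ ∈ L) {s : ℝ} (hs : 0 < s) (hs1 : s ≤ 1)
    {g : EuclideanSpace ℝ (Fin k) → ℝ} (hg : Continuous g) (hg0 : ∀ x, 0 ≤ g x) :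
    s ^ k * ∫ y in L, g ((1 - s) • x₀ + s • y) ≤ ∫ y in L, g y := by
  have h1 := integral_image_eq_integral_abs_det_fderiv_smul volume hL.measurableSet
    (f := fun y : EuclideanSpace ℝ (Fin k) => (1 - s) • x₀ + s • y)
    (f' := fun _ => s • ContinuousLinearMap.id ℝ (EuclideanSpace ℝ (Fin k)))
    (fun x _ => (((hasFDerivAt_id x).const_smul s).const_add _).hasFDerivWithinAt)
    (fun a _ b _ hab => by
      have h2 : s • a = s • b := add_left_cancel hab
      exact smul_right_injective _ hs.ne' h2) g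
  have hdet : (s • ContinuousLinearMap.id ℝ (EuclideanSpace ℝ (Fin k))).det = s ^ k := by
    have e : ((s • ContinuousLinearMap.id ℝ (EuclideanSpace ℝ (Fin k)) :
        EuclideanSpace ℝ (Fin k) →L[ℝ] EuclideanSpace ℝ (Fin k)) :
        EuclideanSpace ℝ (Fin k) →ₗ[ℝ] EuclideanSpace ℝ (Fin k)) =
        s • LinearMap.id := rfl
    rw [ContinuousLinearMap.det, e, LinearMap.det_smul, LinearMap.det_id, mul_one,
      finrank_euclideanSpace_fin]
  simp only [hdet, abs_of_pos (pow_pos hs k), smul_eq_mul] at h1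
  rw [integral_const_mul] at h1
  rw [← h1]
  refine setIntegral_mono_set (hg.continuousOn.integrableOn_compact hL)
    (Eventually.of_forall fun x => hg0 x) (Eventually.of_forall ?_)
  rintro _ ⟨y, hy, rfl⟩
  exact hc hx₀ hy (by linarith) hs.le (by ring)

/-- the half-segment integral -/
noncomputable def J {k : ℕ} (h : EuclideanSpace ℝ (Fin k) → ℝ)
    (x y : EuclideanSpace ℝ (Fin k)) : ℝ :=
  ∫ t in (1 / 2 : ℝ)..1, h ((1 - t) • x + t • y)

theorem seg {k : ℕ} {f : EuclideanSpace ℝ (Fin k) → ℝ} (hf : ContDiff ℝ 1 f)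
    (x y : EuclideanSpace ℝ (Fin k)) :
    (f x - f y) ^ 2 ≤ ‖x - y‖ ^ 2 * ∫ t in (0 : ℝ)..1, ‖fderiv ℝ f ((1 - t) • x + t • y)‖ ^ 2 := by
  have hfd : Continuous (fderiv ℝ f) := hf.continuous_fderiv one_ne_zero
  have hγ : Continuous fun t : ℝ => (1 - t) • x + t • y := by fun_prop
  have hγd : ∀ t : ℝ, HasDerivAt (fun t : ℝ => (1 - t) • x + t • y) (y - x) t := by
    intro t
    have h1 : HasDerivAt (fun t : ℝ => (1 - t) • x) ((-1 : ℝ) • x) t :=
      ((hasDerivAt_id t).const_sub 1).smul_const x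
    have h2 : HasDerivAt (fun t : ℝ => t • y) ((1 : ℝ) • y) t :=
      (hasDerivAt_id t).smul_const y
    have h3 := h1.add h2
    have e : (-1 : ℝ) • x + (1 : ℝ) • y = y - x := by
      rw [neg_one_smul, one_smul]; abel
    rw [e] at h3
    exact h3
  obtain ⟨F', hF'⟩ : ∃ F' : ℝ → ℝ, F' = fun t => fderiv ℝ f ((1 - t) • x + t • y) (y - x) :=
    ⟨_, rfl⟩
  have hF'c : Continuous F' := by
    rw [hF']
    exact (hfd.comp hγ).clm_apply continuous_const
  have hFd : ∀ t : ℝ, HasDerivAt (fun t : ℝ => f ((1 - t) • x + t • y)) (F' t) t := by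
    intro t
    have h1 : HasFDerivAt f (fderiv ℝ f ((1 - t) • x + t • y)) ((1 - t) • x + t • y) :=
      ((hf.differentiable one_ne_zero) _).hasFDerivAt
    have h2 := h1.comp_hasDerivAt t (hγd t)
    rw [hF']
    exact h2
  have hftc : ∫ t in (0 : ℝ)..1, F' t = f y - f x := by
    rw [intervalIntegral.integral_eq_sub_of_hasDerivAt (fun t _ => hFd t)
      (hF'c.intervalIntegrable _ _)]
    simp
  obtain ⟨m, hm⟩ : ∃ m, m = f y - f x := ⟨_, rfl⟩
  have hcs : m ^ 2 ≤ ∫ t in (0 : ℝ)..1, F' t ^ 2 := by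
    have h1 : 0 ≤ ∫ t in (0 : ℝ)..1, (F' t - m) ^ 2 :=
      intervalIntegral.integral_nonneg zero_le_one fun t _ => sq_nonneg _
    have h2 : ∫ t in (0 : ℝ)..1, (F' t - m) ^ 2 = (∫ t in (0 : ℝ)..1, F' t ^ 2) - m ^ 2 := by
      have e1 : ∀ t, (F' t - m) ^ 2 = F' t ^ 2 - (2 * m * F' t - m ^ 2) := fun t => by ring
      simp only [e1]
      have i1 : IntervalIntegrable (fun t => F' t ^ 2) volume 0 1 :=
        (hF'c.pow 2).intervalIntegrable _ _
      have i2 : IntervalIntegrable (fun t => 2 * m * F' t) volume 0 1 :=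
        (continuous_const.mul hF'c).intervalIntegrable _ _
      have i3 : IntervalIntegrable (fun _ : ℝ => m ^ 2) volume 0 1 :=
        continuous_const.intervalIntegrable _ _
      rw [intervalIntegral.integral_sub i1 (i2.sub i3), intervalIntegral.integral_sub i2 i3,
        intervalIntegral.integral_const_mul, hftc, ← hm, intervalIntegral.integral_const]
      simp only [sub_zero, smul_eq_mul, one_mul]
      ring
    rw [h2] at h1
    linarith
  have hle : ∫ t in (0 : ℝ)..1, F' t ^ 2 ≤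
      ∫ t in (0 : ℝ)..1, ‖x - y‖ ^ 2 * ‖fderiv ℝ f ((1 - t) • x + t • y)‖ ^ 2 := by
    refine intervalIntegral.integral_mono_on zero_le_one ((hF'c.pow 2).intervalIntegrable _ _)
      ((continuous_const.mul ((hfd.comp hγ).norm.pow 2)).intervalIntegrable _ _) ?_
    intro t _
    have h1 : ‖F' t‖ ≤ ‖fderiv ℝ f ((1 - t) • x + t • y)‖ * ‖y - x‖ := by
      rw [hF']
      exact ContinuousLinearMap.le_opNorm _ _
    rw [norm_sub_rev y x] at h1
    have h2 : F' t ^ 2 = ‖F' t‖ ^ 2 := by rw [Real.norm_eq_abs, sq_abs]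
    rw [h2, ← mul_pow, mul_comm ‖x - y‖]
    exact pow_le_pow_left₀ (norm_nonneg _) h1 2
  rw [intervalIntegral.integral_const_mul] at hle
  calc (f x - f y) ^ 2 = m ^ 2 := by rw [hm]; ring
    _ ≤ _ := hcs.trans hle

theorem split {k : ℕ} {h : EuclideanSpace ℝ (Fin k) → ℝ} (hh : Continuous h)
    (x y : EuclideanSpace ℝ (Fin k)) :
    ∫ t in (0 : ℝ)..1, h ((1 - t) • x + t • y) = J h x y + J h y x := by
  have hc : Continuous fun t : ℝ => h ((1 - t) • x + t • y) := by fun_prop
  rw [← intervalIntegral.integral_add_adjacent_intervals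
    (hc.intervalIntegrable 0 (1 / 2)) (hc.intervalIntegrable (1 / 2) 1), add_comm]
  congr 1
  unfold J
  have h1 := intervalIntegral.integral_comp_sub_left
    (fun t : ℝ => h ((1 - t) • x + t • y)) (a := 1 / 2) (b := 1) 1
  rw [sub_self] at h1
  have e : (1 : ℝ) - 1 / 2 = 1 / 2 := by norm_num
  rw [e] at h1
  rw [← h1]
  refine intervalIntegral.integral_congr fun t _ => ?_
  show h ((1 - (1 - t)) • x + (1 - t) • y) = h ((1 - t) • y + t • x)
  rw [sub_sub_cancel, add_comm]

theorem J_cont {k : ℕ} {h : EuclideanSpace ℝ (Fin k) → ℝ} (hh : Continuous h) :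
    Continuous fun p : EuclideanSpace ℝ (Fin k) × EuclideanSpace ℝ (Fin k) => J h p.1 p.2 := by
  unfold J
  refine intervalIntegral.continuous_parametric_intervalIntegral_of_continuous'
    (f := fun (p : EuclideanSpace ℝ (Fin k) × EuclideanSpace ℝ (Fin k)) (t : ℝ) =>
      h ((1 - t) • p.1 + t • p.2)) ?_ _ _
  simp only [Function.uncurry_def]
  fun_prop

/-- the inner integral -/
theorem J_int {k : ℕ} {L : Set (EuclideanSpace ℝ (Fin k))} (hc : Convex ℝ L) (hL : IsCompact L)
    {h : EuclideanSpace ℝ (Fin k) → ℝ} (hh : Continuous h) (hh0 : ∀ x, 0 ≤ h x)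
    {x : EuclideanSpace ℝ (Fin k)} (hx : x ∈ L) :
    ∫ y in L, J h x y ≤ 2 ^ k / 2 * ∫ y in L, h y := by
  unfold J
  have hcont : Continuous (Function.uncurry fun (t : ℝ) (y : EuclideanSpace ℝ (Fin k)) =>
      h ((1 - t) • x + t • y)) := by
    simp only [Function.uncurry_def]
    fun_prop
  rw [← intervalIntegral_integral_swap (μ := volume.restrict L)
    (f := fun (t : ℝ) (y : EuclideanSpace ℝ (Fin k)) => h ((1 - t) • x + t • y))]
  · have hB : ∀ t ∈ Icc (1 / 2 : ℝ) 1, ∫ y in L, h ((1 - t) • x + t • y) ≤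
        2 ^ k * ∫ y in L, h y := by
      intro t ht
      have ht0 : 0 < t := by linarith [ht.1]
      have h1 := scale hc hL hx ht0 ht.2 hh hh0
      have h2 : 0 ≤ ∫ y in L, h ((1 - t) • x + t • y) := integral_nonneg fun y => hh0 _
      have h3 : (1 / 2 : ℝ) ^ k ≤ t ^ k := pow_le_pow_left₀ (by norm_num) ht.1 k
      have h4 : (1 / 2 : ℝ) ^ k * ∫ y in L, h ((1 - t) • x + t • y) ≤ ∫ y in L, h y :=
        (mul_le_mul_of_nonneg_right h3 h2).trans h1
      have h5 := mul_le_mul_of_nonneg_left h4 (by positivity : (0 : ℝ) ≤ 2 ^ k)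
      rw [← mul_assoc, ← mul_pow] at h5
      norm_num at h5
      exact h5
    have hcp : Continuous fun t : ℝ => ∫ y in L, h ((1 - t) • x + t • y) :=
      continuous_parametric_integral_of_continuous (μ := volume)
        (f := fun (t : ℝ) (y : EuclideanSpace ℝ (Fin k)) => h ((1 - t) • x + t • y)) hcont hL
    have h1 : ∫ t in (1 / 2 : ℝ)..1, ∫ y in L, h ((1 - t) • x + t • y) ≤
        ∫ _t in (1 / 2 : ℝ)..1, 2 ^ k * ∫ y in L, h y :=
      intervalIntegral.integral_mono_on (by norm_num) (hcp.intervalIntegrable _ _)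
        (continuous_const.intervalIntegrable _ _) hB
    rw [intervalIntegral.integral_const, smul_eq_mul] at h1
    refine h1.trans (le_of_eq ?_)
    ring
  · have e : (volume.restrict (uIoc (1 / 2 : ℝ) 1)).prod
        ((volume : Measure (EuclideanSpace ℝ (Fin k))).restrict L) =
        (volume.prod volume).restrict (uIoc (1 / 2 : ℝ) 1 ×ˢ L) := Measure.prod_restrict _ _
    rw [e]
    have h1 : IntegrableOn (Function.uncurry fun (t : ℝ) (y : EuclideanSpace ℝ (Fin k)) =>
      h ((1 - t) • x + t • y)) (Icc (1 / 2 : ℝ) 1 ×ˢ L) (volume.prod volume) :=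
      hcont.continuousOn.integrableOn_compact (isCompact_Icc.prod hL)
    refine h1.mono_set (prod_mono_left ?_)
    rw [uIoc_of_le (by norm_num)]
    exact Ioc_subset_Icc_self

end CP6

theorem t_CP6 : S_CP6 := by
  intro k L D hc hL hvol hD f hf
  have hfin : volume L ≠ ⊤ := hL.measure_lt_top.ne
  obtain ⟨V, hV⟩ : ∃ V, V = (volume L).toReal := ⟨_, rfl⟩
  have hV0 : 0 < V := by rw [hV]; exact ENNReal.toReal_pos hvol.ne' hfin
  have hVr : (volume : Measure (EuclideanSpace ℝ (Fin k))).real L = V := by rw [hV]; rfl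
  have hfc : Continuous f := hf.continuous
  obtain ⟨h, hh⟩ : ∃ h : EuclideanSpace ℝ (Fin k) → ℝ, h = fun x => ‖fderiv ℝ f x‖ ^ 2 :=
    ⟨_, rfl⟩
  have hhc : Continuous h := by
    rw [hh]; exact (hf.continuous_fderiv one_ne_zero).norm.pow 2
  have hh0 : ∀ x, 0 ≤ h x := fun x => by rw [hh]; positivity
  have i1 : IntegrableOn f L := hfc.continuousOn.integrableOn_compact hL
  have i2 : IntegrableOn (fun x => f x ^ 2) L := (hfc.pow 2).continuousOn.integrableOn_compact hL
  obtain ⟨A, hA⟩ : ∃ A, A = ∫ x in L, f x := ⟨_, rfl⟩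
  obtain ⟨B, hB⟩ : ∃ B, B = ∫ x in L, f x ^ 2 := ⟨_, rfl⟩
  obtain ⟨H, hH⟩ : ∃ H, H = ∫ x in L, h x := ⟨_, rfl⟩
  have hH0 : 0 ≤ H := by rw [hH]; exact integral_nonneg fun x => hh0 x
  -- the double integral
  have hin : ∀ x, ∫ y in L, (f x - f y) ^ 2 = f x ^ 2 * V - 2 * f x * A + B := by
    intro x
    have e1 : ∀ y, (f x - f y) ^ 2 = (f x ^ 2 - 2 * f x * f y) + f y ^ 2 := fun y => by ring
    simp only [e1]
    have j0 : IntegrableOn (fun _ : EuclideanSpace ℝ (Fin k) => f x ^ 2) L :=
      integrableOn_const hfin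
    have j1 : IntegrableOn (fun y => 2 * f x * f y) L := i1.const_mul _
    have j01 : IntegrableOn (fun y => f x ^ 2 - 2 * f x * f y) L := j0.sub j1
    have e2 : ∫ y in L, 2 * f x * f y = 2 * f x * ∫ y in L, f y := integral_const_mul _ _
    rw [integral_add j01 i2, integral_sub j0 j1, e2, ← hA, ← hB, setIntegral_const, hVr,
      smul_eq_mul]
    ring
  have hout : ∫ x in L, ∫ y in L, (f x - f y) ^ 2 = 2 * (V * B - A ^ 2) := by
    simp only [hin]
    have j0 : IntegrableOn (fun x => f x ^ 2 * V) L := i2.mul_const _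
    have j1 : IntegrableOn (fun x => 2 * f x * A) L := (i1.const_mul 2).mul_const _
    have j2 : IntegrableOn (fun _ : EuclideanSpace ℝ (Fin k) => B) L :=
      integrableOn_const hfin
    have j01 : IntegrableOn (fun x => f x ^ 2 * V - 2 * f x * A) L := j0.sub j1
    have e2 : ∫ x in L, f x ^ 2 * V = (∫ x in L, f x ^ 2) * V := integral_mul_const _ _
    have e3 : ∫ x in L, 2 * f x * A = 2 * (∫ x in L, f x) * A := by
      rw [integral_mul_const, integral_const_mul]
    rw [integral_add j01 j2, integral_sub j0 j1, e2, e3, ← hA, ← hB, setIntegral_const, hVr,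
      smul_eq_mul]
    ring
  -- the estimate
  have hD2 : ∀ x ∈ L, ∀ y ∈ L, (f x - f y) ^ 2 ≤ D ^ 2 * (CP6.J h x y + CP6.J h y x) := by
    intro x hx y hy
    have h1 := CP6.seg hf x y
    have h2 := CP6.split hhc x y
    have h3 : ∫ t in (0 : ℝ)..1, ‖fderiv ℝ f ((1 - t) • x + t • y)‖ ^ 2 =
        CP6.J h x y + CP6.J h y x := by
      rw [← h2, hh]
    rw [h3] at h1
    have h4 : 0 ≤ CP6.J h x y + CP6.J h y x := by
      rw [← h2]
      exact intervalIntegral.integral_nonneg zero_le_one fun t _ => hh0 _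
    refine h1.trans (mul_le_mul_of_nonneg_right ?_ h4)
    exact pow_le_pow_left₀ (norm_nonneg _) (hD x hx y hy) 2
  have hJc := CP6.J_cont hhc
  have hJc2 : Continuous fun p : EuclideanSpace ℝ (Fin k) × EuclideanSpace ℝ (Fin k) =>
      CP6.J h p.2 p.1 := hJc.comp (continuous_snd.prodMk continuous_fst)
  have c1 : ∀ x, Continuous fun y => CP6.J h x y := fun x =>
    hJc.comp (continuous_const.prodMk continuous_id)
  have c2 : ∀ x, Continuous fun y => CP6.J h y x := fun x =>
    hJc.comp (continuous_id.prodMk continuous_const)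
  have c3 : Continuous fun x => ∫ y in L, CP6.J h x y :=
    continuous_parametric_integral_of_continuous (μ := volume)
      (f := fun (x y : EuclideanSpace ℝ (Fin k)) => CP6.J h x y) hJc hL
  have c4 : Continuous fun x => ∫ y in L, CP6.J h y x :=
    continuous_parametric_integral_of_continuous (μ := volume)
      (f := fun (x y : EuclideanSpace ℝ (Fin k)) => CP6.J h y x) hJc2 hL
  have c5 : Continuous fun x => ∫ y in L, (f x - f y) ^ 2 :=
    continuous_parametric_integral_of_continuous (μ := volume)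
      (f := fun (x y : EuclideanSpace ℝ (Fin k)) => (f x - f y) ^ 2)
      (by simp only [Function.uncurry_def]; fun_prop) hL
  have hstep1 : ∀ x ∈ L, ∫ y in L, (f x - f y) ^ 2 ≤
      D ^ 2 * ((∫ y in L, CP6.J h x y) + ∫ y in L, CP6.J h y x) := by
    intro x hx
    have k1 : IntegrableOn (fun y => CP6.J h x y) L := (c1 x).continuousOn.integrableOn_compact hL
    have k2 : IntegrableOn (fun y => CP6.J h y x) L := (c2 x).continuousOn.integrableOn_compact hL
    rw [← integral_add k1 k2, ← integral_const_mul]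
    refine setIntegral_mono_on ?_ ?_ hL.measurableSet fun y hy => hD2 x hx y hy
    · exact ((continuous_const.sub hfc).pow 2).continuousOn.integrableOn_compact hL
    · exact (continuous_const.mul ((c1 x).add (c2 x))).continuousOn.integrableOn_compact hL
  have hstep2 : ∫ x in L, ∫ y in L, (f x - f y) ^ 2 ≤
      D ^ 2 * ((∫ x in L, ∫ y in L, CP6.J h x y) + ∫ x in L, ∫ y in L, CP6.J h y x) := by
    have k1 : IntegrableOn (fun x => ∫ y in L, CP6.J h x y) L :=
      c3.continuousOn.integrableOn_compact hL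
    have k2 : IntegrableOn (fun x => ∫ y in L, CP6.J h y x) L :=
      c4.continuousOn.integrableOn_compact hL
    rw [← integral_add k1 k2, ← integral_const_mul]
    refine setIntegral_mono_on ?_ ?_ hL.measurableSet hstep1
    · exact c5.continuousOn.integrableOn_compact hL
    · exact (continuous_const.mul (c3.add c4)).continuousOn.integrableOn_compact hL
  have hswap : ∫ x in L, ∫ y in L, CP6.J h y x = ∫ x in L, ∫ y in L, CP6.J h x y := by
    refine integral_integral_swap (f := fun x y => CP6.J h y x) ?_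
    have e : ((volume : Measure (EuclideanSpace ℝ (Fin k))).restrict L).prod
        ((volume : Measure (EuclideanSpace ℝ (Fin k))).restrict L) =
        (volume.prod volume).restrict (L ×ˢ L) := Measure.prod_restrict _ _
    rw [e]
    exact hJc2.continuousOn.integrableOn_compact (hL.prod hL)
  have hstep3 : ∫ x in L, ∫ y in L, CP6.J h x y ≤ 2 ^ k / 2 * H * V := by
    have h1 : ∫ x in L, ∫ y in L, CP6.J h x y ≤ ∫ _x in L, 2 ^ k / 2 * H := by
      refine setIntegral_mono_on (c3.continuousOn.integrableOn_compact hL)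
        (integrableOn_const hfin) hL.measurableSet fun x hx => ?_
      rw [hH]
      exact CP6.J_int hc hL hhc hh0 hx
    rw [setIntegral_const, hVr, smul_eq_mul] at h1
    linarith
  have hfinal : V * B - A ^ 2 ≤ D ^ 2 * (2 ^ k / 2 * H * V) := by
    rw [hout, hswap] at hstep2
    have h1 : D ^ 2 * (∫ x in L, ∫ y in L, CP6.J h x y) ≤ D ^ 2 * (2 ^ k / 2 * H * V) :=
      mul_le_mul_of_nonneg_left hstep3 (sq_nonneg _)
    linarith
  have e1 : VV L f = (V * B - A ^ 2) / V ^ 2 := by
    unfold VV EV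
    rw [← hA, ← hB, ← hV]
    field_simp
  have e2 : (EV L fun x => ‖fderiv ℝ f x‖ ^ 2) = H / V := by
    unfold EV
    rw [← hV, hH, hh]
  rw [e1, e2, div_le_iff₀ (by positivity)]
  refine hfinal.trans (le_of_eq ?_)
  field_simp

end Pool.Agent.T2h95.OD
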