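import Pool.Agent.T2h95.OD.Stm2

/-! # CR6: circumradius -/

set_option autoImplicit false

namespace Pool.Agent.T2h95.OD

open MeasureTheory Set Filter Topology
open scoped ENNReal InnerProductSpace
open Pool.Agent.W695.KH (EV VV)

namespace CR6

/-- homothety with the centre `x₀` -/
theorem scale {k : ℕ} {L : Set (EuclideanSpace ℝ (Fin k))} (hc : Convex ℝ L) (hL : IsCompact L)
    {x₀ : EuclideanSpace ℝ (Fin k)} (hx₀ : x₀ ∈ L) {s : ℝ} (hs : 0 < s) (hs1 : s ≤ 1)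
    {g : EuclideanSpace ℝ (Fin k) → ℝ} (hg : Continuous g) (hg0 : ∀ x, 0 ≤ g x) :
    s ^ k * ∫ y in L, g ((1 - s) • x₀ + s • y) ≤ ∫ y in L, g y := by
  have h1 := integral_image_eq_integral_abs_det_fderiv_smul volume hL.measurableSet
    (f := fun y : EuclideanSpace ℝ (Fin k) => (1 - s) • x₀ + s • y)
    (f' := fun _ => s • ContinuousLinearMap.id ℝ (EuclideanSpace ℝ (Fin k)))
    (fun x _ => (((hasFDerivAt_id x).const_smul s).const_add _).hasFDerivWithinAt)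
    (fun a _ b _ hab => by
      have h2 : s • a = s • b := add_left_cancel hab
      exact smul_right_injective _ hs.ne' h2) g
  have hdet : (s • ContinuousLinearMap.id ℝ (EuclideanSpace ℝ (Fin k))).det = s ^ k := by
    have e : ((s • ContinuousLinearMap.id ℝ (EuclideanSpace ℝ (Fin k)) :
        EuclideanSpace ℝ (Fin k) →L[ℝ] EuclideanSpace ℝ (Fin k)) :
        EuclideanSpace ℝ (Fin k) →ₗ[ℝ] EuclideanSpace ℝ (Fin k)) =
        s • LinearMap.id := rfl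
    rw [ContinuousLinearMap.det, e, LinearMap.det_smul, LinearMap.det_id, mul_one,
      finrank_euclideanSpace_fin]
  simp only [hdet, abs_of_pos (pow_pos hs k), smul_eq_mul] at h1
  rw [integral_const_mul] at h1
  rw [← h1]
  refine setIntegral_mono_set (hg.continuousOn.integrableOn_compact hL)
    (Eventually.of_forall fun x => hg0 x) (Eventually.of_forall ?_)
  rintro _ ⟨y, hy, rfl⟩
  exact hc hx₀ hy (by linarith) hs.le (by ring)

end CR6

theorem t_CR6 : S_CR6 := by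
  intro k L hk hCB v hv
  have hvol : 0 < volume L := by
    obtain ⟨x, hx⟩ := hCB.int
    exact lt_of_lt_of_le (isOpen_interior.measure_pos volume ⟨x, hx⟩)
      (measure_mono interior_subset)
  have hfin : volume L ≠ ⊤ := hCB.comp.measure_lt_top.ne
  obtain ⟨V, hV⟩ : ∃ V, V = (volume L).toReal := ⟨_, rfl⟩
  have hV0 : 0 < V := by rw [hV]; exact ENNReal.toReal_pos hvol.ne' hfin
  have hφc : Continuous fun x : EuclideanSpace ℝ (Fin k) => ⟪v, x⟫_ℝ :=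
    continuous_const.inner continuous_id
  have hid : IntegrableOn (fun x : EuclideanSpace ℝ (Fin k) => x) L :=
    continuous_id.continuousOn.integrableOn_compact hCB.comp
  have hi1 : IntegrableOn (fun x : EuclideanSpace ℝ (Fin k) => ⟪v, x⟫_ℝ) L :=
    hφc.continuousOn.integrableOn_compact hCB.comp
  have hi2 : IntegrableOn (fun x : EuclideanSpace ℝ (Fin k) => ⟪v, x⟫_ℝ ^ 2) L :=
    (hφc.pow 2).continuousOn.integrableOn_compact hCB.comp
  have hmean : ∫ x in L, ⟪v, x⟫_ℝ = 0 := by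
    have h := integral_inner (𝕜 := ℝ) hid v
    rw [h, hCB.cen, inner_zero_right]
  obtain ⟨A, hA⟩ : ∃ A, A = ∫ x in L, ⟪v, x⟫_ℝ ^ 2 := ⟨_, rfl⟩
  have hA0 : 0 ≤ A := by rw [hA]; exact integral_nonneg fun x => sq_nonneg _
  have hVV : VV L (fun x => ⟪v, x⟫_ℝ) = A / V := by
    unfold VV EV
    rw [hmean, ← hA, ← hV]
    ring
  -- the homothety
  obtain ⟨s, hs⟩ : ∃ s : ℝ, s = (k : ℝ) / (k + 1) := ⟨_, rfl⟩
  have hk0 : (0 : ℝ) < k := by exact_mod_cast hk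
  have hs0 : 0 < s := by rw [hs]; positivity
  have hs1 : s ≤ 1 := by
    rw [hs, div_le_one (by positivity)]
    linarith
  have h1s : 1 - s = 1 / (k + 1) := by
    rw [hs]
    field_simp
    ring
  have h1 := CR6.scale hCB.conv hCB.comp hv hs0 hs1
    (g := fun x : EuclideanSpace ℝ (Fin k) => ⟪v, x⟫_ℝ ^ 2) (hφc.pow 2) (fun x => sq_nonneg _)
  have h2 : ∫ y in L, ⟪v, (1 - s) • v + s • y⟫_ℝ ^ 2 =
      (1 - s) ^ 2 * ‖v‖ ^ 4 * V + s ^ 2 * A := by
    have e1 : ∀ y : EuclideanSpace ℝ (Fin k), ⟪v, (1 - s) • v + s • y⟫_ℝ ^ 2 =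
        (1 - s) ^ 2 * ‖v‖ ^ 4 + (2 * (1 - s) * s * ‖v‖ ^ 2 * ⟪v, y⟫_ℝ + s ^ 2 * ⟪v, y⟫_ℝ ^ 2) := by
      intro y
      rw [inner_add_right, inner_smul_right, inner_smul_right, real_inner_self_eq_norm_sq]
      ring
    simp only [e1]
    have j1 : IntegrableOn (fun y : EuclideanSpace ℝ (Fin k) =>
        2 * (1 - s) * s * ‖v‖ ^ 2 * ⟪v, y⟫_ℝ) L := hi1.const_mul _
    have j2 : IntegrableOn (fun y : EuclideanSpace ℝ (Fin k) => s ^ 2 * ⟪v, y⟫_ℝ ^ 2) L :=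
      hi2.const_mul _
    have j0 : IntegrableOn (fun _ : EuclideanSpace ℝ (Fin k) => (1 - s) ^ 2 * ‖v‖ ^ 4) L :=
      integrableOn_const hfin
    have j12 : IntegrableOn (fun y : EuclideanSpace ℝ (Fin k) =>
        2 * (1 - s) * s * ‖v‖ ^ 2 * ⟪v, y⟫_ℝ + s ^ 2 * ⟪v, y⟫_ℝ ^ 2) L := j1.add j2
    have i1 : ∫ y in L, 2 * (1 - s) * s * ‖v‖ ^ 2 * ⟪v, y⟫_ℝ =
        2 * (1 - s) * s * ‖v‖ ^ 2 * ∫ y in L, ⟪v, y⟫_ℝ := integral_const_mul _ _
    have i2 : ∫ y in L, s ^ 2 * ⟪v, y⟫_ℝ ^ 2 = s ^ 2 * ∫ y in L, ⟪v, y⟫_ℝ ^ 2 :=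
      integral_const_mul _ _
    rw [integral_add j0 j12, integral_add j1 j2, i1, i2,
      hmean, ← hA, setIntegral_const, smul_eq_mul]
    have e2 : (volume : Measure (EuclideanSpace ℝ (Fin k))).real L = V := by rw [hV]; rfl
    rw [e2]
    ring
  rw [h2, ← hA] at h1
  -- the power
  have hpow : 1 / 3 ≤ s ^ k := by
    have h3 : (1 + 1 / (k : ℝ)) ^ k ≤ 3 := by
      have h4 : 1 + 1 / (k : ℝ) ≤ Real.exp (1 / k) := by
        have := Real.add_one_le_exp (1 / (k : ℝ))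
        linarith
      have h5 := pow_le_pow_left₀ (by positivity) h4 k
      rw [← Real.exp_nat_mul] at h5
      have h6 : (k : ℝ) * (1 / k) = 1 := by field_simp
      rw [h6] at h5
      have := Real.exp_one_lt_d9
      linarith
    have h4 : s = (1 + 1 / (k : ℝ))⁻¹ := by
      rw [hs]
      field_simp
    rw [h4, inv_pow, one_div]
    exact inv_anti₀ (by positivity) h3
  have h3 : 1 / 3 * ((1 / (k + 1 : ℝ)) ^ 2 * ‖v‖ ^ 4 * V) ≤ A := by
    have h4 : 0 ≤ s ^ 2 * A := by positivity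
    have h5 : 0 ≤ (1 / (k + 1 : ℝ)) ^ 2 * ‖v‖ ^ 4 * V := by positivity
    rw [h1s] at h1
    have h6 : 1 / 3 * ((1 / (k + 1 : ℝ)) ^ 2 * ‖v‖ ^ 4 * V) ≤
        s ^ k * ((1 / (k + 1 : ℝ)) ^ 2 * ‖v‖ ^ 4 * V + s ^ 2 * A) :=
      mul_le_mul hpow (by linarith) h5 (by positivity)
    exact h6.trans h1
  rw [hVV, mul_div_assoc', le_div_iff₀ hV0]
  have h4 : 1 / 3 * ((1 / (k + 1 : ℝ)) ^ 2 * ‖v‖ ^ 4 * V) * (3 * (k + 1) ^ 2) =
      ‖v‖ ^ 4 * V := by
    field_simp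
  have h5 := mul_le_mul_of_nonneg_right h3 (by positivity : (0 : ℝ) ≤ 3 * (k + 1) ^ 2)
  rw [h4] at h5
  linarith

end Pool.Agent.T2h95.OD
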