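import Pool.Agent.T2h95.OD.Stm2

/-!
# UN6: every convex body satisfies the KLS inequality with a constant depending on the dimension
-/

set_option autoImplicit false

namespace Pool.Agent.T2h95.OD

open MeasureTheory Set Filter Topology
open scoped ENNReal InnerProductSpace
open Pool.Agent.W695.KH (EV VV)

namespace UN6

theorem EV_mul {k : ℕ} (L : Set (EuclideanSpace ℝ (Fin k))) (c : ℝ) (f : EuclideanSpace ℝ (Fin k) → ℝ) :
    EV L (fun x => c * f x) = c * EV L f := by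
  unfold EV
  rw [integral_const_mul, mul_div_assoc]

theorem VV_mul {k : ℕ} (L : Set (EuclideanSpace ℝ (Fin k))) (c : ℝ) (f : EuclideanSpace ℝ (Fin k) → ℝ) :
    VV L (fun x => c * f x) = c ^ 2 * VV L f := by
  unfold VV
  have e : (fun x => (c * f x) ^ 2) = fun x => c ^ 2 * f x ^ 2 := by
    funext x
    ring
  rw [e, EV_mul, EV_mul]
  ring

end UN6

open UN6

theorem t_UN6 (h1 : S_CP6) (h2 : S_CR6) : S_UN6 := by
  intro k L hk hL
  have hne : L.Nonempty := hL.int.mono interior_subset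
  obtain ⟨v, hvL, hv⟩ := hL.comp.exists_isMaxOn hne continuous_norm.continuousOn
  have hmax : ∀ x ∈ L, ‖x‖ ≤ ‖v‖ := fun x hx => hv hx
  have hr : 0 < ‖v‖ := by
    by_contra hc
    have h0 : ‖v‖ = 0 := le_antisymm (not_lt.1 hc) (norm_nonneg v)
    have hsub : L ⊆ {0} := fun x hx => by
      have h3 := hmax x hx
      rw [h0] at h3
      exact norm_le_zero_iff.1 h3
    have h4 : (interior ({0} : Set (EuclideanSpace ℝ (Fin k)))).Nonempty := hL.int.mono (interior_mono hsub)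
    have : Nontrivial (EuclideanSpace ℝ (Fin k)) := by
      refine Module.nontrivial_of_finrank_pos (R := ℝ) ?_
      rw [finrank_euclideanSpace_fin]
      exact hk
    rw [interior_singleton] at h4
    exact Set.not_nonempty_empty h4
  have hvol : 0 < volume L := (isOpen_interior.measure_pos volume hL.int).trans_le (measure_mono interior_subset)
  have hdiam : ∀ x ∈ L, ∀ y ∈ L, ‖x - y‖ ≤ 2 * ‖v‖ := fun x hx y hy => by
    have := norm_sub_le x y
    have h3 := hmax x hx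
    have h4 := hmax y hy
    linarith
  refine ⟨(‖v‖⁻¹ : ℝ) • v, ?_, fun f hf => ?_⟩
  · rw [norm_smul, norm_inv, norm_norm, inv_mul_cancel₀ hr.ne']
  · have e1 : VV L (fun x => ⟪v, x⟫_ℝ) = ‖v‖ ^ 2 * VV L (fun x => ⟪(‖v‖⁻¹ : ℝ) • v, x⟫_ℝ) := by
      rw [← VV_mul]
      congr 1
      funext x
      rw [real_inner_smul_left, ← mul_assoc, mul_inv_cancel₀ hr.ne', one_mul]
    have h3 := h2 k L hk hL v hvL
    rw [e1] at h3
    set Q : ℝ := VV L (fun x => ⟪(‖v‖⁻¹ : ℝ) • v, x⟫_ℝ) with hQ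
    have h4 : ‖v‖ ^ 2 ≤ 3 * ((k : ℝ) + 1) ^ 2 * Q := by
      have h5 : ‖v‖ ^ 2 * ‖v‖ ^ 2 ≤ ‖v‖ ^ 2 * (3 * ((k : ℝ) + 1) ^ 2 * Q) := by
        calc ‖v‖ ^ 2 * ‖v‖ ^ 2 = ‖v‖ ^ 4 := by ring
          _ ≤ 3 * ((k : ℝ) + 1) ^ 2 * (‖v‖ ^ 2 * Q) := h3
          _ = _ := by ring
      exact le_of_mul_le_mul_left h5 (by positivity)
    have hE : 0 ≤ EV L fun x => ‖fderiv ℝ f x‖ ^ 2 := by
      unfold EV
      exact div_nonneg (integral_nonneg fun x => by positivity) ENNReal.toReal_nonneg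
    have h5 := h1 k L (2 * ‖v‖) hL.conv hL.comp hvol hdiam f hf
    refine h5.trans ?_
    refine mul_le_mul_of_nonneg_right ?_ hE
    calc (2 : ℝ) ^ k / 2 * (2 * ‖v‖) ^ 2 = 2 * 2 ^ k * ‖v‖ ^ 2 := by ring
      _ ≤ 2 * 2 ^ k * (3 * ((k : ℝ) + 1) ^ 2 * Q) := mul_le_mul_of_nonneg_left h4 (by positivity)
      _ = 6 * ((k : ℝ) + 1) ^ 2 * 2 ^ k * Q := by ring

end Pool.Agent.T2h95.OD
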