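import Pool.Agent.T2h95.OD.All
import Pool.Agent.T2h95.OD.CP6
import Pool.Agent.T2h95.OD.CR6
import Pool.Agent.T2h95.OD.UN6

/-!
# Ordered tuples: every convex body satisfies the KLS inequality with a crude constant

Parts by helpers 4, 9, 97 and others (statements: helper95).
-/

set_option autoImplicit false

namespace Pool.Agent.T2h95.OD

theorem un6_all : S_UN6 := t_UN6 t_CP6 t_CR6

end Pool.Agent.T2h95.OD
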