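import Pool.Agent.T2h95.OD.Stm

set_option autoImplicit false

namespace Pool.Agent.T2h95.OD

open MeasureTheory Set Filter Topology
open scoped ENNReal InnerProductSpace

theorem t_BD5 : S_BD5 := by
  intro k X V H lam θ D w v Z hθ hV hD hH hv
  set S := ∑ j, Z j ^ 2 with hS
  set W := ∑ j, w j ^ 2 with hW
  set A := ∑ j, w j * Z j with hA
  set B := ∑ j, v j * Z j with hB
  have e : X + ∑ j, (w j + D * v j) * Z j = X + A + D * B := by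
    rw [hA, hB, Finset.mul_sum, add_assoc, ← Finset.sum_add_distrib]
    congr 1
    apply Finset.sum_congr rfl
    intro j _
    ring
  have hS0 : 0 ≤ S := Finset.sum_nonneg fun j _ => sq_nonneg _
  have hW0 : 0 ≤ W := Finset.sum_nonneg fun j _ => sq_nonneg _
  have hA2 : A ^ 2 ≤ W * S := Finset.sum_mul_sq_le_sq_mul_sq _ _ _
  have hB2 : B ^ 2 ≤ (∑ j, v j ^ 2) * S := Finset.sum_mul_sq_le_sq_mul_sq _ _ _
  have hk : (0 : ℝ) < k + 1 := by positivity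
  have hB3 : B ^ 2 ≤ 3 * (k + 1) ^ 2 * lam * S :=
    hB2.trans (mul_le_mul_of_nonneg_right hv hS0)
  have h3 : (X + A + D * B) ^ 2 ≤ 3 * (X ^ 2 + A ^ 2 + (D * B) ^ 2) := by
    nlinarith [sq_nonneg (X - A), sq_nonneg (X - D * B), sq_nonneg (A - D * B)]
  have hθ2 : 0 ≤ θ ^ 2 := sq_nonneg _
  have t1 : θ ^ 2 * X ^ 2 ≤ 12 * V * X ^ 2 := mul_le_mul_of_nonneg_right hV (sq_nonneg _)
  have t2 : θ ^ 2 * A ^ 2 ≤ 12 * V * (W * S) := by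
    calc θ ^ 2 * A ^ 2 ≤ θ ^ 2 * (W * S) := mul_le_mul_of_nonneg_left hA2 hθ2
      _ ≤ 12 * V * (W * S) := mul_le_mul_of_nonneg_right hV (mul_nonneg hW0 hS0)
  have hD2 : (θ * |D|) ^ 2 ≤ (H / (k + 1)) ^ 2 :=
    pow_le_pow_left₀ (mul_nonneg hθ (abs_nonneg _)) hD 2
  have hD3 : θ ^ 2 * D ^ 2 ≤ (H / (k + 1)) ^ 2 := by
    have : (θ * |D|) ^ 2 = θ ^ 2 * D ^ 2 := by rw [mul_pow, sq_abs]
    rw [← this]; exact hD2
  have t3 : θ ^ 2 * (D * B) ^ 2 ≤ 3 * lam * H ^ 2 * S := by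
    calc θ ^ 2 * (D * B) ^ 2 = (θ ^ 2 * D ^ 2) * B ^ 2 := by ring
      _ ≤ (H / (k + 1)) ^ 2 * B ^ 2 := mul_le_mul_of_nonneg_right hD3 (sq_nonneg _)
      _ ≤ (H / (k + 1)) ^ 2 * (3 * (k + 1) ^ 2 * lam * S) :=
        mul_le_mul_of_nonneg_left hB3 (sq_nonneg _)
      _ = 3 * lam * H ^ 2 * S := by
        field_simp
  rw [e]
  calc 4 * θ ^ 2 * (X + A + D * B) ^ 2
      ≤ 4 * θ ^ 2 * (3 * (X ^ 2 + A ^ 2 + (D * B) ^ 2)) :=
        mul_le_mul_of_nonneg_left h3 (by positivity)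
    _ = 12 * (θ ^ 2 * X ^ 2) + 12 * (θ ^ 2 * A ^ 2) + 12 * (θ ^ 2 * (D * B) ^ 2) := by ring
    _ ≤ 12 * (12 * V * X ^ 2) + 12 * (12 * V * (W * S)) + 12 * (3 * lam * H ^ 2 * S) := by
        linarith
    _ = 144 * V * X ^ 2 + (144 * V * W + 36 * lam * H ^ 2) * S := by ring

end Pool.Agent.T2h95.OD
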