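import Pool.Agent.T2h95.OD.Stm

/-! # CB5: `L` in coordinates -/

set_option autoImplicit false

namespace Pool.Agent.T2h95.OD

open MeasureTheory Set Filter Topology
open scoped ENNReal InnerProductSpace
open Pool.Agent.R972.OP (pd)
open Pool.Agent.T2h95.OC

namespace CB5x

variable {k : ℕ}

/-- coordinates -/
noncomputable def tl (k : ℕ) : (Fin k → ℝ) ≃L[ℝ] EuclideanSpace ℝ (Fin k) :=
  (PiLp.continuousLinearEquiv 2 ℝ (fun _ : Fin k => ℝ)).symm

theorem tl_apply (v : Fin k → ℝ) : tl k v = WithLp.toLp 2 v := rfl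

theorem vol (L : Set (EuclideanSpace ℝ (Fin k))) : volume (crd k L) = volume L :=
  (PiLp.volume_preserving_toLp (Fin k)).measure_preimage_emb
    (MeasurableEquiv.toLp 2 (Fin k → ℝ)).measurableEmbedding L

theorem int_eq (G : EuclideanSpace ℝ (Fin k) → ℝ) (L : Set (EuclideanSpace ℝ (Fin k))) :
    ∫ x in L, G x = ∫ v in crd k L, G (WithLp.toLp 2 v) :=
  ((PiLp.volume_preserving_toLp (Fin k)).setIntegral_preimage_emb
    (MeasurableEquiv.toLp 2 (Fin k → ℝ)).measurableEmbedding G L).symm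

theorem ev (G : EuclideanSpace ℝ (Fin k) → ℝ) (L : Set (EuclideanSpace ℝ (Fin k))) :
    Pool.Agent.W695.KH.EV L G = EL (crd k L) fun v => G (WithLp.toLp 2 v) := by
  unfold Pool.Agent.W695.KH.EV EL
  rw [int_eq, vol]

theorem norm_sq_dual {ι : Type} [Fintype ι] [DecidableEq ι] (L : EuclideanSpace ℝ ι →L[ℝ] ℝ) :
    ‖L‖ ^ 2 = ∑ z, L (EuclideanSpace.single z 1) ^ 2 := by
  have h1 : ‖L‖ = ‖(InnerProductSpace.toDual ℝ (EuclideanSpace ℝ ι)).symm L‖ := by simp
  rw [h1, EuclideanSpace.real_norm_sq_eq]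
  refine Finset.sum_congr rfl fun z _ => ?_
  congr 1
  have h2 := InnerProductSpace.toDual_symm_apply (𝕜 := ℝ) (x := EuclideanSpace.single z (1 : ℝ))
    (y := L)
  rw [← h2, EuclideanSpace.inner_single_right]
  simp

theorem grad (u : (Fin k → ℝ) → ℝ) (hu : ContDiff ℝ 1 u) (w : Fin k → ℝ) :
    ‖fderiv ℝ (fun x : EuclideanSpace ℝ (Fin k) => u ((tl k).symm x)) (WithLp.toLp 2 w)‖ ^ 2 =
      ∑ j, fderiv ℝ u w (Pi.single j 1) ^ 2 := by
  have h1 : HasFDerivAt u (fderiv ℝ u w) ((tl k).symm (WithLp.toLp 2 w)) :=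
    ((hu.differentiable one_ne_zero) w).hasFDerivAt
  have h2 : HasFDerivAt (fun x : EuclideanSpace ℝ (Fin k) => u ((tl k).symm x))
      ((fderiv ℝ u w).comp ((tl k).symm : EuclideanSpace ℝ (Fin k) →L[ℝ] (Fin k → ℝ)))
      (WithLp.toLp 2 w) := h1.comp _ (tl k).symm.hasFDerivAt
  rw [h2.fderiv, norm_sq_dual]
  refine Finset.sum_congr rfl fun j _ => ?_
  have h3 : (tl k).symm (EuclideanSpace.single j (1 : ℝ)) = Pi.single j 1 := by
    funext i
    show (EuclideanSpace.single j (1 : ℝ)) i = _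
    simp [Pi.single_apply]
  show fderiv ℝ u w ((tl k).symm (EuclideanSpace.single j (1 : ℝ))) ^ 2 = _
  rw [h3]

end CB5x

open CB5x

theorem t_CB5 : S_CB5 := by
  intro k L hL
  have hcomp : IsCompact (crd k L) := (tl k).toHomeomorph.isCompact_preimage.2 hL.comp
  have hint : IntegrableOn (fun x : EuclideanSpace ℝ (Fin k) => x) L :=
    continuous_id.continuousOn.integrableOn_compact hL.comp
  refine ⟨⟨?_, hcomp, ?_, ?_⟩, ?_, ?_⟩
  · exact hL.conv.linear_preimage (tl k).toLinearEquiv.toLinearMap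
  · rw [vol]
    exact lt_of_lt_of_le (isOpen_interior.measure_pos _ hL.int) (measure_mono interior_subset)
  · intro j
    have h1 := int_eq (fun x : EuclideanSpace ℝ (Fin k) => x j) L
    have h2 : ∫ x in L, (fun x : EuclideanSpace ℝ (Fin k) => x j) x = (∫ x in L, x) j := by
      have := (EuclideanSpace.proj j : EuclideanSpace ℝ (Fin k) →L[ℝ] ℝ).integral_comp_comm hint
      simpa using this
    rw [h2, hL.cen] at h1
    simpa using h1.symm
  · intro lam h u hu
    have h1 := h (fun x => u ((tl k).symm x)) (hu.comp (tl k).symm.contDiff)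
    unfold Pool.Agent.W695.KH.VV at h1
    rw [ev, ev, ev] at h1
    simp only [grad u hu] at h1
    exact h1
  · intro u
    unfold Pool.Agent.W695.KH.VV
    have h1 : Pool.Agent.W695.KH.EV L (fun x => ⟪u, x⟫_ℝ) = 0 := by
      unfold Pool.Agent.W695.KH.EV
      rw [integral_inner hint, hL.cen, inner_zero_right, zero_div]
    rw [h1, ev]
    have h2 : ∀ v : Fin k → ℝ, ⟪u, WithLp.toLp 2 v⟫_ℝ = ∑ j, u j * v j := by
      intro v
      simp [PiLp.inner_apply, mul_comm]
    simp only [h2]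
    ring

end Pool.Agent.T2h95.OD
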