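import Pool.Agent.T2h95.OD.Stm
import Pool.Agent.T2h95.OC.CHE0
import Pool.Agent.R310.OP2.Body
import Pool.Agent.R656.OP2.Core

/-!
# From the Poincare inequality to the KLS inequality (task CH5 of project OD)
-/

set_option autoImplicit false

namespace Pool.Agent.T2h95.OD

open MeasureTheory Set Filter Topology
open scoped ENNReal InnerProductSpace
open Pool.Agent.R972.OP (S_BODL)
open Pool.Agent.W695.KH (EV VV Sm)
open Pool.Agent.T2h95.OC

open Pool.Agent.T2h95.OC.CHE in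
theorem ch5_of (hB : S_BODL) : S_CH5 := by
  obtain ⟨C, hC, HH⟩ := Pool.Agent.Y211.FF.half
  refine ⟨1 / (8 * Real.sqrt C), by positivity, ?_⟩
  intro κ hκ ι _ K hc hco hi Cp θ hCp hθ hP hV
  have hck : 1 / (8 * Real.sqrt C) / Real.sqrt κ = 1 / (8 * Real.sqrt (C * κ)) := by
    rw [Real.sqrt_mul hC.le, div_div, mul_assoc]
  rw [hck]
  intro t ht A hA
  have hv : 0 < volume K :=
    lt_of_lt_of_le (isOpen_interior.measure_pos volume hi) (measure_mono interior_subset)
  have hprob := ung_prob hc hv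
  have hθ0 : θ ≠ 0 := by
    rintro rfl
    simp at hθ
  obtain ⟨m, hm⟩ := HH ι K hc hco hi (ung K) rfl θ t hθ fun b => ht θ b hθ0
  have hcont : Continuous fun x : EuclideanSpace ℝ ι => (⟪θ, x⟫_ℝ - m) ^ 2 := by fun_prop
  rw [← ofReal_integral_eq_lintegral_ofReal (ung_integrable hc hv _ hcont)
    (Eventually.of_forall fun x => sq_nonneg _), ung_int] at hm
  have h3 : Cp / κ ≤ EV K fun x => (⟪θ, x⟫_ℝ - m) ^ 2 := by
    rw [div_le_iff₀ hκ, mul_comm]
    exact hV m
  have h5 : t ^ 2 * ENNReal.ofReal (Cp / κ) ≤ ENNReal.ofReal C :=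
    (mul_le_mul_right (ENNReal.ofReal_le_ofReal h3) _).trans hm
  have ht2 : t ^ 2 ≤ ENNReal.ofReal (C * κ / Cp) := by
    have e : ENNReal.ofReal (C * κ / Cp) = ENNReal.ofReal C * ENNReal.ofReal (κ / Cp) := by
      rw [← ENNReal.ofReal_mul hC.le, mul_div_assoc]
    rw [e]
    calc t ^ 2 = t ^ 2 * ENNReal.ofReal (Cp / κ) * ENNReal.ofReal (κ / Cp) := by
          rw [mul_assoc, ← ENNReal.ofReal_mul (by positivity)]
          have : Cp / κ * (κ / Cp) = 1 := by field_simp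
          rw [this]; simp
      _ ≤ _ := mul_le_mul_left h5 _
  have ht3 : t ≤ ENNReal.ofReal (Real.sqrt (C * κ / Cp)) := by
    have e : ENNReal.ofReal (C * κ / Cp) = ENNReal.ofReal (Real.sqrt (C * κ / Cp)) ^ 2 := by
      rw [← ENNReal.ofReal_pow (Real.sqrt_nonneg _), Real.sq_sqrt (by positivity)]
    rw [e] at ht2
    exact (ENNReal.pow_le_pow_left_iff two_ne_zero).1 ht2
  have hset := sets hB hc hco hv Cp hCp hP A hA
  obtain ⟨I, hI⟩ : ∃ I : ℝ≥0∞, I = bdg (ung K) A := ⟨_, rfl⟩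
  obtain ⟨M, hM⟩ : ∃ M : ℝ≥0∞, M = min (ung K A) (1 - ung K A) := ⟨_, rfl⟩
  rw [← hI, ← hM] at hset ⊢
  calc ENNReal.ofReal (1 / (8 * Real.sqrt (C * κ))) * t * M
      ≤ ENNReal.ofReal (1 / (8 * Real.sqrt (C * κ))) * ENNReal.ofReal (Real.sqrt (C * κ / Cp)) *
          (ENNReal.ofReal (8 * Real.sqrt Cp) * I) := by gcongr
    _ = (ENNReal.ofReal (1 / (8 * Real.sqrt (C * κ))) * ENNReal.ofReal (Real.sqrt (C * κ / Cp)) *
          ENNReal.ofReal (8 * Real.sqrt Cp)) * I := by ring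
    _ = I := by
        rw [← ENNReal.ofReal_mul (by positivity), ← ENNReal.ofReal_mul (by positivity)]
        have h7 : 0 < Real.sqrt Cp := Real.sqrt_pos.2 hCp
        have h8 : 0 < Real.sqrt (C * κ) := Real.sqrt_pos.2 (by positivity)
        have : 1 / (8 * Real.sqrt (C * κ)) * Real.sqrt (C * κ / Cp) * (8 * Real.sqrt Cp) = 1 := by
          rw [Real.sqrt_div (by positivity)]
          field_simp
        rw [this, ENNReal.ofReal_one, one_mul]

theorem t_CH5 : S_CH5 := ch5_of (Pool.Agent.R310.OP2.Body.bodl Pool.Agent.R656.OP2.t_corl)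

end Pool.Agent.T2h95.OD
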