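import Pool.Agent.T2h95.OD.Stm

/-! # CU5: variance over a fibre -/

set_option autoImplicit false

namespace Pool.Agent.T2h95.OD

open MeasureTheory Set Filter Topology
open scoped ENNReal InnerProductSpace
open Pool.Agent.T2h95.OC

namespace CU5

theorem Ln_eq {k : ℕ} (n : ℕ) (L : Set (Fin k → ℝ)) :
    Ln n L = Set.pi univ fun _ : Fin n => L := by
  ext v
  simp [Ln]

theorem Ln_comp {k : ℕ} (n : ℕ) {L : Set (Fin k → ℝ)} (hL : IsCompact L) :
    IsCompact (Ln n L) := by
  rw [Ln_eq]
  exact isCompact_univ_pi fun _ => hL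

end CU5

theorem t_CU5 (h1 : S_TN5) : S_CU5 := by
  intro n k α β H φ w L lam hH hL hP hlam f hf x
  -- the map of the fibre
  have hsv : ContDiff ℝ 1 fun v : Fin n → Fin k → ℝ => (x, s5 w φ x v) := by
    refine contDiff_const.prodMk (contDiff_pi.2 fun i => contDiff_pi.2 fun j => ?_)
    unfold s5
    exact contDiff_const.add (contDiff_const.mul
      ((contDiff_apply ℝ ℝ j).comp (contDiff_apply ℝ (Fin k → ℝ) i)))
  set F : (Fin n → Fin k → ℝ) → ℝ := fun v => f (x, s5 w φ x v) with hF
  have hFc : ContDiff ℝ 1 F := hf.comp hsv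
  have hp := h1 n k L lam hL hP hlam F hFc
  -- partial derivatives
  have hpd : ∀ (v : Fin n → Fin k → ℝ) (i : Fin n) (j : Fin k),
      fderiv ℝ F v (Pi.single i (Pi.single j 1)) = φ (x i) * eZ f i j (x, s5 w φ x v) := by
    intro v i j
    have hd1 : HasFDerivAt f (fderiv ℝ f (x, s5 w φ x v)) (x, s5 w φ x v) :=
      (hf.differentiable (by norm_num) _).hasFDerivAt
    have hs : ∀ t : ℝ, s5 w φ x (v + t • (Pi.single i (Pi.single j 1) : Fin n → Fin k → ℝ)) =
        s5 w φ x v + t • (Pi.single i (Pi.single j (φ (x i))) : Fin n → Fin k → ℝ) := by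
      intro t
      funext i' j'
      unfold s5
      by_cases hi : i' = i
      · subst hi
        by_cases hj : j' = j
        · subst hj
          simp only [Pi.add_apply, Pi.smul_apply, Pi.single_eq_same, smul_eq_mul]
          ring
        · simp only [Pi.add_apply, Pi.smul_apply, Pi.single_eq_same, Pi.single_eq_of_ne hj,
            smul_eq_mul, mul_zero, add_zero]
      · simp only [Pi.add_apply, Pi.smul_apply, Pi.single_eq_of_ne hi, Pi.zero_apply,
          smul_eq_mul, mul_zero, add_zero]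
    have hd2 : HasDerivAt (fun t : ℝ =>
        (x, s5 w φ x (v + t • (Pi.single i (Pi.single j 1) : Fin n → Fin k → ℝ))))
        ((0, Pi.single i (Pi.single j (φ (x i)))) : (Fin n → ℝ) × (Fin n → Fin k → ℝ)) 0 := by
      refine HasDerivAt.prodMk (hasDerivAt_const _ _) ?_
      simp only [hs]
      have := ((hasDerivAt_id (0 : ℝ)).smul_const
        (Pi.single i (Pi.single j (φ (x i))) : Fin n → Fin k → ℝ)).const_add (s5 w φ x v)
      simpa using this
    have hd3 : HasDerivAt (fun t : ℝ => F (v + t • (Pi.single i (Pi.single j 1) : Fin n → Fin k → ℝ)))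
        (fderiv ℝ f (x, s5 w φ x v) (0, Pi.single i (Pi.single j (φ (x i))))) 0 := by
      have hd1' : HasFDerivAt f (fderiv ℝ f (x, s5 w φ x v))
          ((fun t : ℝ =>
            (x, s5 w φ x (v + t • (Pi.single i (Pi.single j 1) : Fin n → Fin k → ℝ)))) 0) := by
        simpa using hd1
      exact hd1'.comp_hasDerivAt (0 : ℝ) hd2
    have hd4 : HasDerivAt (fun t : ℝ => F (v + t • (Pi.single i (Pi.single j 1) : Fin n → Fin k → ℝ)))
        (fderiv ℝ F v (Pi.single i (Pi.single j 1))) 0 := by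
      have hF' : HasFDerivAt F (fderiv ℝ F v)
          ((fun t : ℝ => v + t • (Pi.single i (Pi.single j 1) : Fin n → Fin k → ℝ)) 0) := by
        simpa using (hFc.differentiable (by norm_num) v).hasFDerivAt
      have : HasDerivAt (fun t : ℝ => v + t • (Pi.single i (Pi.single j 1) : Fin n → Fin k → ℝ))
          (Pi.single i (Pi.single j 1) : Fin n → Fin k → ℝ) 0 := by
        simpa using ((hasDerivAt_id (0 : ℝ)).smul_const
          (Pi.single i (Pi.single j 1) : Fin n → Fin k → ℝ)).const_add v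
      exact hF'.comp_hasDerivAt (0 : ℝ) this
    rw [hd4.unique hd3]
    have e2 : ((0, Pi.single i (Pi.single j (φ (x i)))) :
        (Fin n → ℝ) × (Fin n → Fin k → ℝ)) =
        φ (x i) • (0, Pi.single i (Pi.single j 1)) := by
      rw [Prod.smul_mk, smul_zero]
      congr 1
      rw [← Pi.single_smul, ← Pi.single_smul, smul_eq_mul, mul_one]
    rw [e2, map_smul, smul_eq_mul]
    rfl
  have hcv : Continuous fun v : Fin n → Fin k → ℝ => (x, s5 w φ x v) := hsv.continuous
  have hdS : ∀ i j, Continuous (eZ f i j) := fun i j => by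
    unfold eZ
    exact (hf.continuous_fderiv (by norm_num)).clm_apply continuous_const
  have hc := CU5.Ln_comp n hL.comp
  have hi1 : IntegrableOn (fun v => lam * ∑ i, ∑ j,
      fderiv ℝ F v (Pi.single i (Pi.single j 1)) ^ 2) (Ln n L) := by
    have : Continuous fun v => lam * ∑ i, ∑ j,
        fderiv ℝ F v (Pi.single i (Pi.single j 1)) ^ 2 := by
      refine continuous_const.mul (continuous_finsetSum _ fun i _ =>
        continuous_finsetSum _ fun j _ => ?_)
      simp only [hpd]
      exact (continuous_const.mul ((hdS i j).comp hcv)).pow 2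
    exact this.continuousOn.integrableOn_compact hc
  have hi2 : IntegrableOn (fun v => ∑ i, ∑ j, lam * H ^ 2 * eZ f i j (x, s5 w φ x v) ^ 2)
      (Ln n L) := by
    have : Continuous fun v => ∑ i, ∑ j, lam * H ^ 2 * eZ f i j (x, s5 w φ x v) ^ 2 := by
      refine continuous_finsetSum _ fun i _ => continuous_finsetSum _ fun j _ => ?_
      exact continuous_const.mul (((hdS i j).comp hcv).pow 2)
    exact this.continuousOn.integrableOn_compact hc
  have hle : ∫ v in Ln n L, lam * ∑ i, ∑ j, fderiv ℝ F v (Pi.single i (Pi.single j 1)) ^ 2 ≤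
      ∫ v in Ln n L, ∑ i, ∑ j, lam * H ^ 2 * eZ f i j (x, s5 w φ x v) ^ 2 := by
    refine integral_mono hi1 hi2 fun v => ?_
    simp only [Finset.mul_sum]
    refine Finset.sum_le_sum fun i _ => Finset.sum_le_sum fun j _ => ?_
    rw [hpd, mul_pow, ← mul_assoc]
    refine mul_le_mul_of_nonneg_right ?_ (sq_nonneg _)
    refine mul_le_mul_of_nonneg_left ?_ hlam
    exact pow_le_pow_left₀ (hH.nonneg _) (hH.le _) 2
  have hV : 0 ≤ (volume (Ln n L)).toReal := ENNReal.toReal_nonneg
  have h5 : lam * ((∫ v in Ln n L, ∑ i, ∑ j,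
      fderiv ℝ F v (Pi.single i (Pi.single j 1)) ^ 2) / (volume (Ln n L)).toReal) ≤
      (∫ v in Ln n L, ∑ i, ∑ j, lam * H ^ 2 * eZ f i j (x, s5 w φ x v) ^ 2) /
        (volume (Ln n L)).toReal := by
    rw [← mul_div_assoc, ← integral_const_mul]
    exact div_le_div_of_nonneg_right hle hV
  have h6 : f5 w φ L (fun p => f p ^ 2) x =
    (∫ v in Ln n L, F v ^ 2) / (volume (Ln n L)).toReal := rfl
  have h7 : f5 w φ L f x = (∫ v in Ln n L, F v) / (volume (Ln n L)).toReal := rfl
  have h8 : f5 w φ L (fun p => ∑ i, ∑ j, lam * H ^ 2 * eZ f i j p ^ 2) x =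
    (∫ v in Ln n L, ∑ i, ∑ j, lam * H ^ 2 * eZ f i j (x, s5 w φ x v) ^ 2) /
      (volume (Ln n L)).toReal := rfl
  rw [h6, h7, h8]
  linarith

end Pool.Agent.T2h95.OD
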