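import Pool.Agent.T2h95.OD.Stm

/-! # Project OD, task FA5: affine change of variables -/

set_option autoImplicit false

namespace Pool.Agent.T2h95.OD

open MeasureTheory Set Filter Topology
open scoped ENNReal BigOperators
open Pool.Agent.T2h95.OC

namespace FA5

variable {n k : ℕ}

/-- the linear part -/
noncomputable def A (φ : ℝ → ℝ) (x : Fin n → ℝ) : (Fin n → Fin k → ℝ) →L[ℝ] (Fin n → Fin k → ℝ) :=
  ContinuousLinearMap.pi fun i => φ (x i) •
    (ContinuousLinearMap.proj i : (Fin n → Fin k → ℝ) →L[ℝ] (Fin k → ℝ))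

theorem A_apply (φ : ℝ → ℝ) (x : Fin n → ℝ) (v : Fin n → Fin k → ℝ) (i : Fin n) (j : Fin k) :
    A φ x v i j = φ (x i) * v i j := rfl

theorem det_A (φ : ℝ → ℝ) (x : Fin n → ℝ) :
    (A (k := k) φ x).det = ∏ i, φ (x i) ^ k := by
  have h1 : ((A (k := k) φ x : (Fin n → Fin k → ℝ) →L[ℝ] (Fin n → Fin k → ℝ)) :
      (Fin n → Fin k → ℝ) →ₗ[ℝ] (Fin n → Fin k → ℝ)) =
      LinearMap.pi fun i => (φ (x i) • (LinearMap.id : (Fin k → ℝ) →ₗ[ℝ] (Fin k → ℝ))).comp
        (LinearMap.proj i) := rfl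
  show LinearMap.det ((A (k := k) φ x : (Fin n → Fin k → ℝ) →L[ℝ] (Fin n → Fin k → ℝ)) :
      (Fin n → Fin k → ℝ) →ₗ[ℝ] (Fin n → Fin k → ℝ)) = _
  rw [h1, LinearMap.det_pi]
  refine Finset.prod_congr rfl fun i _ => ?_
  rw [LinearMap.det_smul, LinearMap.det_id, mul_one, Module.finrank_fin_fun]

theorem hasF (w : Fin k → ℝ) (φ : ℝ → ℝ) (x : Fin n → ℝ) (v : Fin n → Fin k → ℝ) :
    HasFDerivAt (s5 w φ x) (A φ x) v := by
  have h1 : s5 w φ x = fun v : Fin n → Fin k → ℝ => (fun i j => x i * w j) + A φ x v := rfl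
  rw [h1]
  exact (A (k := k) φ x).hasFDerivAt.const_add _

theorem img (w : Fin k → ℝ) (φ : ℝ → ℝ) (L : Set (Fin k → ℝ)) (x : Fin n → ℝ) :
    {z : Fin n → Fin k → ℝ | ∀ i, ∃ v ∈ L, ∀ j, z i j = x i * w j + φ (x i) * v j} =
      s5 w φ x '' Ln n L := by
  ext z
  simp only [mem_ofPred_eq, mem_image]
  constructor
  · intro h
    choose v hv h using h
    exact ⟨v, hv, by funext i j; exact (h i j).symm⟩
  · rintro ⟨v, hv, rfl⟩ i
    exact ⟨v i, hv i, fun j => rfl⟩

theorem Ln_meas {L : Set (Fin k → ℝ)} (hL : LB L) : MeasurableSet (Ln n L) := by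
  have e : Ln n L = Set.pi univ fun _ => L := by
    ext x
    simp only [Ln, mem_ofPred_eq, mem_univ_pi]
  rw [e]
  exact MeasurableSet.univ_pi fun _ => hL.comp.isClosed.measurableSet

end FA5

open FA5 in
theorem t_FA5 : S_FA5 := by
  intro n k w φ L hk hL hφ x ψ _
  rw [img]
  by_cases h : ∀ i, φ (x i) ≠ 0
  · rw [integral_image_eq_integral_abs_det_fderiv_smul volume (Ln_meas hL)
      (fun v _ => (hasF w φ x v).hasFDerivWithinAt) ?_ ψ]
    · rw [det_A, abs_of_nonneg (Finset.prod_nonneg fun i _ => pow_nonneg (hφ _) _)]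
      simp only [smul_eq_mul]
      rw [integral_const_mul]
    · intro v _ v' _ hvv
      funext i j
      have h1 := congrFun (congrFun hvv i) j
      simp only [s5] at h1
      have h2 : φ (x i) * v i j = φ (x i) * v' i j := by linarith
      exact mul_left_cancel₀ (h i) h2
  · push Not at h
    obtain ⟨i, hi⟩ := h
    have h0 : ∏ i, φ (x i) ^ k = 0 := by
      apply Finset.prod_eq_zero (Finset.mem_univ i)
      rw [hi, zero_pow (by omega)]
    rw [h0, zero_mul]
    have h1 : volume (s5 w φ x '' Ln n L) = 0 := by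
      apply addHaar_image_eq_zero_of_det_fderivWithin_eq_zero (f' := fun _ => A φ x) volume
        (fun v _ => (hasF w φ x v).hasFDerivWithinAt)
      intro v _
      rw [det_A, h0]
    rw [Measure.restrict_eq_zero.2 h1, integral_zero_measure]

end Pool.Agent.T2h95.OD
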