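import Pool.Agent.T2h95.OD.Stm

/-! # FC5: continuity of the mean over the fibre -/

set_option autoImplicit false

namespace Pool.Agent.T2h95.OD

open MeasureTheory Set Filter Topology

theorem Ln_compact {n k : ℕ} {L : Set (Fin k → ℝ)} (hL : IsCompact L) : IsCompact (Ln n L) := by
  have h : Ln n L = Set.pi Set.univ fun _ : Fin n => L := by
    ext x
    exact ⟨fun h i _ => h i, fun h i => h i trivial⟩
  rw [h]
  exact isCompact_univ_pi fun _ => hL

theorem s5_cont {n k : ℕ} (w : Fin k → ℝ) {φ : ℝ → ℝ} (hφ : Continuous φ) :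
    Continuous fun p : (Fin n → ℝ) × (Fin n → Fin k → ℝ) => (p.1, s5 w φ p.1 p.2) := by
  unfold s5
  fun_prop

theorem t_FC5 : S_FC5 := by
  intro n k w φ L F hL hφ hF
  unfold f5
  refine Continuous.div_const ?_ _
  refine continuous_parametric_integral_of_continuous
    (f := fun x v => F (x, s5 w φ x v)) ?_ (Ln_compact hL.comp)
  exact hF.comp (s5_cont w hφ)

end Pool.Agent.T2h95.OD
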