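import Pool.Agent.T2h95.OD.Stm

/-!
# Project OD, task FU5 (helper51): integrals over the ordered tuples of points
-/

set_option autoImplicit false

namespace Pool.Agent.T2h95.OD

open MeasureTheory Set Filter Topology
open scoped ENNReal InnerProductSpace
open Pool.Agent.R972.OP (pd)
open Pool.Agent.T2h95.OC

namespace FU5

theorem cr_closed {n : ℕ} (R : Fin n → Fin n → Prop) : IsClosed (CR R) := by
  have e : CR R = ⋂ (i : Fin n) (j : Fin n) (_ : R i j), {x : Fin n → ℝ | x i ≤ x j} := by
    ext x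
    simp only [CR, mem_ofPred_eq, mem_iInter]
  rw [e]
  exact isClosed_iInter fun i => isClosed_iInter fun j => isClosed_iInter fun _ =>
    isClosed_le (continuous_apply i) (continuous_apply j)

theorem d5_compact {k : ℕ} {α β : ℝ} {φ : ℝ → ℝ} (w : Fin k → ℝ) {L : Set (Fin k → ℝ)}
    (hφ : Continuous φ) (hL : IsCompact L) : IsCompact (D5 α β w φ L) := by
  have e : D5 α β w φ L = (fun p : ℝ × (Fin k → ℝ) =>
      ((p.1, fun j => p.1 * w j + φ p.1 * p.2 j) : ℝ × (Fin k → ℝ))) '' (Icc α β ×ˢ L) := by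
    ext p
    constructor
    · rintro ⟨hp, v, hv, h⟩
      exact ⟨(p.1, v), ⟨hp, hv⟩, Prod.ext rfl (funext fun j => (h j).symm)⟩
    · rintro ⟨⟨x, v⟩, ⟨hx, hv⟩, rfl⟩
      exact ⟨hx, v, hv, fun j => rfl⟩
  rw [e]
  refine (isCompact_Icc.prod hL).image ?_
  refine continuous_fst.prodMk (continuous_pi fun j => ?_)
  exact (continuous_fst.mul continuous_const).add
    ((hφ.comp continuous_fst).mul ((continuous_apply j).comp continuous_snd))

theorem k5_compact {n k : ℕ} (R : Fin n → Fin n → Prop) {D : Set (ℝ × (Fin k → ℝ))}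
    (hD : IsCompact D) : IsCompact (K5 (n := n) D R) := by
  have hcl : IsClosed (K5 (n := n) D R) := by
    have e : K5 (n := n) D R = (Prod.fst ⁻¹' CR R) ∩
        ⋂ i : Fin n, (fun p : (Fin n → ℝ) × (Fin n → Fin k → ℝ) => (p.1 i, p.2 i)) ⁻¹' D := by
      ext p
      simp only [K5, mem_ofPred_eq, mem_inter_iff, mem_preimage, mem_iInter]
    rw [e]
    refine ((cr_closed R).preimage continuous_fst).inter (isClosed_iInter fun i => ?_)
    exact hD.isClosed.preimage
      (((continuous_apply i).comp continuous_fst).prodMk ((continuous_apply i).comp continuous_snd))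
  refine ((isCompact_univ_pi fun _ : Fin n => hD.image continuous_fst).prod
    (isCompact_univ_pi fun _ : Fin n => hD.image continuous_snd)).of_isClosed_subset hcl ?_
  rintro p ⟨-, hp⟩
  exact ⟨fun i _ => ⟨_, hp i, rfl⟩, fun i _ => ⟨_, hp i, rfl⟩⟩

theorem fib_closed {n k : ℕ} (w : Fin k → ℝ) (φ : ℝ → ℝ) {L : Set (Fin k → ℝ)}
    (hL : IsCompact L) (x : Fin n → ℝ) : IsClosed
    {z : Fin n → Fin k → ℝ | ∀ i, ∃ v ∈ L, ∀ j, z i j = x i * w j + φ (x i) * v j} := by
  have e : {z : Fin n → Fin k → ℝ | ∀ i, ∃ v ∈ L, ∀ j, z i j = x i * w j + φ (x i) * v j} =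
      Set.pi univ fun i => (fun v : Fin k → ℝ => fun j => x i * w j + φ (x i) * v j) '' L := by
    ext z
    simp only [mem_ofPred_eq, mem_univ_pi, mem_image]
    refine forall_congr' fun i => ⟨?_, ?_⟩
    · rintro ⟨v, hv, h⟩
      exact ⟨v, hv, funext fun j => (h j).symm⟩
    · rintro ⟨v, hv, h⟩
      exact ⟨v, hv, fun j => (congrFun h j).symm⟩
  rw [e]
  refine (isCompact_univ_pi fun i => hL.image ?_).isClosed
  exact continuous_pi fun j => continuous_const.add (continuous_const.mul (continuous_apply j))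

theorem ln_vol {n k : ℕ} (L : Set (Fin k → ℝ)) :
    (volume (Ln n L)).toReal = (volume L).toReal ^ n := by
  have e : Ln n L = Set.pi univ fun _ : Fin n => L := by
    ext v
    simp only [Ln, mem_ofPred_eq, mem_univ_pi]
  rw [e, volume_pi_pi, Finset.prod_const, Finset.card_univ, Fintype.card_fin, ENNReal.toReal_pow]

end FU5

open FU5 in
theorem t_FU5 (h1 : S_FA5) (h2 : S_FUB2) (hLD : S_LD5) : S_FU5 := by
  classical
  intro α β H φ k w L hk hP hL n R G hG
  obtain ⟨hA, hρ⟩ := hLD α β H φ k hP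
  set A := A5 α β k φ with hAdef
  set ρ := r5 α β k φ with hρd
  have hCm : MeasurableSet (CR R) := (cr_closed R).measurableSet
  rw [h2 n ρ hρ.nonneg hρ.meas hρ.one (CR R) (f5 w φ L G) hCm]
  have hK := k5_compact (n := n) R (d5_compact (α := α) (β := β) w hP.cont hL.comp)
  have hKm : MeasurableSet (K5 (n := n) (D5 α β w φ L) R) := hK.isClosed.measurableSet
  have hvL : (volume L).toReal ≠ 0 :=
    (ENNReal.toReal_pos hL.pos.ne' hL.comp.measure_lt_top.ne).ne'
  have hint : Integrable ((K5 (n := n) (D5 α β w φ L) R).indicator G)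
      ((volume : Measure (Fin n → ℝ)).prod (volume : Measure (Fin n → Fin k → ℝ))) := by
    rw [integrable_indicator_iff hKm]
    exact hG.continuousOn.integrableOn_compact hK
  have e1 : ∫ p in K5 (D5 α β w φ L) R, G p =
      ∫ x : Fin n → ℝ, ∫ s : Fin n → Fin k → ℝ, (K5 (n := n) (D5 α β w φ L) R).indicator G (x, s) := by
    rw [← integral_indicator hKm]
    exact integral_prod _ hint
  rw [e1, ← integral_indicator hCm, ← integral_const_mul]
  refine integral_congr_ae (Eventually.of_forall fun x => ?_)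
  show ∫ s : Fin n → Fin k → ℝ, (K5 (n := n) (D5 α β w φ L) R).indicator G (x, s) =
    (A * (volume L).toReal) ^ n * (CR R).indicator (fun x => (∏ i, ρ (x i)) * f5 w φ L G x) x
  by_cases hx : x ∈ CR R ∧ ∀ i, α ≤ x i ∧ x i ≤ β
  · obtain ⟨hxC, hxI⟩ := hx
    rw [indicator_of_mem hxC]
    have hbox := (fib_closed (n := n) w φ hL.comp x).measurableSet
    have e2 : ∀ s : Fin n → Fin k → ℝ, (K5 (n := n) (D5 α β w φ L) R).indicator G (x, s) =
        {z : Fin n → Fin k → ℝ | ∀ i, ∃ v ∈ L, ∀ j,
          z i j = x i * w j + φ (x i) * v j}.indicator (fun s => G (x, s)) s := by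
      intro s
      have hiff : (x, s) ∈ K5 (n := n) (D5 α β w φ L) R ↔
          s ∈ {z : Fin n → Fin k → ℝ | ∀ i, ∃ v ∈ L, ∀ j,
            z i j = x i * w j + φ (x i) * v j} := by
        constructor
        · rintro ⟨-, hp⟩ i
          exact (hp i).2
        · intro hs
          exact ⟨hxC, fun i => ⟨hxI i, hs i⟩⟩
      by_cases hs : (x, s) ∈ K5 (n := n) (D5 α β w φ L) R
      · rw [indicator_of_mem hs, indicator_of_mem (hiff.1 hs)]
      · rw [indicator_of_notMem hs, indicator_of_notMem fun h => hs (hiff.2 h)]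
    simp only [e2]
    rw [integral_indicator hbox, h1 n k w φ L hk hL hP.nonneg x (fun s => G (x, s))
      (hG.comp (continuous_const.prodMk continuous_id))]
    unfold f5
    rw [ln_vol, mul_pow]
    have e3 : ∀ i : Fin n, A * ρ (x i) = φ (x i) ^ k := by
      intro i
      have : ρ (x i) = φ (x i) ^ k / A := by
        rw [hρd]
        unfold r5
        rw [indicator_of_mem (show x i ∈ Icc α β from hxI i)]
      rw [this, mul_div_cancel₀ _ hA.ne']
    have e4 : A ^ n = ∏ _i : Fin n, A := by
      rw [Finset.prod_const, Finset.card_univ, Fintype.card_fin]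
    have e5 : ∏ i, φ (x i) ^ k = A ^ n * ∏ i, ρ (x i) := by
      rw [e4, ← Finset.prod_mul_distrib]
      exact Finset.prod_congr rfl fun i _ => (e3 i).symm
    rw [e5]
    have hv : (volume L).toReal ^ n ≠ 0 := pow_ne_zero n hvL
    field_simp
  · have e2 : ∀ s : Fin n → Fin k → ℝ,
        (K5 (n := n) (D5 α β w φ L) R).indicator G (x, s) = 0 := by
      intro s
      have hns : (x, s) ∉ K5 (n := n) (D5 α β w φ L) R :=
        fun hs => hx ⟨hs.1, fun i => (hs.2 i).1⟩
      exact indicator_of_notMem hns G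
    simp only [e2]
    rw [integral_zero]
    by_cases hxC : x ∈ CR R
    · rw [indicator_of_mem hxC]
      have hex : ∃ i, ¬ (α ≤ x i ∧ x i ≤ β) := by
        by_contra hcon
        push Not at hcon
        exact hx ⟨hxC, fun i => hcon i⟩
      obtain ⟨i, hi⟩ := hex
      have h0 : ρ (x i) = 0 := by
        rw [hρd]
        unfold r5
        have hi' : x i ∉ Icc α β := hi
        exact indicator_of_notMem hi' _
      rw [Finset.prod_eq_zero (Finset.mem_univ i) h0, zero_mul, mul_zero]
    · rw [indicator_of_notMem hxC, mul_zero]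

end Pool.Agent.T2h95.OD
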