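import Pool.Agent.T2h95.OD.Stm

/-!
# Project OD, task GD5: differentiation of the mean over the fibre
-/

set_option autoImplicit false

namespace Pool.Agent.T2h95.OD

open MeasureTheory Set Filter Topology
open scoped ENNReal
open Pool.Agent.R972.OP (pd)
open Pool.Agent.T2h95.OC

namespace GD5

theorem Ln_compact {n k : ℕ} {L : Set (Fin k → ℝ)} (hL : LB L) : IsCompact (Ln n L) := by
  have e : Ln n L = Set.pi univ fun _ => L := by
    ext x
    simp only [Ln, mem_ofPred_eq, mem_univ_pi]
  rw [e]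
  exact isCompact_univ_pi fun _ => hL.comp

theorem contDiff_s {n k : ℕ} {w : Fin k → ℝ} {φ : ℝ → ℝ} (hφ : ContDiff ℝ 1 φ) :
    ContDiff ℝ 1 fun p : (Fin n → ℝ) × (Fin n → Fin k → ℝ) => (p.1, s5 w φ p.1 p.2) := by
  refine contDiff_fst.prodMk (contDiff_pi.2 fun i => contDiff_pi.2 fun j => ?_)
  have h1 : ContDiff ℝ 1 fun p : (Fin n → ℝ) × (Fin n → Fin k → ℝ) => p.1 i :=
    (contDiff_apply ℝ ℝ i).comp contDiff_fst
  have h2 : ContDiff ℝ 1 fun p : (Fin n → ℝ) × (Fin n → Fin k → ℝ) => p.2 i j :=
    (contDiff_apply_apply ℝ ℝ i j).comp contDiff_snd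
  exact (h1.mul contDiff_const).add ((hφ.comp h1).mul h2)

theorem deriv_s {n k : ℕ} {w : Fin k → ℝ} {φ : ℝ → ℝ} (hφ : ContDiff ℝ 1 φ)
    (x : Fin n → ℝ) (v : Fin n → Fin k → ℝ) :
    HasFDerivAt (fun x : Fin n → ℝ => (x, s5 w φ x v))
      ((ContinuousLinearMap.id ℝ (Fin n → ℝ)).prod (ContinuousLinearMap.pi fun l =>
        ContinuousLinearMap.pi fun j => (w j + deriv φ (x l) * v l j) •
          (ContinuousLinearMap.proj l : (Fin n → ℝ) →L[ℝ] ℝ))) x := by
  refine (hasFDerivAt_id x).prodMk (hasFDerivAt_pi.2 fun l => hasFDerivAt_pi.2 fun j => ?_)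
  have h1 : HasDerivAt (fun y => y * w j + φ y * v l j)
      (w j + deriv φ (x l) * v l j) (x l) := by
    have ha' := (hφ.differentiable (by norm_num) (x l)).hasDerivAt
    have h2 := (hasDerivAt_id (x l)).mul_const (w j)
    rw [one_mul] at h2
    exact h2.add (ha'.mul_const _)
  have h2 : HasFDerivAt (fun x : Fin n → ℝ => x l)
      (ContinuousLinearMap.proj l : (Fin n → ℝ) →L[ℝ] ℝ) x :=
    (ContinuousLinearMap.proj l : (Fin n → ℝ) →L[ℝ] ℝ).hasFDerivAt
  exact h1.comp_hasFDerivAt x h2

end GD5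

open GD5 in
theorem t_GD5 : S_GD5 := by
  intro n k w φ L f hL hφ hf
  set Φ : (Fin n → ℝ) × (Fin n → Fin k → ℝ) → ℝ := fun p => f (p.1, s5 w φ p.1 p.2) with hΦ
  have hΦc : ContDiff ℝ 1 Φ := hf.comp (contDiff_s hφ)
  have hcu := Ln_compact (n := n) hL
  have hfin : IsFiniteMeasure ((volume : Measure (Fin n → Fin k → ℝ)).restrict (Ln n L)) := ⟨by
    rw [Measure.restrict_apply_univ]
    exact hcu.measure_lt_top⟩
  set F' : (Fin n → ℝ) → (Fin n → Fin k → ℝ) → (Fin n → ℝ) →L[ℝ] ℝ := fun x v =>
    (fderiv ℝ Φ (x, v)).comp (ContinuousLinearMap.inl ℝ (Fin n → ℝ) (Fin n → Fin k → ℝ)) with hF'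
  have hF'c : Continuous fun p : (Fin n → ℝ) × (Fin n → Fin k → ℝ) => F' p.1 p.2 :=
    (hΦc.continuous_fderiv (by norm_num)).clm_comp continuous_const
  have hd : ∀ x v, HasFDerivAt (fun x => Φ (x, v)) (F' x v) x := by
    intro x v
    have h1 := (hΦc.differentiable (by norm_num) (x, v)).hasFDerivAt
    exact HasFDerivAt.comp (g := Φ) (f := fun x : Fin n → ℝ => (x, v)) x h1
      (hasFDerivAt_prodMk_left x v)
  have hmain0 : ∀ x0, HasFDerivAt (fun x => ∫ v in Ln n L, Φ (x, v)) (∫ v in Ln n L, F' x0 v) x0 := by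
    intro x0
    obtain ⟨M, hM⟩ := ((isCompact_closedBall x0 1).prod hcu).exists_bound_of_continuousOn
      hF'c.continuousOn
    have hx : ∀ x : Fin n → ℝ, Continuous fun v => Φ (x, v) := fun x =>
      hΦc.continuous.comp (continuous_const.prodMk continuous_id)
    refine hasFDerivAt_integral_of_dominated_of_fderiv_le (s := Metric.closedBall x0 1)
      (F := fun x v => Φ (x, v)) (F' := F') (bound := fun _ => M)
      (Metric.closedBall_mem_nhds x0 one_pos)
      (Eventually.of_forall fun x => (hx x).aestronglyMeasurable)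
      ((hx x0).continuousOn.integrableOn_compact hcu)
      (hF'c.comp (continuous_const.prodMk continuous_id)).aestronglyMeasurable ?_
      (integrable_const _) (Eventually.of_forall fun v x _ => hd x v)
    filter_upwards [ae_restrict_mem hcu.isClosed.measurableSet] with v hv x hx'
    exact hM (x, v) ⟨hx', hv⟩
  set c : ℝ := (volume (Ln n L)).toReal with hc
  have hff : f5 w φ L f = fun x => c⁻¹ • ∫ v in Ln n L, Φ (x, v) := by
    funext x
    unfold f5
    rw [smul_eq_mul, div_eq_inv_mul]
  have hmain : ∀ x0, HasFDerivAt (f5 w φ L f) (c⁻¹ • ∫ v in Ln n L, F' x0 v) x0 := by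
    intro x0
    rw [hff]
    exact (hmain0 x0).const_smul c⁻¹
  refine ⟨?_, fun i x => ?_⟩
  · rw [contDiff_one_iff_fderiv]
    refine ⟨fun x => (hmain x).differentiableAt, ?_⟩
    have e : fderiv ℝ (f5 w φ L f) = fun x => c⁻¹ • ∫ v in Ln n L, F' x v :=
      funext fun x => (hmain x).fderiv
    rw [e]
    have hcc : Continuous fun x => ∫ v in Ln n L, F' x v :=
      continuous_parametric_integral_of_continuous hF'c hcu
    exact hcc.const_smul c⁻¹
  · unfold pd
    have hi : Integrable (fun v => F' x v) (volume.restrict (Ln n L)) :=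
      (hF'c.comp (continuous_const.prodMk continuous_id)).continuousOn.integrableOn_compact hcu
    rw [(hmain x).fderiv]
    show c⁻¹ • ((∫ v in Ln n L, F' x v) (Pi.single i 1)) = _
    rw [ContinuousLinearMap.integral_apply hi, smul_eq_mul, div_eq_inv_mul]
    congr 1
    refine integral_congr_ae (Eventually.of_forall fun v => ?_)
    show F' x v (Pi.single i 1) = eV w f i (deriv φ (x i)) (v i) (x, s5 w φ x v)
    have h1 : HasFDerivAt (fun x => Φ (x, v)) _ x :=
      (hf.differentiable (by norm_num) (x, s5 w φ x v)).hasFDerivAt.comp x (deriv_s hφ x v)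
    rw [(hd x v).unique h1]
    show fderiv ℝ f (x, s5 w φ x v) (Pi.single i 1, fun l j =>
      (w j + deriv φ (x l) * v l j) * (Pi.single i (1 : ℝ) : Fin n → ℝ) l) = _
    have h2 : ((Pi.single i 1, fun l j => (w j + deriv φ (x l) * v l j) *
        (Pi.single i (1 : ℝ) : Fin n → ℝ) l) : (Fin n → ℝ) × (Fin n → Fin k → ℝ)) =
        (Pi.single i 1, 0) + ∑ j, (w j + deriv φ (x i) * v i j) •
          ((0, Pi.single i (Pi.single j 1)) : (Fin n → ℝ) × (Fin n → Fin k → ℝ)) := by
      refine Prod.ext ?_ ?_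
      · simp [Prod.fst_sum]
      · funext l j
        simp only [Prod.snd_add, Prod.snd_sum, Prod.smul_snd, zero_add, Finset.sum_apply,
          Pi.smul_apply, smul_eq_mul]
        by_cases hil : l = i
        · subst hil
          simp only [Pi.single_eq_same, mul_one]
          rw [Finset.sum_eq_single j]
          · simp
          · intro b _ hb
            rw [Pi.single_eq_of_ne (Ne.symm hb)]
            simp
          · intro h
            exact absurd (Finset.mem_univ _) h
        · rw [Pi.single_eq_of_ne hil, mul_zero]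
          symm
          apply Finset.sum_eq_zero
          intro b _
          rw [Pi.single_eq_of_ne hil]
          simp
    rw [h2, map_add, map_sum]
    simp only [map_smul, smul_eq_mul]
    rfl

end Pool.Agent.T2h95.OD
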