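import Pool.Agent.T2h95.OD.Stm
import Pool.Agent.T2h95.OC.GEO2

/-!
# Ordered tuples of points of a body with homothetic sections form a convex body (task GE5)
-/

set_option autoImplicit false

namespace Pool.Agent.T2h95.OD

open MeasureTheory Set Filter Topology
open scoped ENNReal InnerProductSpace
open Pool.Agent.T2h95.OC

namespace GE5

variable {n k : ℕ}

theorem zero_mem {L : Set (EuclideanSpace ℝ (Fin k))} (h : CB L) :
    (0 : EuclideanSpace ℝ (Fin k)) ∈ L := by
  have hv : 0 < volume L :=
    lt_of_lt_of_le (isOpen_interior.measure_pos volume h.int) (measure_mono interior_subset)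
  have hfin : IsFiniteMeasure (volume.restrict L) :=
    ⟨by rw [Measure.restrict_apply_univ]; exact h.comp.measure_lt_top⟩
  have hne : NeZero (volume.restrict L) := ⟨by
    rw [Ne, Measure.restrict_eq_zero]; exact hv.ne'⟩
  have h1 := h.conv.average_mem (μ := volume.restrict L) (f := fun x => x) h.comp.isClosed
    (ae_restrict_mem h.comp.measurableSet) (continuous_id.continuousOn.integrableOn_compact h.comp)
  rw [average_eq, h.cen, smul_zero] at h1
  exact h1

theorem cx (i : Fin n) :
    Continuous fun y : EuclideanSpace ℝ (Fin n ⊕ Fin n × Fin k) => y (Sum.inl i) :=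
  (continuous_apply (Sum.inl i)).comp (PiLp.continuous_ofLp 2 _)

theorem cz (p : Fin n × Fin k) :
    Continuous fun y : EuclideanSpace ℝ (Fin n ⊕ Fin n × Fin k) => y (Sum.inr p) :=
  (continuous_apply (Sum.inr p)).comp (PiLp.continuous_ofLp 2 _)

end GE5

open GE5 in
theorem t_GE5 : S_GE5 := by
  intro n k α β H w φ L R hL hφ has htr
  have h0 := zero_mem hL
  refine ⟨?_, ?_, ?_⟩
  · -- compact
    let P : Set ((Fin n → ℝ) × (Fin n → EuclideanSpace ℝ (Fin k))) :=
      ((Set.pi univ fun _ => Icc α β) ×ˢ (Set.pi univ fun _ => L)) ∩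
        {p | ∀ i j, R i j → p.1 i ≤ p.1 j}
    have hP : IsCompact P := by
      refine IsCompact.inter_right ?_ ?_
      · exact (isCompact_univ_pi fun _ => isCompact_Icc).prod
          (isCompact_univ_pi fun _ => hL.comp)
      · have e : {p : (Fin n → ℝ) × (Fin n → EuclideanSpace ℝ (Fin k)) |
            ∀ i j, R i j → p.1 i ≤ p.1 j} = ⋂ i, ⋂ j, ⋂ (_ : R i j), {p | p.1 i ≤ p.1 j} := by
          ext p; simp
        rw [e]
        refine isClosed_iInter fun i => isClosed_iInter fun j => isClosed_iInter fun _ =>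
          isClosed_le ?_ ?_
        · exact (continuous_apply i).comp continuous_fst
        · exact (continuous_apply j).comp continuous_fst
    let G : (Fin n → ℝ) × (Fin n → EuclideanSpace ℝ (Fin k)) →
        EuclideanSpace ℝ (Fin n ⊕ Fin n × Fin k) := fun p =>
      WithLp.toLp 2 (Sum.elim p.1 fun q => p.1 q.1 * w q.2 + φ (p.1 q.1) * p.2 q.1 q.2)
    have hG : Continuous G := by
      refine (PiLp.continuous_toLp 2 _).comp (continuous_pi fun q => ?_)
      have hx : ∀ i : Fin n, Continuous fun p : (Fin n → ℝ) × (Fin n → EuclideanSpace ℝ (Fin k)) =>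
          p.1 i := fun i => (continuous_apply i).comp continuous_fst
      rcases q with i | ⟨i, j⟩
      · exact hx i
      · refine ((hx i).mul continuous_const).add ((hφ.cont.comp (hx i)).mul ?_)
        exact (continuous_apply j).comp ((PiLp.continuous_ofLp 2 _).comp
          ((continuous_apply i).comp continuous_snd))
    have hK : KE α β w φ L R = G '' P := by
      ext y
      constructor
      · rintro ⟨h1, h2⟩
        choose h3 v hv hvy using h1
        refine ⟨(fun i => y (Sum.inl i), v), ⟨⟨fun i _ => ⟨(h3 i).1, (h3 i).2⟩, fun i _ => hv i⟩,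
          fun i j hij => h2 i j hij⟩, ?_⟩
        ext q
        rcases q with i | ⟨i, j⟩
        · rfl
        · exact (hvy i j).symm
      · rintro ⟨p, ⟨⟨h1, h2⟩, h3⟩, rfl⟩
        refine ⟨fun i => ⟨⟨(h1 i (mem_univ i)).1, (h1 i (mem_univ i)).2⟩,
          p.2 i, h2 i (mem_univ i), fun j => rfl⟩, fun i j hij => h3 i j hij⟩
    rw [hK]
    exact hP.image hG
  · -- convex
    intro y hy z hz a b ha hb hab
    have e : ∀ p, (a • y + b • z) p = a * y p + b * z p := fun p => by simp
    refine ⟨fun i => ?_, fun i j hij => ?_⟩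
    · obtain ⟨hy1, v, hv, hvy⟩ := hy.1 i
      obtain ⟨hz1, v', hv', hvz⟩ := hz.1 i
      rw [e]
      refine ⟨⟨?_, ?_⟩, ?_⟩
      · calc α = a * α + b * α := by rw [← add_mul, hab, one_mul]
          _ ≤ _ := add_le_add (mul_le_mul_of_nonneg_left hy1.1 ha)
            (mul_le_mul_of_nonneg_left hz1.1 hb)
      · calc a * y (Sum.inl i) + b * z (Sum.inl i) ≤ a * β + b * β :=
            add_le_add (mul_le_mul_of_nonneg_left hy1.2 ha) (mul_le_mul_of_nonneg_left hz1.2 hb)
          _ = β := by rw [← add_mul, hab, one_mul]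
      · set x := y (Sum.inl i) with hx
        set x' := z (Sum.inl i) with hx'
        set x'' := a * x + b * x' with hx''
        have hs : a * φ x + b * φ x' ≤ φ x'' := by
          have := hφ.conc.2 (show x ∈ Icc α β from hy1) (show x' ∈ Icc α β from hz1) ha hb hab
          simpa [smul_eq_mul] using this
        have p1 : 0 ≤ a * φ x := mul_nonneg ha (hφ.nonneg x)
        have p2 : 0 ≤ b * φ x' := mul_nonneg hb (hφ.nonneg x')
        rcases eq_or_lt_of_le (hφ.nonneg x'') with h | h
        · refine ⟨0, h0, fun j => ?_⟩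
          have q1 : a * φ x = 0 := by linarith
          have q2 : b * φ x' = 0 := by linarith
          rw [e, hvy, hvz]
          have : a * (x * w j + φ x * v j) + b * (x' * w j + φ x' * v' j) =
              x'' * w j + (a * φ x) * v j + (b * φ x') * v' j := by rw [hx'']; ring
          rw [this, q1, q2]; simp
        · set t1 := a * φ x / φ x'' with ht1
          set t2 := b * φ x' / φ x'' with ht2
          have r1 : 0 ≤ t1 := div_nonneg p1 h.le
          have r2 : 0 ≤ t2 := div_nonneg p2 h.le
          have r3 : t1 + t2 ≤ 1 := by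
            rw [ht1, ht2, ← add_div, div_le_one h]; exact hs
          have hmem : t1 • v + t2 • v' ∈ L := by
            rcases eq_or_lt_of_le (add_nonneg r1 r2) with h4 | h4
            · have q1 : t1 = 0 := by linarith
              have q2 : t2 = 0 := by linarith
              rw [q1, q2]; simpa using h0
            · have h5 : (t1 / (t1 + t2)) • v + (t2 / (t1 + t2)) • v' ∈ L :=
                hL.conv hv hv' (div_nonneg r1 h4.le) (div_nonneg r2 h4.le)
                  (by rw [← add_div, div_self h4.ne'])
              have h6 : (t1 + t2) • ((t1 / (t1 + t2)) • v + (t2 / (t1 + t2)) • v') +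
                  (1 - (t1 + t2)) • (0 : EuclideanSpace ℝ (Fin k)) ∈ L :=
                hL.conv h5 h0 h4.le (by linarith) (by ring)
              have h7 : (t1 + t2) • ((t1 / (t1 + t2)) • v + (t2 / (t1 + t2)) • v') +
                  (1 - (t1 + t2)) • (0 : EuclideanSpace ℝ (Fin k)) = t1 • v + t2 • v' := by
                rw [smul_zero, add_zero, smul_add, smul_smul, smul_smul,
                  mul_div_cancel₀ _ h4.ne', mul_div_cancel₀ _ h4.ne']
              rw [← h7]; exact h6
          refine ⟨t1 • v + t2 • v', hmem, fun j => ?_⟩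
          rw [e, hvy, hvz]
          have h8 : (t1 • v + t2 • v') j = t1 * v j + t2 * v' j := by simp
          rw [h8, ht1, ht2, hx'']
          have hne : φ (a * x + b * x') ≠ 0 := h.ne'
          field_simp
          ring
    · have h1 := hy.2 i j hij
      have h2 := hz.2 i j hij
      rw [e, e]
      nlinarith [mul_le_mul_of_nonneg_left h1 ha, mul_le_mul_of_nonneg_left h2 hb]
  · -- interior
    obtain ⟨v0, hv0⟩ := hL.int
    obtain ⟨σ, hσ1, hσ2⟩ := Pool.Agent.T2h95.OC.GEO2.ext_fun R has htr
    let x0 : Fin n → ℝ := fun i => α + (β - α) * ((σ i + 1) / (n + 1))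
    have hx0 : ∀ i, x0 i ∈ Ioo α β := by
      intro i
      have hn : (0 : ℝ) < n + 1 := by positivity
      have h1 : ((σ i : ℝ) + 1) / (n + 1) < 1 := by
        rw [div_lt_one hn]
        have : (σ i : ℝ) < n := by exact_mod_cast hσ1 i
        linarith
      have h2 : 0 < ((σ i : ℝ) + 1) / (n + 1) := by positivity
      have h3 := sub_pos.2 hφ.lt
      constructor
      · have := mul_pos h3 h2
        simp only [x0]; linarith
      · have := mul_lt_mul_of_pos_left h1 h3
        simp only [x0]; linarith
    let g : Fin n → EuclideanSpace ℝ (Fin n ⊕ Fin n × Fin k) → EuclideanSpace ℝ (Fin k) :=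
      fun i y => (φ (y (Sum.inl i)))⁻¹ •
        WithLp.toLp 2 fun j => y (Sum.inr (i, j)) - y (Sum.inl i) * w j
    let Wo : Fin n → Set (EuclideanSpace ℝ (Fin n ⊕ Fin n × Fin k)) :=
      fun i => {y | y (Sum.inl i) ∈ Ioo α β}
    have hWo : ∀ i, IsOpen (Wo i) := fun i => isOpen_Ioo.preimage (cx i)
    have hgc : ∀ i, ContinuousOn (g i) (Wo i) := by
      intro i
      have hc1 : Continuous fun y : EuclideanSpace ℝ (Fin n ⊕ Fin n × Fin k) =>
          φ (y (Sum.inl i)) := hφ.cont.comp (cx i)
      have hc2 : Continuous fun y : EuclideanSpace ℝ (Fin n ⊕ Fin n × Fin k) =>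
          (WithLp.toLp 2 fun j => y (Sum.inr (i, j)) - y (Sum.inl i) * w j :
            EuclideanSpace ℝ (Fin k)) := by
        refine (PiLp.continuous_toLp 2 _).comp (continuous_pi fun j => ?_)
        exact Continuous.sub (cz (i, j)) (Continuous.mul (cx i) continuous_const)
      have hc3 : ContinuousOn (fun y : EuclideanSpace ℝ (Fin n ⊕ Fin n × Fin k) =>
          (φ (y (Sum.inl i)))⁻¹) (Wo i) := hc1.continuousOn.inv₀ fun y hy => (hφ.pos _ hy).ne'
      exact hc3.smul hc2.continuousOn
    let U : Set (EuclideanSpace ℝ (Fin n ⊕ Fin n × Fin k)) :=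
      (⋂ i, Wo i ∩ g i ⁻¹' interior L) ∩
        ⋂ i, ⋂ j, {y | R i j → i ≠ j → y (Sum.inl i) < y (Sum.inl j)}
    have hU : IsOpen U := by
      refine IsOpen.inter (isOpen_iInter_of_finite fun i =>
        (hgc i).isOpen_inter_preimage (hWo i) isOpen_interior) ?_
      refine isOpen_iInter_of_finite fun i => isOpen_iInter_of_finite fun j => ?_
      by_cases h : R i j ∧ i ≠ j
      · have : {y : EuclideanSpace ℝ (Fin n ⊕ Fin n × Fin k) |
            R i j → i ≠ j → y (Sum.inl i) < y (Sum.inl j)} =
            {y | y (Sum.inl i) < y (Sum.inl j)} := by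
          ext y; exact ⟨fun h' => h' h.1 h.2, fun h' _ _ => h'⟩
        rw [this]
        exact isOpen_lt (cx _) (cx _)
      · have : {y : EuclideanSpace ℝ (Fin n ⊕ Fin n × Fin k) |
            R i j → i ≠ j → y (Sum.inl i) < y (Sum.inl j)} = univ := by
          ext y; exact ⟨fun _ => trivial, fun _ h1 h2 => absurd ⟨h1, h2⟩ h⟩
        rw [this]; exact isOpen_univ
    have hsub : U ⊆ KE α β w φ L R := by
      rintro y ⟨h1, h2⟩
      rw [mem_iInter] at h1
      refine ⟨fun i => ?_, fun i j hij => ?_⟩
      · obtain ⟨h3, h4⟩ := h1 i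
        have h5 : y (Sum.inl i) ∈ Ioo α β := h3
        refine ⟨⟨h5.1.le, h5.2.le⟩, g i y, interior_subset h4, fun j => ?_⟩
        have hne : φ (y (Sum.inl i)) ≠ 0 := (hφ.pos _ h5).ne'
        have h6 : (g i y) j = (φ (y (Sum.inl i)))⁻¹ *
            (y (Sum.inr (i, j)) - y (Sum.inl i) * w j) := by simp [g]
        rw [h6]
        field_simp
        ring
      · by_cases h : i = j
        · rw [h]
        · rw [mem_iInter] at h2
          have h3 := h2 i
          rw [mem_iInter] at h3
          exact (h3 j hij h).le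
    refine ⟨WithLp.toLp 2 (Sum.elim x0 fun q => x0 q.1 * w q.2 + φ (x0 q.1) * v0 q.2),
      interior_maximal hsub hU ⟨?_, ?_⟩⟩
    · rw [mem_iInter]
      intro i
      refine ⟨hx0 i, ?_⟩
      have hne : φ (x0 i) ≠ 0 := (hφ.pos _ (hx0 i)).ne'
      have : g i (WithLp.toLp 2 (Sum.elim x0 fun q => x0 q.1 * w q.2 + φ (x0 q.1) * v0 q.2)) =
          v0 := by
        ext j
        simp only [g, PiLp.smul_apply, smul_eq_mul, Sum.elim_inl, Sum.elim_inr]
        field_simp
        ring
      rw [mem_preimage, this]
      exact hv0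
    · rw [mem_iInter]; intro i
      rw [mem_iInter]; intro j
      intro hij hne
      have hn : (0 : ℝ) < n + 1 := by positivity
      have h3 : ((σ i : ℝ) + 1) / (n + 1) < (σ j + 1) / (n + 1) := by
        refine div_lt_div_of_pos_right ?_ hn
        have : (σ i : ℝ) < σ j := by exact_mod_cast hσ2 i j hij hne
        linarith
      have h4 := mul_lt_mul_of_pos_left h3 (sub_pos.2 hφ.lt)
      show x0 i < x0 j
      simp only [x0]; linarith

end Pool.Agent.T2h95.OD
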