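import Pool.Agent.T2h95.OD.Stm
import Pool.Agent.T2h95.OC.GRD

/-! # GR5: the gradient -/

set_option autoImplicit false

namespace Pool.Agent.T2h95.OD

open MeasureTheory Set Filter Topology
open Pool.Agent.T2h95.OC (norm_sq_dual)

/-- `pe` as a linear map -/
noncomputable def pel (n k : ℕ) :
    ((Fin n → ℝ) × (Fin n → Fin k → ℝ)) →ₗ[ℝ] EuclideanSpace ℝ (Fin n ⊕ Fin n × Fin k) where
  toFun := pe
  map_add' p q := by
    ext z
    rcases z with i | ⟨i, j⟩ <;> simp [pe]
  map_smul' c p := by
    ext z
    rcases z with i | ⟨i, j⟩ <;> simp [pe]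

theorem t_GR5 : S_GR5 := by
  intro n k f hf
  have e : (fun p : (Fin n → ℝ) × (Fin n → Fin k → ℝ) => f (pe p)) =
      f ∘ (LinearMap.toContinuousLinearMap (pel n k)) := rfl
  refine ⟨?_, fun p => ?_⟩
  · rw [e]
    exact hf.comp (ContinuousLinearMap.contDiff _)
  · have hd : HasFDerivAt (fun p : (Fin n → ℝ) × (Fin n → Fin k → ℝ) => f (pe p))
        ((fderiv ℝ f (pe p)).comp (LinearMap.toContinuousLinearMap (pel n k))) p := by
      rw [e]
      have h1 : HasFDerivAt f (fderiv ℝ f (pe p)) (LinearMap.toContinuousLinearMap (pel n k) p) :=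
        ((hf.differentiable one_ne_zero) (pe p)).hasFDerivAt
      exact h1.comp p (ContinuousLinearMap.hasFDerivAt _)
    have hX : ∀ i, eX (fun p : (Fin n → ℝ) × (Fin n → Fin k → ℝ) => f (pe p)) i p =
        fderiv ℝ f (pe p) (EuclideanSpace.single (Sum.inl i) 1) := by
      intro i
      unfold eX
      rw [hd.fderiv]
      show fderiv ℝ f (pe p) (pe (Pi.single i 1, 0)) = _
      congr 1
      ext z
      rcases z with a | ⟨a, b⟩
      · by_cases ha : a = i
        · subst ha
          simp [pe]
        · simp [pe, ha]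
      · simp [pe]
    have hZ : ∀ i j, eZ (fun p : (Fin n → ℝ) × (Fin n → Fin k → ℝ) => f (pe p)) i j p =
        fderiv ℝ f (pe p) (EuclideanSpace.single (Sum.inr (i, j)) 1) := by
      intro i j
      unfold eZ
      rw [hd.fderiv]
      show fderiv ℝ f (pe p) (pe (0, Pi.single i (Pi.single j 1))) = _
      congr 1
      ext z
      rcases z with a | ⟨a, b⟩
      · simp [pe]
      · by_cases ha : a = i
        · subst ha
          by_cases hb : b = j
          · subst hb
            simp [pe]
          · simp [pe, hb]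
        · simp [pe, ha]
    rw [norm_sq_dual, Fintype.sum_sum_type, Fintype.sum_prod_type, ← Finset.sum_add_distrib]
    refine Finset.sum_congr rfl fun i _ => ?_
    rw [hX]
    congr 1
    exact Finset.sum_congr rfl fun j _ => by rw [hZ]

end Pool.Agent.T2h95.OD
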