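import Pool.Agent.T2h95.OD.Stm
import Pool.Agent.T2h95.OC.INT

/-! # IN5: continuous functions are integrable -/

set_option autoImplicit false

namespace Pool.Agent.T2h95.OD

open MeasureTheory Set Filter Topology
open scoped ENNReal
open Pool.Agent.T2h95.OC

theorem law_compl5 (α β : ℝ) (k : ℕ) (φ : ℝ → ℝ) : law (r5 α β k φ) (Icc α β)ᶜ = 0 := by
  unfold law
  rw [withDensity_apply _ measurableSet_Icc.compl]
  rw [setLIntegral_congr_fun (g := fun _ => 0) measurableSet_Icc.compl]
  · simp
  · intro x hx
    simp only [r5]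
    rw [Set.indicator_of_notMem hx]
    simp

theorem t_IN5 (h1 : S_LD5) (h2 : S_LC) : S_IN5 := by
  intro α β H φ k hB n h hh
  haveI := (h2 _ (h1 α β H φ k hB).2).1
  exact INT.integrable_of_box n _ (law_compl5 α β k φ) h hh

end Pool.Agent.T2h95.OD
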