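import Pool.Agent.T2h95.OD.Stm

set_option autoImplicit false

namespace Pool.Agent.T2h95.OD

open MeasureTheory Set Filter Topology
open scoped ENNReal
open Pool.Agent.T2h95.OC

namespace LC5

theorem continuous_eX {n k : ℕ} {f : (Fin n → ℝ) × (Fin n → Fin k → ℝ) → ℝ} (hf : ContDiff ℝ 1 f)
    (i : Fin n) : Continuous (eX f i) :=
  (hf.continuous_fderiv (by norm_num)).clm_apply continuous_const

theorem continuous_eZ {n k : ℕ} {f : (Fin n → ℝ) × (Fin n → Fin k → ℝ) → ℝ} (hf : ContDiff ℝ 1 f)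
    (i : Fin n) (j : Fin k) : Continuous (eZ f i j) :=
  (hf.continuous_fderiv (by norm_num)).clm_apply continuous_const

theorem continuous_G5 {n k : ℕ} (V W lam H : ℝ) {f : (Fin n → ℝ) × (Fin n → Fin k → ℝ) → ℝ}
    (hf : ContDiff ℝ 1 f) : Continuous (G5 V W lam H f) := by
  unfold G5
  exact continuous_finset_sum _ fun i _ =>
    (continuous_const.mul ((continuous_eX hf i).pow 2)).add
      (continuous_const.mul (continuous_finset_sum _ fun j _ => (continuous_eZ hf i j).pow 2))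

end LC5

theorem t_LC5 (hQ : S_QFE) (_hW : S_WP5) (hD : S_LD5) (hLC : S_LC) (hL : S_LV5) (hI : S_IN5) (hF : S_FC5)
    (hE : S_EXH) : S_LC5 := by
  intro α β H φ k w L lam hk hB hLB hPL hlam n R f hf
  obtain ⟨hA, hlcd⟩ := hD α β H φ k hB
  obtain ⟨h1, h2, -, h3⟩ := hLC _ hlcd
  set ν : Measure ℝ := law (r5 α β k φ) with hν
  have he : ∀ m : ℕ, 0 < 1 / ((m : ℝ) + 3) ∧ 1 / ((m : ℝ) + 3) < 1 / 2 := by
    intro m
    have hm : (0 : ℝ) ≤ m := Nat.cast_nonneg m
    refine ⟨by positivity, ?_⟩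
    rw [div_lt_div_iff₀ (by positivity) (by norm_num)]
    linarith
  have hq : ∀ m : ℕ, ∃ q : ℝ → ℝ, QF ν (1 / ((m : ℝ) + 3)) q := fun m =>
    hQ ν _ h3 _ (he m).1 (he m).2
  choose q hq using hq
  have hfc : Continuous (f5 w φ L f) := hF n k w φ L f hLB hB.cont hf.continuous
  have hgc : Continuous (f5 w φ L (G5 (V5 α β k φ) (∑ j, w j ^ 2) lam H f)) :=
    hF n k w φ L _ hLB hB.cont (LC5.continuous_G5 _ _ _ _ hf)
  have hlim : ∀ h : (Fin n → ℝ) → ℝ, Continuous h →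
      Tendsto (fun m => ∫ x in CR R ∩ Bx n (q m 0) (q m 1), h x ∂pw n ν) atTop
        (𝓝 (∫ x in CR R, h x ∂pw n ν)) := fun h hh =>
    hE ν q hq n R h (hI α β H φ k hB n h hh).integrableOn
  have h0 := hlim (fun _ => 1) continuous_const
  have hone : ∀ S : Set (Fin n → ℝ), ∫ x in S, (1 : ℝ) ∂pw n ν = (pw n ν S).toReal := by
    intro S
    simp [Measure.real]
  simp only [hone] at h0
  have hA := hlim (fun x => f5 w φ L f x ^ 2) (hfc.pow 2)
  have hB' := hlim (fun x => f5 w φ L f x) hfc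
  have hC := hlim (fun x => f5 w φ L (G5 (V5 α β k φ) (∑ j, w j ^ 2) lam H f) x) hgc
  exact le_of_tendsto_of_tendsto' ((h0.mul hA).sub (hB'.pow 2)) (h0.mul hC) fun m =>
    hL α β H φ k w L lam hk hB hLB hPL hlam _ (q m) (he m).1 (he m).2 (hq m) n R f hf

end Pool.Agent.T2h95.OD
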