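import Pool.Agent.T2h95.OD.Stm

/-! The density is log-concave. -/

set_option autoImplicit false

namespace Pool.Agent.T2h95.OD

open MeasureTheory Set Filter Topology
open Pool.Agent.T2h95.OC

theorem t_LD5 : S_LD5 := by
  intro α β H φ k h
  have hc : Continuous fun x => φ x ^ k := h.cont.pow k
  have hA : 0 < A5 α β k φ := by
    unfold A5
    rw [integral_Icc_eq_integral_Ioc, ← intervalIntegral.integral_of_le h.lt.le]
    exact intervalIntegral.intervalIntegral_pos_of_pos_on (hc.intervalIntegrable _ _)
      (fun x hx => pow_pos (h.pos x hx) k) h.lt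
  have hn : ∀ x, 0 ≤ r5 α β k φ x := by
    intro x
    unfold r5
    refine Set.indicator_nonneg (fun x _ => ?_) x
    exact div_nonneg (pow_nonneg (h.nonneg x) k) hA.le
  have hi : Integrable (r5 α β k φ) := by
    unfold r5
    rw [integrable_indicator_iff measurableSet_Icc]
    exact (hc.div_const _).continuousOn.integrableOn_compact isCompact_Icc
  refine ⟨hA, hn, (hc.measurable.div_const _).indicator measurableSet_Icc, ?_, ?_⟩
  · intro x y t ht0 ht1
    by_cases hx : x ∈ Icc α β
    · by_cases hy : y ∈ Icc α β
      · have hz : (1 - t) * x + t * y ∈ Icc α β :=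
          (convex_Icc α β) hx hy (by linarith) ht0.le (by ring)
        unfold r5
        rw [indicator_of_mem hx, indicator_of_mem hy, indicator_of_mem hz]
        have hconc := h.conc.2 hx hy (by linarith : (0 : ℝ) ≤ 1 - t) ht0.le (by ring)
        simp only [smul_eq_mul] at hconc
        have gm := Real.geom_mean_le_arith_mean2_weighted (by linarith : (0 : ℝ) ≤ 1 - t) ht0.le
          (h.nonneg x) (h.nonneg y) (by ring)
        have h0 : 0 ≤ φ x ^ (1 - t) * φ y ^ t :=
          mul_nonneg (Real.rpow_nonneg (h.nonneg x) _) (Real.rpow_nonneg (h.nonneg y) _)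
        have hk : (φ x ^ (1 - t) * φ y ^ t) ^ k ≤ φ ((1 - t) * x + t * y) ^ k :=
          pow_le_pow_left₀ h0 (gm.trans hconc) k
        rw [Real.div_rpow (pow_nonneg (h.nonneg x) k) hA.le,
          Real.div_rpow (pow_nonneg (h.nonneg y) k) hA.le, div_mul_div_comm,
          ← Real.rpow_add hA, sub_add_cancel, Real.rpow_one]
        refine div_le_div_of_nonneg_right ?_ hA.le
        refine le_trans (le_of_eq ?_) hk
        rw [mul_pow, Real.rpow_pow_comm (h.nonneg x), Real.rpow_pow_comm (h.nonneg y)]
      · have : r5 α β k φ y = 0 := indicator_of_notMem hy _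
        rw [this, Real.zero_rpow ht0.ne', mul_zero]
        exact hn _
    · have : r5 α β k φ x = 0 := indicator_of_notMem hx _
      rw [this, Real.zero_rpow (by linarith), zero_mul]
      exact hn _
  · rw [← ofReal_integral_eq_lintegral_ofReal hi (ae_of_all _ hn)]
    have : ∫ x, r5 α β k φ x = 1 := by
      unfold r5
      rw [integral_indicator measurableSet_Icc, integral_div]
      exact div_self hA.ne'
    rw [this, ENNReal.ofReal_one]

end Pool.Agent.T2h95.OD
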