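import Pool.Agent.T2h95.OD.Stm

set_option autoImplicit false

namespace Pool.Agent.T2h95.OD

open MeasureTheory Set Filter Topology
open scoped ENNReal InnerProductSpace
open Pool.Agent.R972.OP (pd)
open Pool.Agent.T2h95.OC

namespace LV5

variable {n k : ℕ}

theorem isCompact_Bx (n : ℕ) (a b : ℝ) : IsCompact (Bx n a b) := by
  have h : Bx n a b = Icc (fun _ => a) (fun _ => b) := by
    ext x
    simp only [Bx, mem_ofPred_eq, mem_Icc, Pi.le_def]
    exact forall_and
  rw [h]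
  exact isCompact_Icc

theorem isCompact_Ln {L : Set (Fin k → ℝ)} (hL : IsCompact L) : IsCompact (Ln n L) := by
  have h : Ln n L = Set.pi Set.univ (fun _ => L) := by
    ext v
    simp [Ln]
  rw [h]
  exact isCompact_univ_pi fun _ => hL

theorem isClosed_CR {n : ℕ} (R : Fin n → Fin n → Prop) : IsClosed (CR R) := by
  have h : CR R = ⋂ (i : Fin n) (j : Fin n) (_ : R i j), {x : Fin n → ℝ | x i ≤ x j} := by
    ext x
    simp [CR]
  rw [h]
  exact isClosed_iInter fun i => isClosed_iInter fun j => isClosed_iInter fun _ =>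
    isClosed_le (continuous_apply i) (continuous_apply j)

/-- mean over `L^n` -/
noncomputable def mn (L : Set (Fin k → ℝ)) (h : (Fin n → Fin k → ℝ) → ℝ) : ℝ :=
  (∫ v in Ln n L, h v) / (volume (Ln n L)).toReal

theorem mn_bound {L : Set (Fin k → ℝ)} (hL : IsCompact L) {h : (Fin n → Fin k → ℝ) → ℝ} {M : ℝ}
    (hM0 : 0 ≤ M) (hM : ∀ v ∈ Ln n L, |h v| ≤ M) : |mn L h| ≤ M := by
  unfold mn
  have h1 := norm_setIntegral_le_of_norm_le_const (μ := volume) (s := Ln n L) (f := h) (C := M)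
    (isCompact_Ln hL).measure_lt_top hM
  rw [abs_div, abs_of_nonneg ENNReal.toReal_nonneg]
  exact div_le_of_le_mul₀ ENNReal.toReal_nonneg hM0 h1

theorem mn_lim {L : Set (Fin k → ℝ)} (hL : IsCompact L) {h : ℕ → (Fin n → Fin k → ℝ) → ℝ}
    {h0 : (Fin n → Fin k → ℝ) → ℝ} {M : ℝ} (hc : ∀ m, Continuous (h m))
    (hM : ∀ m, ∀ v ∈ Ln n L, |h m v| ≤ M) (hl : ∀ v, Tendsto (fun m => h m v) atTop (𝓝 (h0 v))) :
    Tendsto (fun m => mn L (h m)) atTop (𝓝 (mn L h0)) := by
  unfold mn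
  refine Tendsto.div_const ?_ _
  refine tendsto_integral_of_dominated_convergence (fun _ => M) ?_ ?_ ?_ ?_
  · exact fun m => (hc m).aestronglyMeasurable
  · exact integrableOn_const (isCompact_Ln hL).measure_lt_top.ne
  · intro m
    filter_upwards [ae_restrict_mem (isCompact_Ln hL).measurableSet] with v hv
    exact hM m v hv
  · exact Eventually.of_forall hl

theorem mn_mono {L : Set (Fin k → ℝ)} (hL : IsCompact L) {h h' : (Fin n → Fin k → ℝ) → ℝ}
    (hc : Continuous h) (hc' : Continuous h') (hle : ∀ v ∈ Ln n L, h v ≤ h' v) :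
    mn L h ≤ mn L h' := by
  unfold mn
  refine div_le_div_of_nonneg_right ?_ ENNReal.toReal_nonneg
  exact setIntegral_mono_on (hc.continuousOn.integrableOn_compact (isCompact_Ln hL))
    (hc'.continuousOn.integrableOn_compact (isCompact_Ln hL)) (isCompact_Ln hL).measurableSet hle

theorem mn_nonneg {L : Set (Fin k → ℝ)} {h : (Fin n → Fin k → ℝ) → ℝ} (hh : ∀ v, 0 ≤ h v) :
    0 ≤ mn L h := by
  unfold mn
  exact div_nonneg (integral_nonneg hh) ENNReal.toReal_nonneg

/-- Jensen -/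
theorem mn_sq {L : Set (Fin k → ℝ)} (hL : IsCompact L) {h : (Fin n → Fin k → ℝ) → ℝ}
    (hc : Continuous h) : mn L h ^ 2 ≤ mn L fun v => h v ^ 2 := by
  unfold mn
  set Z := (volume (Ln n L)).toReal with hZ
  have hZ0 : 0 ≤ Z := ENNReal.toReal_nonneg
  rcases hZ0.eq_or_lt with h0 | h0
  · rw [← h0]; simp
  have hi : IntegrableOn h (Ln n L) := hc.continuousOn.integrableOn_compact (isCompact_Ln hL)
  have hi2 : IntegrableOn (fun v => h v ^ 2) (Ln n L) :=
    (hc.pow 2).continuousOn.integrableOn_compact (isCompact_Ln hL)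
  set I := ∫ v in Ln n L, h v with hI
  have h1 : 0 ≤ ∫ v in Ln n L, (h v - I / Z) ^ 2 := integral_nonneg fun v => sq_nonneg _
  have h2 : ∫ v in Ln n L, (h v - I / Z) ^ 2 =
      (∫ v in Ln n L, h v ^ 2) - 2 * (I / Z) * I + (I / Z) ^ 2 * Z := by
    have e : ∀ v, (h v - I / Z) ^ 2 = h v ^ 2 - 2 * (I / Z) * h v + (I / Z) ^ 2 := fun v => by ring
    simp_rw [e]
    have hcst : IntegrableOn (fun _ : Fin n → Fin k → ℝ => (I / Z) ^ 2) (Ln n L) :=
      integrableOn_const (isCompact_Ln hL).measure_lt_top.ne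
    have hi3 : IntegrableOn (fun v => 2 * (I / Z) * h v) (Ln n L) := hi.const_mul _
    have hi4 : IntegrableOn (fun v => h v ^ 2 - 2 * (I / Z) * h v) (Ln n L) := hi2.sub hi3
    rw [integral_add hi4 hcst, integral_sub hi2 hi3,
      integral_const_mul, setIntegral_const, smul_eq_mul, Measure.real, mul_comm Z]
  rw [h2] at h1
  have h3 : (I / Z) ^ 2 * Z = I / Z * I := by field_simp
  have h4 : I / Z * I ≤ ∫ v in Ln n L, h v ^ 2 := by linarith
  rw [le_div_iff₀ h0]
  linarith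

/-- the point of the fibre -/
def yy (w : Fin k → ℝ) (x t : Fin n → ℝ) (v : Fin n → Fin k → ℝ) : Fin n → Fin k → ℝ :=
  fun i j => x i * w j + t i * v i j

/-- the space of the parameters -/
abbrev Sp (n k : ℕ) : Type := (Fin n → ℝ) × (Fin n → ℝ) × (Fin n → ℝ) × (Fin n → Fin k → ℝ)

theorem cont_yy (w : Fin k → ℝ) : Continuous (fun z : Sp n k => yy w z.1 z.2.1 z.2.2.2) := by
  unfold yy
  fun_prop

theorem exists_bound {Φ : Sp n k → ℝ} (hΦ : Continuous Φ) {L : Set (Fin k → ℝ)} (hL : IsCompact L)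
    (c d H B : ℝ) : ∃ M : ℝ, 0 ≤ M ∧ ∀ x ∈ Bx n c d, ∀ t ∈ Bx n 0 H, ∀ δ ∈ Bx n (-B) B,
      ∀ v ∈ Ln n L, |Φ (x, t, δ, v)| ≤ M := by
  obtain ⟨M, hM⟩ := ((isCompact_Bx n c d).prod ((isCompact_Bx n 0 H).prod
    ((isCompact_Bx n (-B) B).prod (isCompact_Ln hL)))).exists_bound_of_continuousOn hΦ.continuousOn
  exact ⟨max M 0, le_max_right _ _, fun x hx t ht δ hδ v hv =>
    (hM (x, t, δ, v) ⟨hx, ht, hδ, hv⟩).trans (le_max_left _ _)⟩

theorem mn_cont {Φ : Sp n k → ℝ} (hΦ : Continuous Φ) {L : Set (Fin k → ℝ)} (hL : IsCompact L)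
    {t δ : (Fin n → ℝ) → Fin n → ℝ} (ht : Continuous t) (hδ : Continuous δ) :
    Continuous fun x => mn L fun v => Φ (x, t x, δ x, v) := by
  unfold mn
  refine Continuous.div_const ?_ _
  refine continuous_parametric_integral_of_continuous ?_ (isCompact_Ln hL)
  exact hΦ.comp (continuous_fst.prodMk ((ht.comp continuous_fst).prodMk
    ((hδ.comp continuous_fst).prodMk continuous_snd)))

theorem int_lim {Φ : Sp n k → ℝ} (hΦ : Continuous Φ) {L : Set (Fin k → ℝ)} (hL : IsCompact L)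
    {c d H B : ℝ} {t δ : ℕ → (Fin n → ℝ) → Fin n → ℝ} {t0 δ0 : (Fin n → ℝ) → Fin n → ℝ}
    (ht : ∀ m, Continuous (t m)) (hδ : ∀ m, Continuous (δ m)) (μ : Measure (Fin n → ℝ))
    [IsFiniteMeasure μ] (X : Set (Fin n → ℝ)) (hX : X ⊆ Bx n c d) (hXm : MeasurableSet X)
    (htb : ∀ m, ∀ x ∈ X, t m x ∈ Bx n 0 H) (hδb : ∀ m, ∀ x ∈ X, δ m x ∈ Bx n (-B) B)
    (htl : ∀ x ∈ X, Tendsto (fun m => t m x) atTop (𝓝 (t0 x)))
    (hδl : ∀ x ∈ X, Tendsto (fun m => δ m x) atTop (𝓝 (δ0 x)))
    (ψ : ℝ → ℝ) (hψ : Continuous ψ) :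
    Tendsto (fun m => ∫ x in X, ψ (mn L fun v => Φ (x, t m x, δ m x, v)) ∂μ) atTop
      (𝓝 (∫ x in X, ψ (mn L fun v => Φ (x, t0 x, δ0 x, v)) ∂μ)) := by
  obtain ⟨M, hM0, hM⟩ := exists_bound hΦ hL c d H B
  obtain ⟨C, hC⟩ := (isCompact_Icc (a := -M) (b := M)).exists_bound_of_continuousOn
    hψ.continuousOn
  refine tendsto_integral_of_dominated_convergence (fun _ => C) ?_ ?_ ?_ ?_
  · intro m
    exact (hψ.comp (mn_cont hΦ hL (ht m) (hδ m))).aestronglyMeasurable
  · exact integrable_const _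
  · intro m
    filter_upwards [ae_restrict_mem hXm] with x hx
    refine hC _ (abs_le.1 (mn_bound hL hM0 fun v hv => ?_))
    exact hM x (hX hx) _ (htb m x hx) _ (hδb m x hx) v hv
  · filter_upwards [ae_restrict_mem hXm] with x hx
    refine (hψ.tendsto _).comp (mn_lim hL (M := M) (fun m => ?_) (fun m v hv => ?_) fun v => ?_)
    · exact hΦ.comp (continuous_const.prodMk (continuous_const.prodMk
        (continuous_const.prodMk continuous_id)))
    · exact hM x (hX hx) _ (htb m x hx) _ (hδb m x hx) v hv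
    · refine (hΦ.tendsto _).comp ?_
      exact tendsto_const_nhds.prodMk_nhds ((htl x hx).prodMk_nhds
        ((hδl x hx).prodMk_nhds tendsto_const_nhds))

theorem cont_eX {f : (Fin n → ℝ) × (Fin n → Fin k → ℝ) → ℝ} (hf : ContDiff ℝ 1 f) (i : Fin n) :
    Continuous (eX f i) :=
  (hf.continuous_fderiv (by norm_num)).clm_apply continuous_const

theorem cont_eZ {f : (Fin n → ℝ) × (Fin n → Fin k → ℝ) → ℝ} (hf : ContDiff ℝ 1 f) (i : Fin n)
    (j : Fin k) : Continuous (eZ f i j) :=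
  (hf.continuous_fderiv (by norm_num)).clm_apply continuous_const

/-- one derivative -/
noncomputable def pe1 (w : Fin k → ℝ) (f : (Fin n → ℝ) × (Fin n → Fin k → ℝ) → ℝ) (i : Fin n)
    (z : Sp n k) : ℝ := eV w f i (z.2.2.1 i) (z.2.2.2 i) (z.1, yy w z.1 z.2.1 z.2.2.2)

theorem cont_pe1 (w : Fin k → ℝ) {f : (Fin n → ℝ) × (Fin n → Fin k → ℝ) → ℝ}
    (hf : ContDiff ℝ 1 f) (i : Fin n) : Continuous (pe1 w f i) := by
  unfold pe1 eV
  have hp : Continuous (fun z : Sp n k => (z.1, yy w z.1 z.2.1 z.2.2.2)) :=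
    continuous_fst.prodMk (cont_yy w)
  refine ((cont_eX hf i).comp hp).add (continuous_finsetSum _ fun j _ => ?_)
  refine Continuous.mul ?_ ((cont_eZ hf i j).comp hp)
  fun_prop

/-- the energy -/
noncomputable def PE (θ : ℝ → ℝ) (w : Fin k → ℝ) (f : (Fin n → ℝ) × (Fin n → Fin k → ℝ) → ℝ)
    (z : Sp n k) : ℝ := ∑ i, 4 * θ (z.1 i) ^ 2 * pe1 w f i z ^ 2

theorem cont_PE {θ : ℝ → ℝ} (hθ : Continuous θ) (w : Fin k → ℝ)
    {f : (Fin n → ℝ) × (Fin n → Fin k → ℝ) → ℝ} (hf : ContDiff ℝ 1 f) :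
    Continuous (PE θ w f) := by
  unfold PE
  refine continuous_finsetSum _ fun i _ => ?_
  have := cont_pe1 w hf i
  fun_prop

theorem law_compl (α β : ℝ) (k : ℕ) (φ : ℝ → ℝ) : law (r5 α β k φ) (Icc α β)ᶜ = 0 := by
  unfold law
  rw [withDensity_apply _ measurableSet_Icc.compl]
  rw [setLIntegral_congr_fun (g := fun _ => 0) measurableSet_Icc.compl]
  · simp
  · intro x hx
    simp only [r5]
    rw [Set.indicator_of_notMem hx]
    simp

theorem continuous_G5 (V W lam H : ℝ) {f : (Fin n → ℝ) × (Fin n → Fin k → ℝ) → ℝ}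
    (hf : ContDiff ℝ 1 f) : Continuous (G5 V W lam H f) := by
  unfold G5
  refine continuous_finsetSum _ fun i _ => ?_
  have h1 := cont_eX hf i
  refine (continuous_const.mul (h1.pow 2)).add (continuous_const.mul ?_)
  exact continuous_finsetSum _ fun j _ => (cont_eZ hf i j).pow 2

end LV5

open LV5 in
theorem t_LV5 (hE : S_EPS) (hW : S_WP5) (hS : S_SM5) (hG : S_GD5) (hB : S_BD5) (hC : S_CR5)
    (hD : S_LD5) (hL : S_LC) : S_LV5 := by
  intro α β H φ k w L lam hk hP hLB hPL hlam ε q hε hε2 hq n R f hf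
  obtain ⟨h1, h2, -, -⟩ := hL _ (hD α β H φ k hP).2
  set ν : Measure ℝ := law (r5 α β k φ) with hν
  have hcompl : ν (Icc α β)ᶜ = 0 := law_compl α β k φ
  have hαc : α < q 0 := by
    by_contra hc
    push Not at hc
    have h4 := hq.lvl 0 ⟨le_rfl, zero_le_one⟩
    rw [mul_zero, add_zero] at h4
    have h5 : Iic (q 0) ⊆ (Icc α β)ᶜ ∪ {α} := by
      intro x hx
      by_cases hxa : x = α
      · exact Or.inr hxa
      · refine Or.inl fun h => hxa (le_antisymm (le_trans hx hc) h.1)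
    have h6 : ν (Iic (q 0)) = 0 := by
      refine measure_mono_null h5 ?_
      rw [measure_union_null_iff]
      exact ⟨hcompl, measure_singleton α⟩
    rw [h6] at h4
    have := ENNReal.ofReal_pos.2 hε
    rw [← h4] at this
    exact lt_irrefl _ this
  have hdβ : q 1 < β := by
    by_contra hc
    push Not at hc
    have h4 := hq.lvl 1 ⟨zero_le_one, le_rfl⟩
    have h5 : (Iic (q 1))ᶜ ⊆ (Icc α β)ᶜ := by
      refine compl_subset_compl.2 fun x hx => le_trans hx.2 hc
    have h6 : ν (Iic (q 1))ᶜ = 0 := measure_mono_null h5 hcompl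
    have h7 : ν (Iic (q 1)) = 1 := by
      rw [← prob_compl_eq_zero_iff measurableSet_Iic]
      exact h6
    rw [h7] at h4
    have h8 : ENNReal.ofReal (ε + (1 - 2 * ε) * 1) < ENNReal.ofReal 1 :=
      (ENNReal.ofReal_lt_ofReal_iff one_pos).2 (by linarith)
    rw [← h4, ENNReal.ofReal_one] at h8
    exact lt_irrefl _ h8
  have hcd : q 0 < q 1 := hq.mono ⟨le_rfl, zero_le_one⟩ ⟨zero_le_one, le_rfl⟩ zero_lt_one
  obtain ⟨θ, hθc, hθ0, hθW, hθV, hθD⟩ := hW α β H φ k hP (q 0) (q 1) hαc hcd.le hdβ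
  obtain ⟨s, D, B, hs1, hs2, hs3, hs4, hDm, hDB, hDx⟩ := hS α β H φ hP (q 0) (q 1) hαc hcd.le hdβ
  set X : Set (Fin n → ℝ) := CR R ∩ Bx n (q 0) (q 1) with hX
  have hXm : MeasurableSet X :=
    (isClosed_CR R).measurableSet.inter (isCompact_Bx n _ _).measurableSet
  have hXs : X ⊆ Bx n (q 0) (q 1) := inter_subset_right
  have hLc := hLB.comp
  set t : ℕ → (Fin n → ℝ) → Fin n → ℝ := fun m x i => s m (x i) with htdef
  set δ : ℕ → (Fin n → ℝ) → Fin n → ℝ := fun m x i => deriv (s m) (x i) with hδdef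
  have htc : ∀ m, Continuous (t m) := fun m =>
    continuous_pi fun i => (hs1 m).continuous.comp (continuous_apply i)
  have hδc : ∀ m, Continuous (δ m) := fun m =>
    continuous_pi fun i => ((hs1 m).continuous_deriv le_rfl).comp (continuous_apply i)
  have htb : ∀ m, ∀ x ∈ X, t m x ∈ Bx n 0 H := fun m x _ i => hs2 m (x i)
  have hδb : ∀ m, ∀ x ∈ X, δ m x ∈ Bx n (-B) B := fun m x hx i =>
    abs_le.1 (hs3 m (x i) (hXs hx i))
  have htl : ∀ x ∈ X, Tendsto (fun m => t m x) atTop (𝓝 (fun i => φ (x i))) := fun x _ => by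
    rw [tendsto_pi_nhds]
    exact fun i => hs4 (x i)
  have hδl : ∀ x ∈ X, Tendsto (fun m => δ m x) atTop (𝓝 (fun i => D (x i))) := fun x hx => by
    rw [tendsto_pi_nhds]
    exact fun i => (hDx (x i) (hXs hx i)).1
  have hlim : ∀ Φ : Sp n k → ℝ, Continuous Φ → ∀ ψ : ℝ → ℝ, Continuous ψ →
      Tendsto (fun m => ∫ x in X, ψ (mn L fun v => Φ (x, t m x, δ m x, v)) ∂pw n ν) atTop
      (𝓝 (∫ x in X, ψ (mn L fun v => Φ (x, fun i => φ (x i), fun i => D (x i), v)) ∂pw n ν)) :=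
    fun Φ hΦ ψ hψ => int_lim (t0 := fun x i => φ (x i)) (δ0 := fun x i => D (x i)) hΦ hLc htc hδc
      (pw n ν) X hXs hXm htb hδb htl hδl ψ hψ
  have hint : ∀ G : (Fin n → ℝ) → ℝ, Continuous G → IntegrableOn G X (pw n ν) := fun G hG =>
    (hG.continuousOn.integrableOn_compact (isCompact_Bx n (q 0) (q 1))).mono_set hXs
  have hτc : Continuous (fun x => 4 * θ x ^ 2) := by fun_prop
  -- the two functions
  set Φf : Sp n k → ℝ := fun z => f (z.1, yy w z.1 z.2.1 z.2.2.2) with hΦf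
  have hΦfc : Continuous Φf := hf.continuous.comp (continuous_fst.prodMk (cont_yy w))
  have hPEc := cont_PE hθc w hf
  have hf5 : ∀ (χ : ℝ → ℝ) (x δ' : Fin n → ℝ), f5 w χ L f x =
      mn L fun v => Φf (x, fun i => χ (x i), δ', v) := fun χ x δ' => rfl
  have hstep : ∀ m, (pw n ν X).toReal *
        (∫ x in X, (mn L fun v => Φf (x, t m x, δ m x, v)) ^ 2 ∂pw n ν) -
      (∫ x in X, (mn L fun v => Φf (x, t m x, δ m x, v)) ∂pw n ν) ^ 2 ≤
      (pw n ν X).toReal * ∫ x in X, (mn L fun v => PE θ w f (x, t m x, δ m x, v)) ∂pw n ν := by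
    intro m
    obtain ⟨hg, hgd⟩ := hG n k w (s m) L f hLB (hs1 m) hf
    refine (hE ν (fun x => 4 * θ x ^ 2) hτc (fun x => by positivity) hθW ε q hε hε2 hq n R
      (f5 w (s m) L f) hg).trans ?_
    refine mul_le_mul_of_nonneg_left ?_ ENNReal.toReal_nonneg
    refine setIntegral_mono_on ?_ ?_ hXm ?_
    · refine hint _ (continuous_finsetSum _ fun i _ => ?_)
      refine (hτc.comp (continuous_apply i)).mul (Continuous.pow ?_ 2)
      exact (hg.continuous_fderiv (by norm_num)).clm_apply continuous_const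
    · exact hint _ (mn_cont hPEc hLc (htc m) (hδc m))
    · intro x _
      have hcv : ∀ i, Continuous fun v => pe1 w f i (x, t m x, δ m x, v) := fun i =>
        (cont_pe1 w hf i).comp (continuous_const.prodMk (continuous_const.prodMk
          (continuous_const.prodMk continuous_id)))
      have e1 : ∀ i, pd (f5 w (s m) L f) i x = mn L fun v => pe1 w f i (x, t m x, δ m x, v) :=
        fun i => hgd i x
      have e2 : (mn L fun v => PE θ w f (x, t m x, δ m x, v)) =
          ∑ i, 4 * θ (x i) ^ 2 * mn L fun v => pe1 w f i (x, t m x, δ m x, v) ^ 2 := by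
        have hii : ∀ i ∈ (Finset.univ : Finset (Fin n)), IntegrableOn
            (fun v => 4 * θ (x i) ^ 2 * pe1 w f i (x, t m x, δ m x, v) ^ 2) (Ln n L) := fun i _ =>
          (continuous_const.mul ((hcv i).pow 2)).continuousOn.integrableOn_compact
            (isCompact_Ln hLc)
        unfold mn PE
        show (∫ v in Ln n L, ∑ i, 4 * θ (x i) ^ 2 * pe1 w f i (x, t m x, δ m x, v) ^ 2) /
          (volume (Ln n L)).toReal = _
        rw [integral_finsetSum _ hii, Finset.sum_div]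
        refine Finset.sum_congr rfl fun i _ => ?_
        rw [integral_const_mul, mul_div_assoc]
      rw [e2]
      refine Finset.sum_le_sum fun i _ => ?_
      rw [e1]
      exact mul_le_mul_of_nonneg_left (mn_sq hLc (hcv i)) (by positivity)
  have l1 := hlim Φf hΦfc (fun y => y ^ 2) (continuous_pow 2)
  have l2 := hlim Φf hΦfc (fun y => y) continuous_id
  have l3 := hlim _ hPEc (fun y => y) continuous_id
  have hmain := le_of_tendsto_of_tendsto' ((l1.const_mul _).sub (l2.pow 2)) (l3.const_mul _) hstep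
  refine hmain.trans (mul_le_mul_of_nonneg_left ?_ ENNReal.toReal_nonneg)
  have hGc := continuous_G5 (V5 α β k φ) (∑ j, w j ^ 2) lam H hf
  refine integral_mono_of_nonneg ?_ ?_ ?_
  · refine Eventually.of_forall fun x => mn_nonneg fun v => ?_
    unfold PE
    positivity
  · have h7 : Continuous (f5 w φ L (G5 (V5 α β k φ) (∑ j, w j ^ 2) lam H f)) :=
      mn_cont (Φ := fun z => G5 (V5 α β k φ) (∑ j, w j ^ 2) lam H f
        (z.1, yy w z.1 z.2.1 z.2.2.2)) (hGc.comp (continuous_fst.prodMk (cont_yy w))) hLc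
        (t := fun x i => φ (x i)) (δ := fun x => x)
        (continuous_pi fun i => hP.cont.comp (continuous_apply i)) continuous_id
    exact hint _ h7
  · filter_upwards [ae_restrict_mem hXm] with x hx
    refine mn_mono hLc ?_ ?_ ?_
    · exact hPEc.comp (continuous_const.prodMk (continuous_const.prodMk
          (continuous_const.prodMk continuous_id)))
    · refine hGc.comp (continuous_const.prodMk ?_)
      unfold s5
      fun_prop
    · intro v hv
      unfold PE G5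
      refine Finset.sum_le_sum fun i _ => ?_
      have hxi := hXs hx i
      have hφ0 := hP.nonneg (x i)
      have hk0 : (0 : ℝ) < k + 1 := by positivity
      exact hB k (eX f i (x, yy w x (fun i => φ (x i)) v)) (V5 α β k φ) H lam (θ (x i)) (D (x i))
        w (v i) (fun j => eZ f i j (x, yy w x (fun i => φ (x i)) v)) (hθ0 _) (hθV _)
        ((hθD (x i) hxi (D (x i)) (hDx (x i) hxi).2).trans
          (div_le_div_of_nonneg_right (hP.le _) hk0.le)) hP.hpos.le (hC k L lam hk hLB hPL hlam _ (hv i))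

end Pool.Agent.T2h95.OD
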