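import Pool.Agent.T2h95.OD.Stm

/-!
# Project OD, task MO5 (helper51): the second moment of `φ`
-/

set_option autoImplicit false

namespace Pool.Agent.T2h95.OD

open MeasureTheory Set Filter Topology
open scoped ENNReal InnerProductSpace
open Pool.Agent.R972.OP (pd)
open Pool.Agent.T2h95.OC

namespace MO5

theorem law_int {ρ : ℝ → ℝ} (h0 : ∀ x, 0 ≤ ρ x) (hm : Measurable ρ) (g : ℝ → ℝ) :
    ∫ x, g x ∂law ρ = ∫ x, ρ x * g x := by
  unfold law
  rw [integral_withDensity_eq_integral_toReal_smul hm.ennreal_ofReal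
    (ae_of_all _ fun x => ENNReal.ofReal_lt_top)]
  refine integral_congr_ae (ae_of_all _ fun x => ?_)
  show (ENNReal.ofReal (ρ x)).toReal • g x = ρ x * g x
  rw [ENNReal.toReal_ofReal (h0 x), smul_eq_mul]

theorem binom {a b : ℝ} (ha : 0 ≤ a) (hb : 0 ≤ b) (n : ℕ) :
    b ^ (n + 1) + (n + 1) * a * b ^ n ≤ (a + b) ^ (n + 1) := by
  induction n with
  | zero => simp; linarith
  | succ n ih =>
    have h1 : (a + b) * (b ^ (n + 1) + (n + 1) * a * b ^ n) ≤ (a + b) * (a + b) ^ (n + 1) :=
      mul_le_mul_of_nonneg_left ih (by positivity)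
    have h2 : 0 ≤ (n + 1) * a ^ 2 * b ^ n := by positivity
    push_cast
    calc b ^ (n + 1 + 1) + (n + 1 + 1) * a * b ^ (n + 1)
        ≤ b ^ (n + 1 + 1) + (n + 1 + 1) * a * b ^ (n + 1) + (n + 1) * a ^ 2 * b ^ n := by linarith
      _ = (a + b) * (b ^ (n + 1) + (n + 1) * a * b ^ n) := by ring
      _ ≤ (a + b) * (a + b) ^ (n + 1) := h1
      _ = (a + b) ^ (n + 1 + 1) := by ring

/-- the mean of `φ` -/
theorem mean {α β H : ℝ} {φ : ℝ → ℝ} (hP : HB α β H φ) (k : ℕ) :
    H / 2 * ∫ x in α..β, φ x ^ k ≤ ∫ x in α..β, φ x ^ (k + 1) := by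
  have hc := hP.cont
  have hab := hP.lt
  have hH := hP.hpos
  obtain ⟨x₀, hx₀, hφx₀⟩ := hP.att
  have hI : ∀ j : ℕ, IntervalIntegrable (fun x => φ x ^ j) volume α β := fun j =>
    (hc.pow j).intervalIntegrable _ _
  have hM0 : ∀ j : ℕ, 0 ≤ ∫ x in α..β, φ x ^ j := fun j =>
    intervalIntegral.integral_nonneg hab.le fun x _ => pow_nonneg (hP.nonneg x) j
  set M : ℝ := ∫ x in α..β, φ x ^ k with hM
  set N : ℝ := ∫ x in α..β, φ x ^ (k + 1) with hN
  have key : ∀ t : ℝ, 0 < t → t < 1 → (k + 1) * t ^ (k + 1) * H * M ≤ (k + 2) * N := by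
    intro t ht0 ht1
    have e1 : ∫ y in α..β, φ (t * y + (1 - t) * x₀) ^ (k + 1) =
        t⁻¹ • ∫ x in (t * α + (1 - t) * x₀)..(t * β + (1 - t) * x₀), φ x ^ (k + 1) :=
      intervalIntegral.integral_comp_mul_add (fun x => φ x ^ (k + 1)) ht0.ne' _
    have e2 : ∫ x in (t * α + (1 - t) * x₀)..(t * β + (1 - t) * x₀), φ x ^ (k + 1) ≤ N := by
      refine intervalIntegral.integral_mono_interval ?_ ?_ ?_
        (ae_of_all _ fun x => pow_nonneg (hP.nonneg x) _) (hI (k + 1))
      · nlinarith [hx₀.1]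
      · nlinarith
      · nlinarith [hx₀.2]
    have e3 : ∫ y in α..β, (t ^ (k + 1) * φ y ^ (k + 1) +
        ((k + 1) * ((1 - t) * H) * t ^ k) * φ y ^ k) ≤
        ∫ y in α..β, φ (t * y + (1 - t) * x₀) ^ (k + 1) := by
      refine intervalIntegral.integral_mono_on hab.le ?_ ?_ fun y hy => ?_
      · exact ((continuous_const.mul (hc.pow _)).add
          (continuous_const.mul (hc.pow _))).intervalIntegrable _ _
      · exact ((hc.comp ((continuous_const.mul continuous_id).add continuous_const)).pow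
          _).intervalIntegrable _ _
      · have h1 := hP.conc.2 hy hx₀ ht0.le (by linarith : 0 ≤ 1 - t) (by ring)
        simp only [smul_eq_mul] at h1
        rw [hφx₀] at h1
        have h2 := binom (by nlinarith : 0 ≤ (1 - t) * H)
          (mul_nonneg ht0.le (hP.nonneg y)) k
        have h3 : 0 ≤ (1 - t) * H + t * φ y := by
          have := hP.nonneg y
          have : 0 ≤ (1 - t) * H := by nlinarith
          nlinarith
        calc t ^ (k + 1) * φ y ^ (k + 1) + ((k + 1) * ((1 - t) * H) * t ^ k) * φ y ^ k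
            = (t * φ y) ^ (k + 1) + (k + 1) * ((1 - t) * H) * (t * φ y) ^ k := by
              rw [mul_pow, mul_pow]; ring
          _ ≤ ((1 - t) * H + t * φ y) ^ (k + 1) := h2
          _ ≤ φ (t * y + (1 - t) * x₀) ^ (k + 1) := by
              refine pow_le_pow_left₀ h3 ?_ _
              linarith
    rw [intervalIntegral.integral_add ((hI _).const_mul _) ((hI _).const_mul _),
      intervalIntegral.integral_const_mul, intervalIntegral.integral_const_mul, ← hM, ← hN, e1,
      smul_eq_mul] at e3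
    have e4 : t * (t ^ (k + 1) * N + (k + 1) * ((1 - t) * H) * t ^ k * M) ≤ N := by
      have h1 := mul_le_mul_of_nonneg_left e3 ht0.le
      rw [← mul_assoc t t⁻¹, mul_inv_cancel₀ ht0.ne', one_mul] at h1
      exact h1.trans e2
    have e5 : 1 + ((k : ℝ) + 2) * (t - 1) ≤ t ^ (k + 2) := by
      have h1 := one_add_mul_le_pow (a := t - 1) (by linarith) (k + 2)
      push_cast at h1
      have h2 : 1 + (t - 1) = t := by ring
      rw [h2] at h1
      exact h1
    have hN0 : 0 ≤ N := hM0 (k + 1)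
    have e6 : (1 - t) * ((k + 1) * t ^ (k + 1) * H * M) ≤ (1 - t) * ((k + 2) * N) := by
      have h1 : t * (t ^ (k + 1) * N + (k + 1) * ((1 - t) * H) * t ^ k * M) =
        t ^ (k + 2) * N + (1 - t) * ((k + 1) * t ^ (k + 1) * H * M) := by ring
      rw [h1] at e4
      nlinarith [mul_le_mul_of_nonneg_right e5 hN0]
    exact le_of_mul_le_mul_left e6 (by linarith)
  have hlim : (k + 1) * H * M ≤ (k + 2) * N := by
    have h1 : Tendsto (fun t : ℝ => (k + 1) * t ^ (k + 1) * H * M) (𝓝[<] 1)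
        (𝓝 ((k + 1) * 1 ^ (k + 1) * H * M)) := by
      have : Continuous fun t : ℝ => (k + 1) * t ^ (k + 1) * H * M := by fun_prop
      exact (this.tendsto 1).mono_left nhdsWithin_le_nhds
    rw [one_pow, mul_one] at h1
    refine le_of_tendsto h1 ?_
    filter_upwards [Ioo_mem_nhdsLT (show (0 : ℝ) < 1 by norm_num)] with t ht
    exact key t ht.1 ht.2
  have hHM : 0 ≤ H * M := mul_nonneg hH.le (hM0 k)
  have hk : (0 : ℝ) ≤ k := Nat.cast_nonneg k
  have h2 : ((k : ℝ) + 2) * (H / 2 * M) ≤ (k + 2) * N := by nlinarith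
  exact le_of_mul_le_mul_left h2 (by linarith)

end MO5

open MO5 in
theorem t_MO5 : S_MO5 := by
  intro α β H φ k hP
  have hc := hP.cont
  have hab := hP.lt
  have hH := hP.hpos
  have hI : ∀ j : ℕ, IntervalIntegrable (fun x => φ x ^ j) volume α β := fun j =>
    (hc.pow j).intervalIntegrable _ _
  have hA : A5 α β k φ = ∫ x in α..β, φ x ^ k := by
    unfold A5
    rw [integral_Icc_eq_integral_Ioc, intervalIntegral.integral_of_le hab.le]
  have hA0 : 0 < A5 α β k φ := by
    rw [hA]
    exact intervalIntegral.intervalIntegral_pos_of_pos_on (hI k)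
      (fun x hx => pow_pos (hP.pos x hx) k) hab
  have hr0 : ∀ x, 0 ≤ r5 α β k φ x := fun x => by
    unfold r5
    exact indicator_nonneg (fun x _ => div_nonneg (pow_nonneg (hP.nonneg x) k) hA0.le) x
  have hrm : Measurable (r5 α β k φ) := by
    unfold r5
    exact ((hc.pow k).div_const _).measurable.indicator measurableSet_Icc
  rw [law_int hr0 hrm]
  have e1 : ∫ x, r5 α β k φ x * φ x ^ 2 = (∫ x in α..β, φ x ^ (k + 2)) / A5 α β k φ := by
    rw [intervalIntegral.integral_of_le hab.le, ← integral_Icc_eq_integral_Ioc, ← integral_div,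
      ← integral_indicator measurableSet_Icc]
    refine integral_congr_ae (ae_of_all _ fun x => ?_)
    show r5 α β k φ x * φ x ^ 2 = _
    unfold r5
    by_cases hx : x ∈ Icc α β
    · rw [indicator_of_mem hx, indicator_of_mem hx]
      ring
    · rw [indicator_of_notMem hx, indicator_of_notMem hx, zero_mul]
  rw [e1, le_div_iff₀ hA0, hA]
  have h1 := mean hP k
  have h2 : H * (∫ x in α..β, φ x ^ (k + 1)) - H ^ 2 / 4 * (∫ x in α..β, φ x ^ k) ≤
      ∫ x in α..β, φ x ^ (k + 2) := by
    rw [← intervalIntegral.integral_const_mul, ← intervalIntegral.integral_const_mul,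
      ← intervalIntegral.integral_sub ((hI _).const_mul _) ((hI _).const_mul _)]
    refine intervalIntegral.integral_mono_on hab.le
      (((hI _).const_mul _).sub ((hI _).const_mul _)) (hI _) fun x _ => ?_
    have h3 : 0 ≤ φ x ^ k * (φ x - H / 2) ^ 2 :=
      mul_nonneg (pow_nonneg (hP.nonneg x) k) (sq_nonneg _)
    have h4 : φ x ^ (k + 2) - (H * φ x ^ (k + 1) - H ^ 2 / 4 * φ x ^ k) =
      φ x ^ k * (φ x - H / 2) ^ 2 := by ring
    linarith
  nlinarith

end Pool.Agent.T2h95.OD
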