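import Pool.Agent.T2h95.OD.Stm
import Pool.Agent.T2h95.OC.MIL

/-! The Mills ratio is monotone. -/

set_option autoImplicit false

namespace Pool.Agent.T2h95.OD

open MeasureTheory Set Filter Topology
open Pool.Agent.T2h95.OC

theorem t_MR5 : S_MR5 := by
  intro ρ h x y hxy
  have hint := h.integrable'
  constructor
  · rw [← shift_Ioi ρ y x, ← integral_const_mul, ← integral_const_mul]
    refine setIntegral_mono_on (hint.integrableOn.const_mul _)
      ((hint.comp_sub_right (y - x)).integrableOn.const_mul _) measurableSet_Ioi ?_
    intro z hz
    rw [Set.mem_Ioi] at hz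
    exact h.four hxy hz.le (by ring)
  · rw [← shift_Iio ρ x y, ← integral_const_mul, ← integral_const_mul]
    refine setIntegral_mono_on (hint.integrableOn.const_mul _)
      ((hint.comp_sub_right (x - y)).integrableOn.const_mul _) measurableSet_Iio ?_
    intro z hz
    rw [Set.mem_Iio] at hz
    rw [mul_comm (ρ y)]
    exact h.four hz.le hxy (by ring)

end Pool.Agent.T2h95.OD
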