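import Pool.Agent.T2h95.OD.Stm

set_option autoImplicit false

namespace Pool.Agent.T2h95.OD

open MeasureTheory Set Filter Topology
open scoped ENNReal InnerProductSpace

theorem t_PH5 : S_PH5 := by
  intro α β φ hlt hc hconc h0 hpos
  obtain ⟨x₀, hx₀, hφ₀⟩ := hpos
  obtain ⟨m, hm, hmax⟩ := isCompact_Icc.exists_isMaxOn (nonempty_Icc.mpr hlt.le) hc
  have hcl : ∀ x : ℝ, max α (min β x) ∈ Icc α β := fun x =>
    ⟨le_max_left _ _, max_le hlt.le (min_le_left _ _)⟩
  have hid : ∀ x ∈ Icc α β, max α (min β x) = x := fun x hx => by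
    rw [min_eq_right hx.2, max_eq_right hx.1]
  refine ⟨φ m, fun x => φ (max α (min β x)), ?_, fun x hx => ?_⟩
  · refine ⟨hlt, lt_of_lt_of_le hφ₀ (hmax hx₀), ?_, ?_, fun x => h0 _ (hcl x),
      fun x => hmax (hcl x), ⟨m, hm, ?_⟩, ?_⟩
    · exact hc.comp_continuous (by fun_prop) hcl
    · refine hconc.congr fun x hx => ?_
      show φ x = φ (max α (min β x))
      rw [hid x hx]
    · show φ (max α (min β m)) = φ m
      rw [hid m hm]
    · intro x hx
      have hx' : x ∈ Icc α β := ⟨hx.1.le, hx.2.le⟩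
      show 0 < φ (max α (min β x))
      rw [hid x hx']
      rcases lt_trichotomy x x₀ with h | h | h
      · have hp : 0 < x₀ - α := by linarith [hx.1]
        have ht0 : 0 < (x - α) / (x₀ - α) := div_pos (by linarith [hx.1]) hp
        have ht1 : (x - α) / (x₀ - α) ≤ 1 := by rw [div_le_one hp]; linarith
        have := hconc.2 (show α ∈ Icc α β from ⟨le_refl _, hlt.le⟩) hx₀ (sub_nonneg.mpr ht1)
          ht0.le (by ring)
        rw [smul_eq_mul, smul_eq_mul, smul_eq_mul, smul_eq_mul] at this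
        have ex : (1 - (x - α) / (x₀ - α)) * α + (x - α) / (x₀ - α) * x₀ = x := by
          field_simp
          ring
        rw [ex] at this
        have h1 : 0 ≤ (1 - (x - α) / (x₀ - α)) * φ α :=
          mul_nonneg (sub_nonneg.mpr ht1) (h0 α ⟨le_refl _, hlt.le⟩)
        have h2 : 0 < (x - α) / (x₀ - α) * φ x₀ := mul_pos ht0 hφ₀
        linarith
      · rw [h]; exact hφ₀
      · have hp : 0 < β - x₀ := by linarith [hx.2]
        have ht0 : 0 < (β - x) / (β - x₀) := div_pos (by linarith [hx.2]) hp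
        have ht1 : (β - x) / (β - x₀) ≤ 1 := by rw [div_le_one hp]; linarith
        have := hconc.2 (show β ∈ Icc α β from ⟨hlt.le, le_refl _⟩) hx₀ (sub_nonneg.mpr ht1)
          ht0.le (by ring)
        rw [smul_eq_mul, smul_eq_mul, smul_eq_mul, smul_eq_mul] at this
        have ex : (1 - (β - x) / (β - x₀)) * β + (β - x) / (β - x₀) * x₀ = x := by
          field_simp
          ring
        rw [ex] at this
        have h1 : 0 ≤ (1 - (β - x) / (β - x₀)) * φ β :=
          mul_nonneg (sub_nonneg.mpr ht1) (h0 β ⟨hlt.le, le_refl _⟩)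
        have h2 : 0 < (β - x) / (β - x₀) * φ x₀ := mul_pos ht0 hφ₀
        linarith
  · show φ (max α (min β x)) = φ x
    rw [hid x hx]

end Pool.Agent.T2h95.OD
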