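import Pool.Agent.T2h95.OD.Stm

set_option autoImplicit false

namespace Pool.Agent.T2h95.OD

open MeasureTheory Set Filter Topology
open scoped ENNReal
open Pool.Agent.T2h95.OC

namespace PO5

theorem continuous_eX {n k : ℕ} {f : (Fin n → ℝ) × (Fin n → Fin k → ℝ) → ℝ} (hf : ContDiff ℝ 1 f)
    (i : Fin n) : Continuous (eX f i) :=
  (hf.continuous_fderiv (by norm_num)).clm_apply continuous_const

theorem continuous_eZ {n k : ℕ} {f : (Fin n → ℝ) × (Fin n → Fin k → ℝ) → ℝ} (hf : ContDiff ℝ 1 f)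
    (i : Fin n) (j : Fin k) : Continuous (eZ f i j) :=
  (hf.continuous_fderiv (by norm_num)).clm_apply continuous_const

theorem Ln_eq {k : ℕ} (n : ℕ) (L : Set (Fin k → ℝ)) : Ln n L = Set.univ.pi fun _ => L := by
  ext v
  simp [Ln]

theorem compact_Ln {k : ℕ} (n : ℕ) {L : Set (Fin k → ℝ)} (hL : LB L) : IsCompact (Ln n L) := by
  rw [Ln_eq]
  exact isCompact_univ_pi fun _ => hL.comp

theorem vol_Ln {k : ℕ} (n : ℕ) (L : Set (Fin k → ℝ)) : volume (Ln n L) = volume L ^ n := by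
  rw [Ln_eq, volume_pi_pi]
  simp

theorem vol_Ln_pos {k : ℕ} (n : ℕ) {L : Set (Fin k → ℝ)} (hL : LB L) : 0 < (volume (Ln n L)).toReal := by
  rw [vol_Ln, ENNReal.toReal_pow]
  exact pow_pos (ENNReal.toReal_pos hL.pos.ne' hL.comp.measure_lt_top.ne) n

theorem continuous_s5 {n k : ℕ} (w : Fin k → ℝ) (φ : ℝ → ℝ) (x : Fin n → ℝ) :
    Continuous (s5 w φ x) := by
  unfold s5
  fun_prop

theorem integrableOn_fibre {n k : ℕ} (w : Fin k → ℝ) (φ : ℝ → ℝ) {L : Set (Fin k → ℝ)} (hL : LB L)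
    {F : (Fin n → ℝ) × (Fin n → Fin k → ℝ) → ℝ} (hF : Continuous F) (x : Fin n → ℝ) :
    IntegrableOn (fun v => F (x, s5 w φ x v)) (Ln n L) volume := by
  refine Continuous.continuousOn ?_ |>.integrableOn_compact (compact_Ln n hL)
  exact hF.comp (continuous_const.prodMk (continuous_s5 w φ x))

theorem f5_add {n k : ℕ} (w : Fin k → ℝ) (φ : ℝ → ℝ) {L : Set (Fin k → ℝ)} (hL : LB L)
    {F G : (Fin n → ℝ) × (Fin n → Fin k → ℝ) → ℝ} (hF : Continuous F) (hG : Continuous G)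
    (x : Fin n → ℝ) :
    f5 w φ L (fun p => F p + G p) x = f5 w φ L F x + f5 w φ L G x := by
  unfold f5
  rw [← add_div]
  congr 1
  exact integral_add (integrableOn_fibre w φ hL hF x) (integrableOn_fibre w φ hL hG x)

theorem f5_one {n k : ℕ} (w : Fin k → ℝ) (φ : ℝ → ℝ) {L : Set (Fin k → ℝ)} (hL : LB L)
    (x : Fin n → ℝ) : f5 w φ L (fun _ => 1) x = 1 := by
  unfold f5
  have h := vol_Ln_pos n hL
  have h2 : ∫ v in Ln n L, (1 : ℝ) = (volume (Ln n L)).toReal := by simp [Measure.real]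
  rw [h2]
  exact div_self h.ne'

end PO5

theorem t_PO5 (hL : S_LC5) (hC : S_CU5) (hFu : S_FU5) (hI : S_IN5) (hF : S_FC5) (hD : S_LD5) :
    S_PO5 := by
  intro α β H φ k w L lam hk hB hLB hPL hlam n R f hf
  obtain ⟨hA, hlcd⟩ := hD α β H φ k hB
  have hlvc := hL α β H φ k w L lam hk hB hLB hPL hlam n R f hf
  set ν : Measure ℝ := law (r5 α β k φ) with hν
  set A : ℝ := A5 α β k φ * (volume L).toReal with hAdef
  have hfc := hf.continuous
  set V := V5 α β k φ with hV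
  set W := ∑ j, w j ^ 2 with hW
  set E2 : (Fin n → ℝ) × (Fin n → Fin k → ℝ) → ℝ := fun p => ∑ i, ∑ j, lam * H ^ 2 * eZ f i j p ^ 2 with hE2
  have hE2c : Continuous E2 :=
    continuous_finset_sum _ fun i _ => continuous_finset_sum _ fun j _ =>
      continuous_const.mul ((PO5.continuous_eZ hf i j).pow 2)
  have hGac : Continuous (G5 V W lam H f) := by
    unfold G5
    exact continuous_finset_sum _ fun i _ =>
      (continuous_const.mul ((PO5.continuous_eX hf i).pow 2)).add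
        (continuous_const.mul (continuous_finset_sum _ fun j _ => (PO5.continuous_eZ hf i j).pow 2))
  have hone : ∀ S : Set (Fin n → ℝ), ∫ x in S, (1 : ℝ) ∂pw n ν = (pw n ν S).toReal := by
    intro S
    simp [Measure.real]
  set ww : ℝ := (pw n ν (CR R)).toReal with hw
  have hwn : 0 ≤ ww := ENNReal.toReal_nonneg
  have hvol : (volume (K5 (D5 α β w φ L) R)).toReal = A ^ n * ww := by
    have h4 := hFu α β H φ k w L hk hB hLB n R (fun _ => 1) continuous_const
    have h5 : ∫ x in CR R, f5 w φ L (fun _ => (1 : ℝ)) x ∂pw n ν = ww := by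
      rw [hw, ← hone]
      congr 1
      ext x
      exact PO5.f5_one w φ hLB x
    rw [h5] at h4
    rw [← h4]
    simp [Measure.real]
  have hQ2 := hFu α β H φ k w L hk hB hLB n R (fun p => f p ^ 2) (hfc.pow 2)
  have hQ1 := hFu α β H φ k w L hk hB hLB n R f hfc
  have hEn : ∫ p in K5 (D5 α β w φ L) R,
      ∑ i, (144 * V * eX f i p ^ 2 + (144 * V * W + 37 * lam * H ^ 2) * ∑ j, eZ f i j p ^ 2) =
      A ^ n * (∫ x in CR R, f5 w φ L (G5 V W lam H f) x ∂pw n ν +
        ∫ x in CR R, f5 w φ L E2 x ∂pw n ν) := by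
    have h4 : (fun p => ∑ i, (144 * V * eX f i p ^ 2 +
        (144 * V * W + 37 * lam * H ^ 2) * ∑ j, eZ f i j p ^ 2)) =
        fun p => G5 V W lam H f p + E2 p := by
      funext p
      simp only [G5, hE2]
      rw [← Finset.sum_add_distrib]
      refine Finset.sum_congr rfl fun i _ => ?_
      rw [← Finset.mul_sum]
      ring
    rw [h4]
    rw [hFu α β H φ k w L hk hB hLB n R (fun p => G5 V W lam H f p + E2 p) (hGac.add hE2c)]
    congr 1
    rw [← integral_add
      (hI α β H φ k hB n _ (hF n k w φ L _ hLB hB.cont hGac)).integrableOn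
      (hI α β H φ k hB n _ (hF n k w φ L _ hLB hB.cont hE2c)).integrableOn]
    congr 1
    ext x
    exact PO5.f5_add w φ hLB hGac hE2c x
  have hcub : ∫ x in CR R, f5 w φ L (fun p => f p ^ 2) x ∂pw n ν ≤
      ∫ x in CR R, f5 w φ L f x ^ 2 ∂pw n ν + ∫ x in CR R, f5 w φ L E2 x ∂pw n ν := by
    have i1 : IntegrableOn (fun x => f5 w φ L f x ^ 2) (CR R) (pw n ν) :=
      (hI α β H φ k hB n _ ((hF n k w φ L _ hLB hB.cont hfc).pow 2)).integrableOn
    have i2 : IntegrableOn (fun x => f5 w φ L E2 x) (CR R) (pw n ν) :=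
      (hI α β H φ k hB n _ (hF n k w φ L _ hLB hB.cont hE2c)).integrableOn
    have i3 : IntegrableOn (fun x => f5 w φ L (fun p => f p ^ 2) x) (CR R) (pw n ν) :=
      (hI α β H φ k hB n _ (hF n k w φ L _ hLB hB.cont (hfc.pow 2))).integrableOn
    rw [← integral_add i1 i2]
    exact integral_mono i3 (i1.add i2) fun x => hC n k α β H φ w L lam hB hLB hPL hlam f hf x
  rw [hvol, hQ2, hQ1, hEn]
  have hAn : 0 ≤ A ^ n * A ^ n := by nlinarith [sq_nonneg (A ^ n)]
  have key : ww * (∫ x in CR R, f5 w φ L (fun p => f p ^ 2) x ∂pw n ν) -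
      (∫ x in CR R, f5 w φ L f x ∂pw n ν) ^ 2 ≤
      ww * (∫ x in CR R, f5 w φ L (G5 V W lam H f) x ∂pw n ν +
        ∫ x in CR R, f5 w φ L E2 x ∂pw n ν) := by
    have h6 := mul_le_mul_of_nonneg_left hcub hwn
    have h7 : ww * (∫ x in CR R, f5 w φ L f x ^ 2 ∂pw n ν) - (∫ x in CR R, f5 w φ L f x ∂pw n ν) ^ 2 ≤
      ww * ∫ x in CR R, f5 w φ L (G5 V W lam H f) x ∂pw n ν := hlvc
    nlinarith [h6, h7]
  have := mul_le_mul_of_nonneg_left key hAn
  nlinarith [this]

end Pool.Agent.T2h95.OD
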