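import Pool.Agent.T2h95.OD.Stm

/-!
# Project OD, task SM5 (helper51): smoothing
-/

set_option autoImplicit false

namespace Pool.Agent.T2h95.OD

open MeasureTheory Set Filter Topology
open scoped ENNReal InnerProductSpace
open Pool.Agent.R972.OP (pd)
open Pool.Agent.T2h95.OC

namespace SM5

/-- slopes of a concave function from the left end decrease -/
theorem slope_le {S : Set ℝ} {φ : ℝ → ℝ} (hc : ConcaveOn ℝ S φ) {x y z : ℝ} (hx : x ∈ S)
    (hz : z ∈ S) (hxy : x < y) (hyz : y ≤ z) :
    (φ z - φ x) / (z - x) ≤ (φ y - φ x) / (y - x) := by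
  rcases hyz.eq_or_lt with rfl | hyz
  · exact le_rfl
  have h := hc.slope_anti_adjacent hx hz hxy hyz
  have h1 : 0 < y - x := by linarith
  have h2 : 0 < z - y := by linarith
  rw [div_le_iff₀ (by linarith)]
  have h3 : φ z - φ y ≤ (φ y - φ x) / (y - x) * (z - y) := (div_le_iff₀ h2).1 h
  have h4 : (φ y - φ x) / (y - x) * (y - x) = φ y - φ x := div_mul_cancel₀ _ h1.ne'
  nlinarith

end SM5

open SM5 in
theorem t_SM5 : S_SM5 := by
  intro α β H a hP c d hαc hcd hdβ
  have ha := hP.cont
  have hc := hP.conc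
  have hH := hP.hpos
  have hαβ := hP.lt
  have hb : ∀ x, 0 ≤ a x ∧ a x ≤ H := fun x => ⟨hP.nonneg x, hP.le x⟩
  have hd0 : 0 < β - d := by linarith
  obtain ⟨A, hAd⟩ : ∃ A : ℝ → ℝ, A = fun x => ∫ t in (0 : ℝ)..x, a t := ⟨_, rfl⟩
  have hA : ∀ x, HasDerivAt A (a x) x := by
    intro x
    rw [hAd]
    exact (ha.integral_hasStrictDerivAt 0 x).hasDerivAt
  have hAi : ∀ x y, ∫ t in x..y, a t = A y - A x := by
    intro x y
    rw [hAd]
    exact (intervalIntegral.integral_interval_sub_left (ha.intervalIntegrable _ _)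
      (ha.intervalIntegrable _ _)).symm
  obtain ⟨δ, hδ⟩ : ∃ δ : ℕ → ℝ, δ = fun m : ℕ => (β - d) / (2 * ((m : ℝ) + 1)) := ⟨_, rfl⟩
  have hδ0 : ∀ m, 0 < δ m := by
    intro m
    rw [hδ]
    positivity
  have hδ1 : ∀ m, δ m ≤ (β - d) / 2 := by
    intro m
    rw [hδ]
    have : (0 : ℝ) ≤ m := Nat.cast_nonneg m
    apply div_le_div_of_nonneg_left hd0.le (by norm_num)
    linarith
  have hδa : Antitone δ := by
    intro m m' h
    rw [hδ]
    have h1 : (m : ℝ) ≤ m' := by exact_mod_cast h
    have : (0 : ℝ) ≤ m := Nat.cast_nonneg m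
    apply div_le_div_of_nonneg_left hd0.le (by positivity)
    linarith
  have hδt0 : Tendsto δ atTop (𝓝 0) := by
    have h3 : Tendsto (fun m : ℕ => ((β - d) / 2) * (1 / ((m : ℝ) + 1))) atTop
        (𝓝 (((β - d) / 2) * 0)) := tendsto_one_div_add_atTop_nhds_zero_nat.const_mul _
    rw [mul_zero] at h3
    refine h3.congr fun m => ?_
    rw [hδ]
    have : (0 : ℝ) < (m : ℝ) + 1 := by positivity
    field_simp
  have hs : ∀ m x, HasDerivAt (fun x => (A (x + δ m) - A x) / δ m)
      ((a (x + δ m) - a x) / δ m) x := by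
    intro m x
    have h1 : HasDerivAt (fun x => A (x + δ m)) (a (x + δ m)) x := (hA (x + δ m)).comp_add_const x _
    exact (h1.sub (hA x)).div_const _
  obtain ⟨g, hg⟩ : ∃ g : ℕ → ℝ → ℝ, g = fun m x => (a (x + δ m) - a x) / δ m := ⟨_, rfl⟩
  have hgc : ∀ m, Continuous (g m) := by
    intro m
    rw [hg]
    exact ((ha.comp (continuous_id.add continuous_const)).sub ha).div_const _
  obtain ⟨B, hB⟩ : ∃ B : ℝ, B = 2 * H / min (c - α) (β - d) := ⟨_, rfl⟩
  have hmin : 0 < min (c - α) (β - d) := lt_min (by linarith) hd0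
  have hB0 : 0 ≤ B := by
    rw [hB]
    positivity
  have hαm : α ∈ Icc α β := ⟨le_rfl, hαβ.le⟩
  have hβm : β ∈ Icc α β := ⟨hαβ.le, le_rfl⟩
  -- bound
  have hgB : ∀ m, ∀ x ∈ Icc c d, |g m x| ≤ B := by
    intro m x hx
    have hxα : 0 < x - α := by linarith [hx.1]
    have e1 : x + δ m < β := by linarith [hδ0 m, hδ1 m, hx.2]
    have e2 : (β - d) / 2 ≤ β - (x + δ m) := by linarith [hδ1 m, hx.2]
    have hxm : x ∈ Icc α β := ⟨by linarith, by linarith [hx.2]⟩
    have hxδm : x + δ m ∈ Icc α β := ⟨by linarith [hδ0 m], e1.le⟩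
    have s1 := hc.slope_anti_adjacent hxm hβm (by linarith [hδ0 m] : x < x + δ m) e1
    have s2 := hc.slope_anti_adjacent hαm hxδm (by linarith : α < x)
      (by linarith [hδ0 m] : x < x + δ m)
    rw [add_sub_cancel_left] at s1 s2
    have t1 : -(H / (β - (x + δ m))) ≤ (a β - a (x + δ m)) / (β - (x + δ m)) := by
      rw [← neg_div]
      apply div_le_div_of_nonneg_right _ (by linarith)
      linarith [(hb β).1, (hb (x + δ m)).2]
    have t2 : H / (β - (x + δ m)) ≤ H / ((β - d) / 2) :=
      div_le_div_of_nonneg_left hH.le (by linarith) e2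
    have t3 : H / ((β - d) / 2) = 2 * H / (β - d) := by
      field_simp
    have t4 : 2 * H / (β - d) ≤ B := by
      rw [hB]
      exact div_le_div_of_nonneg_left (by linarith) hmin (min_le_right _ _)
    have t5 : (a x - a α) / (x - α) ≤ H / (x - α) := by
      apply div_le_div_of_nonneg_right _ hxα.le
      linarith [(hb x).2, (hb α).1]
    have t6 : H / (x - α) ≤ B := by
      rw [hB]
      exact div_le_div₀ (by linarith) (by linarith) hmin
        ((min_le_left _ _).trans (by linarith [hx.1]))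
    rw [hg, abs_le]
    constructor
    · show -B ≤ (a (x + δ m) - a x) / δ m
      linarith
    · show (a (x + δ m) - a x) / δ m ≤ B
      linarith
  -- monotone
  have hgm : ∀ x ∈ Icc c d, Monotone fun m => g m x := by
    intro x hx m m' h
    have e1 : x + δ m < β := by linarith [hδ0 m, hδ1 m, hx.2]
    have hxm : x ∈ Icc α β := ⟨by linarith [hx.1], by linarith [hx.2]⟩
    have hxδm : x + δ m ∈ Icc α β := ⟨by linarith [hδ0 m, hx.1], e1.le⟩
    have h1 := slope_le hc hxm hxδm (by linarith [hδ0 m'] : x < x + δ m')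
      (by linarith [hδa h] : x + δ m' ≤ x + δ m)
    rw [add_sub_cancel_left, add_sub_cancel_left] at h1
    rw [hg]
    exact h1
  have hbdd : ∀ x ∈ Icc c d, BddAbove (range fun m => g m x) := by
    intro x hx
    refine ⟨B, ?_⟩
    rintro _ ⟨m, rfl⟩
    exact (abs_le.1 (hgB m x hx)).2
  obtain ⟨D, hD⟩ : ∃ D : ℝ → ℝ, D = (Icc c d).indicator fun x => ⨆ m, g m x := ⟨_, rfl⟩
  have hDx : ∀ x ∈ Icc c d, D x = ⨆ m, g m x := fun x hx => by
    rw [hD, indicator_of_mem hx]
  have hDt : ∀ x ∈ Icc c d, Tendsto (fun m => g m x) atTop (𝓝 (D x)) := fun x hx => by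
    rw [hDx x hx]
    exact tendsto_atTop_ciSup (hgm x hx) (hbdd x hx)
  refine ⟨fun m x => (A (x + δ m) - A x) / δ m, D, B, ?_, ?_, ?_, ?_, ?_, ?_, ?_⟩
  · intro m
    rw [contDiff_one_iff_deriv]
    refine ⟨fun x => (hs m x).differentiableAt, ?_⟩
    have : deriv (fun x => (A (x + δ m) - A x) / δ m) = g m := by
      rw [hg]
      exact funext fun x => (hs m x).deriv
    rw [this]
    exact hgc m
  · intro m x
    have hx : x ≤ x + δ m := by linarith [hδ0 m]
    have h1 : ∫ t in x..(x + δ m), (0 : ℝ) ≤ ∫ t in x..(x + δ m), a t :=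
      intervalIntegral.integral_mono_on hx (by simp) (ha.intervalIntegrable _ _)
        fun t _ => (hb t).1
    have h2 : ∫ t in x..(x + δ m), a t ≤ ∫ t in x..(x + δ m), H :=
      intervalIntegral.integral_mono_on hx (ha.intervalIntegrable _ _) (by simp)
        fun t _ => (hb t).2
    rw [intervalIntegral.integral_const, hAi, smul_zero] at h1
    rw [intervalIntegral.integral_const, hAi, smul_eq_mul] at h2
    constructor
    · show 0 ≤ (A (x + δ m) - A x) / δ m
      exact div_nonneg h1 (hδ0 m).le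
    · show (A (x + δ m) - A x) / δ m ≤ H
      rw [div_le_iff₀ (hδ0 m)]
      linarith
  · intro m x hx
    rw [(hs m x).deriv]
    have := hgB m x hx
    rw [hg] at this
    exact this
  · intro x
    have h1 := (hasDerivAt_iff_tendsto_slope_zero.1 (hA x))
    have h2 : Tendsto δ atTop (𝓝[≠] 0) := by
      rw [tendsto_nhdsWithin_iff]
      exact ⟨hδt0, Eventually.of_forall fun m => (hδ0 m).ne'⟩
    refine (h1.comp h2).congr fun m => ?_
    simp only [Function.comp_apply, smul_eq_mul]
    rw [div_eq_inv_mul]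
  · rw [hD]
    exact (Measurable.iSup fun m => (hgc m).measurable).indicator measurableSet_Icc
  · intro x
    by_cases hx : x ∈ Icc c d
    · exact le_of_tendsto (hDt x hx).abs (Eventually.of_forall fun m => hgB m x hx)
    · rw [hD, indicator_of_notMem hx, abs_zero]
      exact hB0
  · intro x hx
    refine ⟨(hDt x hx).congr fun m => ?_, fun y hy => ?_⟩
    · rw [(hs m x).deriv, hg]
    · have hxm : x ∈ Icc α β := ⟨by linarith [hx.1], by linarith [hx.2]⟩
      rcases lt_trichotomy y x with hyx | hyx | hyx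
      · have h1 : D x ≤ (a x - a y) / (x - y) := by
          rw [hDx x hx]
          refine ciSup_le fun m => ?_
          have e1 : x + δ m < β := by linarith [hδ0 m, hδ1 m, hx.2]
          have hxδm : x + δ m ∈ Icc α β := ⟨by linarith [hδ0 m, hx.1], e1.le⟩
          have h2 := hc.slope_anti_adjacent hy hxδm hyx (by linarith [hδ0 m] : x < x + δ m)
          rw [add_sub_cancel_left] at h2
          rw [hg]
          exact h2
        have h3 : 0 < x - y := by linarith
        rw [le_div_iff₀ h3] at h1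
        linarith
      · rw [hyx, sub_self, mul_zero, add_zero]
      · obtain ⟨m, hm⟩ : ∃ m, δ m < y - x :=
          (hδt0.eventually_lt_const (by linarith : (0 : ℝ) < y - x)).exists
        have h1 := slope_le hc hxm hy (by linarith [hδ0 m] : x < x + δ m)
          (by linarith : x + δ m ≤ y)
        rw [add_sub_cancel_left] at h1
        have h2 : (a (x + δ m) - a x) / δ m ≤ D x := by
          rw [hDx x hx]
          have h3 := le_ciSup (hbdd x hx) m
          rw [hg] at h3 ⊢
          exact h3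
        have h3 := h1.trans h2
        rw [div_le_iff₀ (by linarith)] at h3
        linarith

end Pool.Agent.T2h95.OD
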