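import Pool.Agent.T2h95.OD.Stm

/-!
# The theorem (task TH5 of project OD)
-/

set_option autoImplicit false

namespace Pool.Agent.T2h95.OD

open MeasureTheory Set Filter Topology
open scoped ENNReal InnerProductSpace
open Pool.Agent.T2h95.OC
open Pool.Agent.W695.KH (VV EV)

namespace TH5A

variable {n k : ℕ}

/-- the inverse of `pe` -/
def pinv (y : EuclideanSpace ℝ (Fin n ⊕ Fin n × Fin k)) : (Fin n → ℝ) × (Fin n → Fin k → ℝ) :=
  (fun i => y (Sum.inl i), fun i j => y (Sum.inr (i, j)))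

theorem continuous_pinv : Continuous (pinv (n := n) (k := k)) := by
  unfold pinv
  fun_prop

theorem K5_image (α β : ℝ) (w : EuclideanSpace ℝ (Fin k)) (φ : ℝ → ℝ)
    (L : Set (EuclideanSpace ℝ (Fin k))) (R : Fin n → Fin n → Prop) :
    K5 (D5 α β (fun j => w j) φ (crd k L)) R = pinv '' KE α β w φ L R := by
  ext p
  constructor
  · rintro ⟨h1, h2⟩
    refine ⟨pe p, ⟨fun i => ?_, fun i j hij => h1 i j hij⟩, rfl⟩
    obtain ⟨h3, v, hv, h4⟩ := h2 i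
    exact ⟨h3, WithLp.toLp 2 v, hv, fun j => h4 j⟩
  · rintro ⟨y, ⟨h1, h2⟩, rfl⟩
    refine ⟨fun i j hij => h2 i j hij, fun i => ?_⟩
    obtain ⟨h3, v, hv, h4⟩ := h1 i
    exact ⟨h3, fun j => v j, hv, fun j => h4 j⟩

/-- the direction -/
noncomputable def th (n : ℕ) (a₀ : ℝ) (u : Fin k → ℝ) : EuclideanSpace ℝ (Fin n ⊕ Fin n × Fin k) :=
  WithLp.toLp 2 (Sum.elim (fun _ => (√n)⁻¹ * a₀) fun z => (√n)⁻¹ * u z.2)

theorem norm_th (hn : 1 ≤ n) (a₀ : ℝ) (u : Fin k → ℝ) (h : a₀ ^ 2 + ∑ j, u j ^ 2 = 1) :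
    ‖th n a₀ u‖ = 1 := by
  have hn0 : (0 : ℝ) < n := by exact_mod_cast hn
  have h1 : ∑ z : Fin n ⊕ Fin n × Fin k, ‖th n a₀ u z‖ ^ 2 = 1 := by
    rw [Fintype.sum_sum_type, Fintype.sum_prod_type]
    have e1 : ∀ i : Fin n, ‖th n a₀ u (Sum.inl i)‖ ^ 2 = (n : ℝ)⁻¹ * a₀ ^ 2 := by
      intro i
      show ‖(√(n : ℝ))⁻¹ * a₀‖ ^ 2 = _
      rw [Real.norm_eq_abs, sq_abs, mul_pow, inv_pow, Real.sq_sqrt hn0.le]
    have e2 : ∀ (i : Fin n) (j : Fin k), ‖th n a₀ u (Sum.inr (i, j))‖ ^ 2 = (n : ℝ)⁻¹ * u j ^ 2 := by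
      intro i j
      show ‖(√(n : ℝ))⁻¹ * u j‖ ^ 2 = _
      rw [Real.norm_eq_abs, sq_abs, mul_pow, inv_pow, Real.sq_sqrt hn0.le]
    have e3 : ∑ _i : Fin n, (n : ℝ)⁻¹ * a₀ ^ 2 = a₀ ^ 2 := by
      rw [Finset.sum_const, Finset.card_univ, Fintype.card_fin, nsmul_eq_mul]
      field_simp
    have e4 : ∑ _i : Fin n, ∑ j, (n : ℝ)⁻¹ * u j ^ 2 = ∑ j, u j ^ 2 := by
      rw [Finset.sum_const, Finset.card_univ, Fintype.card_fin, nsmul_eq_mul, ← Finset.mul_sum]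
      field_simp
    simp only [e1, e2]
    rw [e3, e4, h]
  rw [EuclideanSpace.norm_eq, h1, Real.sqrt_one]

theorem inner_th (a₀ : ℝ) (u : Fin k → ℝ) (p : (Fin n → ℝ) × (Fin n → Fin k → ℝ)) :
    ⟪th n a₀ u, pe p⟫_ℝ = (√n)⁻¹ * ∑ i, (a₀ * p.1 i + ∑ j, u j * p.2 i j) := by
  rw [PiLp.inner_apply, Fintype.sum_sum_type, Fintype.sum_prod_type, Finset.sum_add_distrib,
    mul_add, Finset.mul_sum, Finset.mul_sum]
  congr 1
  · refine Finset.sum_congr rfl fun i _ => ?_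
    simp only [th, pe, Sum.elim_inl, RCLike.inner_apply, conj_trivial]
    ring
  · refine Finset.sum_congr rfl fun i _ => ?_
    rw [Finset.mul_sum]
    refine Finset.sum_congr rfl fun j _ => ?_
    simp only [th, pe, Sum.elim_inr, RCLike.inner_apply, conj_trivial]
    ring

section

variable {α β H lam : ℝ} {φ : ℝ → ℝ} {w : EuclideanSpace ℝ (Fin k)}
  {L : Set (EuclideanSpace ℝ (Fin k))} {R : Fin n → Fin n → Prop}

/-- the lower bound for the variance -/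
theorem lower (hSY : S_SY5) (hLI : S_LI5) (hEU : S_EU5) (hk : 1 ≤ k) (hn : 1 ≤ n)
    (hP : HB α β H φ) (hL : LB (crd k L)) (hcomp : IsCompact (KE α β w φ L R))
    (hpos : 0 < volume (KE α β w φ L R)) (a₀ : ℝ) (u : Fin k → ℝ) (m : ℝ) :
    (a₀ + ∑ j, w j * u j) ^ 2 * V5 α β k φ +
      H ^ 2 / 4 * EL (crd k L) (fun v => (∑ j, u j * v j) ^ 2) ≤
    EV (KE α β w φ L R) fun x => (⟪th n a₀ u, x⟫_ℝ - m) ^ 2 := by
  have hn0 : (0 : ℝ) < n := by exact_mod_cast hn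
  obtain ⟨e1, e2⟩ := hEU n k α β w φ L R
  set G : (Fin n → ℝ) × (Fin n → Fin k → ℝ) → ℝ := fun p =>
    (∑ i, (a₀ * p.1 i + ∑ j, u j * p.2 i j) - √n * m) ^ 2 with hG
  have hGc : Continuous G := by
    rw [hG]
    fun_prop
  have hGs : ∀ (σ : Equiv.Perm (Fin n)) (z : (Fin n → ℝ) × (Fin n → Fin k → ℝ)),
      G (fun i => z.1 (σ i), fun i => z.2 (σ i)) = G z := by
    intro σ z
    simp only [hG]
    rw [Equiv.sum_comp σ (fun i => a₀ * z.1 i + ∑ j, u j * z.2 i j)]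
  have hsy := hSY α β H φ k (fun j => w j) (crd k L) hk hP hL n R G hGc hGs
  have hli := hLI α β H φ k (fun j => w j) u (crd k L) a₀ (√n * m) n hk hP hL
  set V : ℝ := (volume (K5 (D5 α β (fun j => w j) φ (crd k L)) R)).toReal with hV
  have hVpos : 0 < V := by
    rw [hV, ← e1]
    exact ENNReal.toReal_pos hpos.ne' hcomp.measure_lt_top.ne
  have hsc : ∀ q : (Fin n → ℝ) × (Fin n → Fin k → ℝ), (⟪th n a₀ u, pe q⟫_ℝ - m) ^ 2 =
      (n : ℝ)⁻¹ * G q := by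
    intro q
    rw [inner_th]
    simp only [hG]
    have hs : (√(n : ℝ)) ^ 2 = n := Real.sq_sqrt hn0.le
    have hs0 : √(n : ℝ) ≠ 0 := (Real.sqrt_pos.2 hn0).ne'
    have e3 : (√(n : ℝ))⁻¹ * ∑ i, (a₀ * q.1 i + ∑ j, u j * q.2 i j) - m =
        (√(n : ℝ))⁻¹ * (∑ i, (a₀ * q.1 i + ∑ j, u j * q.2 i j) - √n * m) := by
      field_simp
    rw [e3, mul_pow, inv_pow, hs]
  have hEV : (EV (KE α β w φ L R) fun x => (⟪th n a₀ u, x⟫_ℝ - m) ^ 2) =
      (n : ℝ)⁻¹ * ∫ x, f5 (fun j => w j) φ (crd k L) G x ∂pw n (law (r5 α β k φ)) := by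
    unfold EV
    rw [e1, e2, ← hV]
    simp only [hsc]
    rw [integral_const_mul, hsy]
    field_simp
  rw [hEV]
  calc (a₀ + ∑ j, w j * u j) ^ 2 * V5 α β k φ +
      H ^ 2 / 4 * EL (crd k L) (fun v => (∑ j, u j * v j) ^ 2) =
      (n : ℝ)⁻¹ * (n * ((a₀ + ∑ j, w j * u j) ^ 2 * V5 α β k φ +
        H ^ 2 / 4 * EL (crd k L) (fun v => (∑ j, u j * v j) ^ 2))) := by
        field_simp
    _ ≤ _ := mul_le_mul_of_nonneg_left hli (inv_nonneg.2 hn0.le)

/-- the Poincare inequality -/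
theorem poincare (hPO : S_PO5) (hEU : S_EU5) (hGR : S_GR5) (hk : 1 ≤ k)
    (hP : HB α β H φ) (hL : LB (crd k L)) (hPL : PL (crd k L) lam) (hlam : 0 ≤ lam)
    (hcomp : IsCompact (KE α β w φ L R)) (hpos : 0 < volume (KE α β w φ L R))
    (Cp : ℝ) (hV0 : 0 ≤ V5 α β k φ)
    (hCp : 144 * V5 α β k φ * (1 + ∑ j, w j ^ 2) + 37 * lam * H ^ 2 ≤ Cp)
    (v : EuclideanSpace ℝ (Fin n ⊕ Fin n × Fin k) → ℝ) (hv : ContDiff ℝ 1 v) :
    VV (KE α β w φ L R) v ≤ Cp * EV (KE α β w φ L R) fun x => ‖fderiv ℝ v x‖ ^ 2 := by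
  obtain ⟨e1, e2⟩ := hEU n k α β w φ L R
  obtain ⟨g1, g2⟩ := hGR n k v hv
  set f : (Fin n → ℝ) × (Fin n → Fin k → ℝ) → ℝ := fun p => v (pe p) with hf
  have hpoi := hPO α β H φ k (fun j => w j) (crd k L) lam hk hP hL hPL hlam n R f g1
  set K := K5 (D5 α β (fun j => w j) φ (crd k L)) R with hK
  have hKc : IsCompact K := by
    rw [hK, K5_image]
    exact hcomp.image continuous_pinv
  set V : ℝ := (volume K).toReal with hV
  have hVpos : 0 < V := by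
    rw [hV, ← e1]
    exact ENNReal.toReal_pos hpos.ne' hcomp.measure_lt_top.ne
  have hdX : ∀ i : Fin n, Continuous (eX f i) := fun i =>
    (g1.continuous_fderiv (by norm_num)).clm_apply continuous_const
  have hdZ : ∀ (i : Fin n) (j : Fin k), Continuous (eZ f i j) := fun i j =>
    (g1.continuous_fderiv (by norm_num)).clm_apply continuous_const
  have hW : (0 : ℝ) ≤ ∑ j, w j ^ 2 := Finset.sum_nonneg fun j _ => sq_nonneg _
  have hVW : 0 ≤ 144 * V5 α β k φ * ∑ j, w j ^ 2 := by positivity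
  have hlH : 0 ≤ 37 * lam * H ^ 2 := by positivity
  have hle : ∫ p in K, ∑ i, (144 * V5 α β k φ * eX f i p ^ 2 +
      (144 * V5 α β k φ * (∑ j, w j ^ 2) + 37 * lam * H ^ 2) * ∑ j, eZ f i j p ^ 2) ≤
      ∫ p in K, Cp * ‖fderiv ℝ v (pe p)‖ ^ 2 := by
    have hR : (fun p : (Fin n → ℝ) × (Fin n → Fin k → ℝ) => Cp * ‖fderiv ℝ v (pe p)‖ ^ 2) =
        fun p => Cp * ∑ i, (eX f i p ^ 2 + ∑ j, eZ f i j p ^ 2) := by
      funext p
      rw [g2 p]
    rw [hR]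
    refine integral_mono ?_ ?_ ?_
    · exact (Continuous.continuousOn (by fun_prop)).integrableOn_compact hKc
    · exact (Continuous.continuousOn (by fun_prop)).integrableOn_compact hKc
    · intro p
      show ∑ i, (144 * V5 α β k φ * eX f i p ^ 2 +
        (144 * V5 α β k φ * (∑ j, w j ^ 2) + 37 * lam * H ^ 2) * ∑ j, eZ f i j p ^ 2) ≤
        Cp * ∑ i, (eX f i p ^ 2 + ∑ j, eZ f i j p ^ 2)
      rw [Finset.mul_sum Finset.univ (fun i => eX f i p ^ 2 + ∑ j, eZ f i j p ^ 2) Cp]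
      refine Finset.sum_le_sum fun i _ => ?_
      have i1 : 144 * V5 α β k φ * eX f i p ^ 2 ≤ Cp * eX f i p ^ 2 :=
        mul_le_mul_of_nonneg_right (by linarith) (sq_nonneg _)
      have i2 : (144 * V5 α β k φ * (∑ j, w j ^ 2) + 37 * lam * H ^ 2) * ∑ j, eZ f i j p ^ 2 ≤
          Cp * ∑ j, eZ f i j p ^ 2 :=
        mul_le_mul_of_nonneg_right (by linarith) (Finset.sum_nonneg fun j _ => sq_nonneg _)
      linarith
  have hfin : V * (∫ p in K, f p ^ 2) - (∫ p in K, f p) ^ 2 ≤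
      V * (Cp * ∫ p in K, ‖fderiv ℝ v (pe p)‖ ^ 2) := by
    rw [← integral_const_mul Cp]
    exact hpoi.trans (mul_le_mul_of_nonneg_left hle hVpos.le)
  unfold VV EV
  rw [e1, e2, e2, e2, ← hV]
  change (∫ p in K, f p ^ 2) / V - ((∫ p in K, f p) / V) ^ 2 ≤
    Cp * ((∫ p in K, ‖fderiv ℝ v (pe p)‖ ^ 2) / V)
  have hV2 : 0 < V ^ 2 := by positivity
  have e3 : (∫ p in K, f p ^ 2) / V - ((∫ p in K, f p) / V) ^ 2 =
      (V * (∫ p in K, f p ^ 2) - (∫ p in K, f p) ^ 2) / V ^ 2 := by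
    field_simp
  have e4 : Cp * ((∫ p in K, ‖fderiv ℝ v (pe p)‖ ^ 2) / V) =
      (V * (Cp * ∫ p in K, ‖fderiv ℝ v (pe p)‖ ^ 2)) / V ^ 2 := by
    field_simp
  rw [e3, e4]
  exact div_le_div_of_nonneg_right hfin hV2.le

end

/-- linear functions have positive variance -/
theorem var_pos {L : Set (EuclideanSpace ℝ (Fin k))} (hL : CB L) (θ : EuclideanSpace ℝ (Fin k))
    (hθ : ‖θ‖ = 1) : 0 < ∫ x in L, ⟪θ, x⟫_ℝ ^ 2 := by
  have hc : Continuous fun x : EuclideanSpace ℝ (Fin k) => ⟪θ, x⟫_ℝ ^ 2 := by fun_prop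
  have hi : IntegrableOn (fun x : EuclideanSpace ℝ (Fin k) => ⟪θ, x⟫_ℝ ^ 2) L volume :=
    hc.continuousOn.integrableOn_compact hL.comp
  rw [setIntegral_pos_iff_support_of_nonneg_ae (Eventually.of_forall fun x => sq_nonneg _) hi]
  obtain ⟨x₀, hx₀⟩ := hL.int
  have ho : IsOpen (interior L ∩ {x | ⟪θ, x⟫_ℝ ≠ 0}) :=
    isOpen_interior.inter (isOpen_ne_fun (by fun_prop) continuous_const)
  have hne : (interior L ∩ {x | ⟪θ, x⟫_ℝ ≠ 0}).Nonempty := by
    by_cases h0 : ⟪θ, x₀⟫_ℝ ≠ 0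
    · exact ⟨x₀, hx₀, h0⟩
    · push Not at h0
      have ht : Tendsto (fun t : ℝ => x₀ + t • θ) (𝓝 0) (𝓝 x₀) := by
        have : Continuous fun t : ℝ => x₀ + t • θ := by fun_prop
        have h1 := this.tendsto 0
        rwa [zero_smul, add_zero] at h1
      have h2 : ∀ᶠ t : ℝ in 𝓝 0, x₀ + t • θ ∈ interior L := ht (isOpen_interior.mem_nhds hx₀)
      obtain ⟨t, ht1, ht2⟩ := ((h2.filter_mono nhdsWithin_le_nhds).and
        (self_mem_nhdsWithin : ∀ᶠ t : ℝ in 𝓝[>] 0, t ∈ Ioi (0 : ℝ))).exists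
      refine ⟨x₀ + t • θ, ht1, ?_⟩
      have : ⟪θ, x₀ + t • θ⟫_ℝ = t := by
        rw [inner_add_right, h0, inner_smul_right, real_inner_self_eq_norm_sq, hθ]
        ring
      show ⟪θ, x₀ + t • θ⟫_ℝ ≠ 0
      rw [this]
      exact (ne_of_gt ht2)
  refine (ho.measure_pos volume hne).trans_le (measure_mono ?_)
  rintro x ⟨h1, h2⟩
  exact ⟨by
    rw [Function.mem_support]
    exact pow_ne_zero 2 h2, interior_subset h1⟩

theorem KE_congr {α β : ℝ} {w : EuclideanSpace ℝ (Fin k)} {φ φ' : ℝ → ℝ}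
    {L : Set (EuclideanSpace ℝ (Fin k))} {R : Fin n → Fin n → Prop}
    (h : ∀ x ∈ Icc α β, φ' x = φ x) : KE α β w φ' L R = KE α β w φ L R := by
  ext y
  constructor
  · rintro ⟨h1, h2⟩
    refine ⟨fun i => ⟨(h1 i).1, ?_⟩, h2⟩
    obtain ⟨h3, v, hv, h4⟩ := h1 i
    exact ⟨v, hv, fun j => by rw [h4 j, h _ h3]⟩
  · rintro ⟨h1, h2⟩
    refine ⟨fun i => ⟨(h1 i).1, ?_⟩, h2⟩
    obtain ⟨h3, v, hv, h4⟩ := h1 i
    exact ⟨v, hv, fun j => by rw [h4 j, h _ h3]⟩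

end TH5A

open TH5A in
theorem t_TH5 (hPO : S_PO5) (hSY : S_SY5) (hLI : S_LI5) (hEU : S_EU5) (hGR : S_GR5) (hCB : S_CB5)
    (hPH : S_PH5) (hGE : S_GE5) (hCH : S_CH5) (_hFU : S_FU5) : S_TH5 := by
  obtain ⟨c, hc, hch⟩ := hCH
  refine ⟨c / √436, by positivity, ?_⟩
  intro n k κ α β w θ₀ φ₀ L R hn hk hL hθ hPoi hαβ hφc hφcv hφ0 hφp hR1 hR2
  obtain ⟨H, φ, hP, hφe⟩ := hPH α β φ₀ hαβ hφc hφcv hφ0 hφp
  rw [← KE_congr hφe]
  obtain ⟨k1, k2, k3⟩ := hGE n k α β H w φ L R hL hP hR1 hR2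
  obtain ⟨hLB, hPLl, hVar⟩ := hCB k L hL
  have hpos : 0 < volume (KE α β w φ L R) :=
    (isOpen_interior.measure_pos volume k3).trans_le (measure_mono interior_subset)
  -- the variance of `θ₀`
  have hLpos : 0 < (volume L).toReal := by
    refine ENNReal.toReal_pos ?_ hL.comp.measure_lt_top.ne
    exact ((isOpen_interior.measure_pos volume hL.int).trans_le
      (measure_mono interior_subset)).ne'
  have hVpos : 0 < VV L (fun x => ⟪θ₀, x⟫_ℝ) := by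
    have h1 := var_pos hL θ₀ hθ
    have h2 : ∫ x in L, ⟪θ₀, x⟫_ℝ = 0 := by
      have hid : IntegrableOn (fun x : EuclideanSpace ℝ (Fin k) => x) L volume :=
        continuous_id.continuousOn.integrableOn_compact hL.comp
      have := ContinuousLinearMap.integral_comp_comm (innerSL ℝ θ₀) hid
      simp only [innerSL_apply_apply] at this
      rw [this, hL.cen, inner_zero_right]
    unfold VV EV
    rw [h2, zero_div, zero_pow two_ne_zero, sub_zero]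
    exact div_pos h1 hLpos
  have hκ : 1 ≤ κ := by
    have h1 := hPoi (fun x => ⟪θ₀, x⟫_ℝ) (contDiff_const.inner ℝ contDiff_id)
    have h2 : ∀ x : EuclideanSpace ℝ (Fin k), ‖fderiv ℝ (fun x => ⟪θ₀, x⟫_ℝ) x‖ ^ 2 = 1 := by
      intro x
      have : (fun x => ⟪θ₀, x⟫_ℝ) = (innerSL ℝ θ₀ : EuclideanSpace ℝ (Fin k) → ℝ) := by
        ext x
        rw [innerSL_apply_apply]
      rw [this, ContinuousLinearMap.fderiv, innerSL_apply_norm, hθ, one_pow]
    have h3 : EV L (fun x => ‖fderiv ℝ (fun x => ⟪θ₀, x⟫_ℝ) x‖ ^ 2) = 1 := by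
      unfold EV
      simp only [h2]
      rw [setIntegral_const, smul_eq_mul, mul_one, Measure.real, div_self hLpos.ne']
    rw [h3, mul_one] at h1
    by_contra h4
    push Not at h4
    nlinarith
  have hκ0 : 0 < κ := by linarith
  set S : ℝ := VV L (fun x => ⟪θ₀, x⟫_ℝ) with hS
  set lam : ℝ := κ * S with hlam
  have hlam0 : 0 < lam := by positivity
  have hPL : PL (crd k L) lam := hPLl lam hPoi
  have hV0 : 0 ≤ V5 α β k φ := ProbabilityTheory.variance_nonneg _ _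
  have hH := hP.hpos
  set V := V5 α β k φ with hV
  set W : ℝ := ∑ j, w j ^ 2 with hW
  have hW0 : 0 ≤ W := Finset.sum_nonneg fun j _ => sq_nonneg _
  set Cp : ℝ := 144 * V * (1 + W) + 37 * lam * H ^ 2 with hCp
  have hCp0 : 0 < Cp := by positivity
  have hfin : c / √436 / √κ = c / √(436 * κ) := by
    rw [Real.sqrt_mul (by norm_num), div_div]
  rw [hfin]
  have key : ∀ (a₀ : ℝ) (u : Fin k → ℝ), a₀ ^ 2 + ∑ j, u j ^ 2 = 1 →
      Cp ≤ 436 * κ * ((a₀ + ∑ j, w j * u j) ^ 2 * V +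
        H ^ 2 / 4 * EL (crd k L) (fun v => (∑ j, u j * v j) ^ 2)) →
      KLSg (c / √(436 * κ)) (KE α β w φ L R) := by
    intro a₀ u hu hle
    refine hch (436 * κ) (by positivity) _ (KE α β w φ L R) k1 k2 k3 Cp (th n a₀ u) hCp0
      (norm_th hn a₀ u hu)
      (fun v hv => poincare hPO hEU hGR hk hP hLB hPL hlam0.le k1 hpos Cp hV0 le_rfl v hv) ?_
    intro m
    exact hle.trans (mul_le_mul_of_nonneg_left
      (lower hSY hLI hEU hk hn hP hLB k1 hpos a₀ u m) (by positivity))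
  have hEL0 : ∀ u : Fin k → ℝ, 0 ≤ EL (crd k L) (fun v => (∑ j, u j * v j) ^ 2) := by
    intro u
    unfold EL
    exact div_nonneg (integral_nonneg fun v => sq_nonneg _) ENNReal.toReal_nonneg
  have hsplit : Cp = 144 * V + 144 * (W * V) + 148 * κ * (H ^ 2 / 4 * S) := by
    rw [hCp, hlam]
    ring
  have hM3 : 0 < H ^ 2 / 4 * S := by positivity
  have hWV : 0 ≤ W * V := by positivity
  rcases le_total (W * V) V with h1 | h1
  · rcases le_total (H ^ 2 / 4 * S) V with h2 | h2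
    · refine key 1 0 (by simp) ?_
      have e1 : (1 + ∑ j, w j * (0 : Fin k → ℝ) j) ^ 2 * V = V := by simp
      rw [e1, hsplit]
      have := hEL0 0
      have h3 : 0 ≤ H ^ 2 / 4 * EL (crd k L) (fun v => (∑ j, (0 : Fin k → ℝ) j * v j) ^ 2) := by
        positivity
      have h4 : κ * (H ^ 2 / 4 * S) ≤ κ * V := mul_le_mul_of_nonneg_left h2 hκ0.le
      have h5 : V ≤ κ * V := le_mul_of_one_le_left hV0 hκ
      have h6 : 0 ≤ κ * (H ^ 2 / 4 * EL (crd k L) (fun v => (∑ j, (0 : Fin k → ℝ) j * v j) ^ 2)) :=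
        mul_nonneg hκ0.le h3
      nlinarith
    · refine key 0 (fun j => θ₀ j) ?_ ?_
      · rw [EuclideanSpace.norm_eq] at hθ
        have h3 : ∑ j, θ₀ j ^ 2 = 1 := by
          have h4 := Real.sqrt_eq_one.1 hθ
          simpa [Real.norm_eq_abs, sq_abs] using h4
        rw [h3]
        norm_num
      · rw [← hVar θ₀, ← hS, hsplit]
        have h3 : 0 ≤ (0 + ∑ j, w j * θ₀ j) ^ 2 * V := by positivity
        have h5 : H ^ 2 / 4 * S ≤ κ * (H ^ 2 / 4 * S) := le_mul_of_one_le_left hM3.le hκ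
        have h6 : 0 ≤ κ * ((0 + ∑ j, w j * θ₀ j) ^ 2 * V) := mul_nonneg hκ0.le h3
        nlinarith
  · rcases le_total (H ^ 2 / 4 * S) (W * V) with h2 | h2
    · have hWV' : 0 < W * V := hM3.trans_le h2
      have hWp : 0 < W := by
        rcases hW0.lt_or_eq with h | h
        · exact h
        · rw [← h, zero_mul] at hWV'
          exact absurd hWV' (lt_irrefl _)
      have hsW : 0 < √W := Real.sqrt_pos.2 hWp
      have hsW2 : (√W) ^ 2 = W := Real.sq_sqrt hW0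
      refine key 0 (fun j => (√W)⁻¹ * w j) ?_ ?_
      · simp only [mul_pow]
        rw [← Finset.mul_sum, ← hW, inv_pow, hsW2, inv_mul_cancel₀ hWp.ne']
        norm_num
      · have e1 : (0 + ∑ j, w j * ((√W)⁻¹ * w j)) ^ 2 = W := by
          have : ∑ j, w j * ((√W)⁻¹ * w j) = (√W)⁻¹ * W := by
            rw [hW, Finset.mul_sum]
            refine Finset.sum_congr rfl fun j _ => ?_
            ring
          rw [zero_add, this, mul_pow, inv_pow, hsW2]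
          field_simp
        rw [e1, hsplit]
        have h3 : 0 ≤ H ^ 2 / 4 * EL (crd k L) (fun v => (∑ j, (√W)⁻¹ * w j * v j) ^ 2) :=
          mul_nonneg (by positivity) (hEL0 _)
        have h4 : κ * (H ^ 2 / 4 * S) ≤ κ * (W * V) := mul_le_mul_of_nonneg_left h2 hκ0.le
        have h5 : W * V ≤ κ * (W * V) := le_mul_of_one_le_left hWV hκ
        have h6 : 0 ≤ κ * (H ^ 2 / 4 *
            EL (crd k L) (fun v => (∑ j, (√W)⁻¹ * w j * v j) ^ 2)) := mul_nonneg hκ0.le h3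
        nlinarith
    · refine key 0 (fun j => θ₀ j) ?_ ?_
      · rw [EuclideanSpace.norm_eq] at hθ
        have h3 : ∑ j, θ₀ j ^ 2 = 1 := by
          have h4 := Real.sqrt_eq_one.1 hθ
          simpa [Real.norm_eq_abs, sq_abs] using h4
        rw [h3]
        norm_num
      · rw [← hVar θ₀, ← hS, hsplit]
        have h3 : 0 ≤ (0 + ∑ j, w j * θ₀ j) ^ 2 * V := by positivity
        have h5 : H ^ 2 / 4 * S ≤ κ * (H ^ 2 / 4 * S) := le_mul_of_one_le_left hM3.le hκ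
        have h6 : 0 ≤ κ * ((0 + ∑ j, w j * θ₀ j) ^ 2 * V) := mul_nonneg hκ0.le h3
        nlinarith

end Pool.Agent.T2h95.OD
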