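import Pool.Agent.T2h95.OD.Stm

/-!
# Task TL5 (helper49): tails against the tangent
-/

set_option autoImplicit false

namespace Pool.Agent.T2h95.OD

open MeasureTheory Set Filter Topology

namespace TL5

/-- the integral of the tangent -/
theorem tangent_integral (p D x a b : ℝ) (k : ℕ) :
    D * ∫ y in a..b, (p + D * (y - x)) ^ k =
      (p + D * (b - x)) ^ (k + 1) / (k + 1) - (p + D * (a - x)) ^ (k + 1) / (k + 1) := by
  rw [← intervalIntegral.integral_const_mul]
  have hk : (k + 1 : ℝ) ≠ 0 := by positivity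
  refine intervalIntegral.integral_eq_sub_of_hasDerivAt
    (f := fun y => (p + D * (y - x)) ^ (k + 1) / (k + 1)) (fun y _ => ?_) ?_
  · have h1 : HasDerivAt (fun y : ℝ => p + D * (y - x)) D y := by
      simpa using (((hasDerivAt_id y).sub_const x).const_mul D).const_add p
    have h2 : HasDerivAt (fun y : ℝ => (p + D * (y - x)) ^ (k + 1) / (k + 1 : ℝ))
        (((k + 1 : ℕ) : ℝ) * (p + D * (y - x)) ^ (k + 1 - 1) * D / (k + 1 : ℝ)) y :=
      (h1.pow (k + 1)).div_const _
    have e : ((k + 1 : ℕ) : ℝ) * (p + D * (y - x)) ^ (k + 1 - 1) * D / (k + 1 : ℝ) =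
        D * (p + D * (y - x)) ^ k := by
      rw [Nat.add_sub_cancel]
      push_cast
      field_simp
    rw [e] at h2
    exact h2
  · apply Continuous.intervalIntegrable
    fun_prop

theorem pow_integral_le (φ : ℝ → ℝ) (hφ : Continuous φ) (p D x a b : ℝ) (k : ℕ) (hab : a ≤ b)
    (h0 : ∀ y, 0 ≤ φ y) (h1 : ∀ y ∈ Icc a b, φ y ≤ p + D * (y - x)) :
    ∫ y in a..b, φ y ^ k ≤ ∫ y in a..b, (p + D * (y - x)) ^ k := by
  refine intervalIntegral.integral_mono_on hab ?_ ?_ (fun y hy => ?_)
  · exact (hφ.pow k).intervalIntegrable _ _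
  · apply Continuous.intervalIntegrable
    fun_prop
  · exact pow_le_pow_left₀ (h0 y) (h1 y hy) k

end TL5

theorem t_TL5 : S_TL5 := by
  intro α β H φ k hB x hx D htan
  have hA : 0 ≤ A5 α β k φ :=
    setIntegral_nonneg measurableSet_Icc fun y _ => pow_nonneg (hB.nonneg y) k
  have hr : r5 α β k φ x = φ x ^ k / A5 α β k φ := by
    unfold r5
    rw [indicator_of_mem (Ioo_subset_Icc_self hx)]
  have hk : (0 : ℝ) < k + 1 := by positivity
  refine ⟨fun hD => ?_, fun hD => ?_⟩
  · have e1 : ∫ z in Ioi x, r5 α β k φ z = (∫ z in x..β, φ z ^ k) / A5 α β k φ := by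
      unfold r5
      rw [setIntegral_indicator measurableSet_Icc]
      have : Ioi x ∩ Icc α β = Ioc x β := by
        ext z
        simp only [mem_inter_iff, mem_Ioi, mem_Icc, mem_Ioc]
        constructor
        · rintro ⟨h1, h2, h3⟩
          exact ⟨h1, h3⟩
        · rintro ⟨h1, h3⟩
          exact ⟨h1, (hx.1.trans h1).le, h3⟩
      rw [this, intervalIntegral.integral_of_le hx.2.le, integral_div]
    have e2 := TL5.pow_integral_le φ hB.cont (φ x) D x x β k hx.2.le hB.nonneg
      (fun y hy => htan y ⟨hx.1.le.trans hy.1, hy.2⟩)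
    have e3 := TL5.tangent_integral (φ x) D x x β k
    have e4 : 0 ≤ φ x + D * (β - x) := (hB.nonneg β).trans (htan β (right_mem_Icc.2 hB.lt.le))
    have e5 : |D| * (∫ z in x..β, φ z ^ k) ≤ φ x ^ (k + 1) / (k + 1) := by
      rw [abs_of_neg hD]
      have h1 : -D * (∫ z in x..β, φ z ^ k) ≤ -D * ∫ y in x..β, (φ x + D * (y - x)) ^ k :=
        mul_le_mul_of_nonneg_left e2 (by linarith)
      have h2 : 0 ≤ (φ x + D * (β - x)) ^ (k + 1) / (k + 1) := by positivity
      have h3 : (φ x + D * (x - x)) ^ (k + 1) / (k + 1) = φ x ^ (k + 1) / ((k : ℝ) + 1) := by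
        rw [sub_self, mul_zero, add_zero]
      rw [h3] at e3
      linarith
    rw [e1, hr, ← mul_div_assoc, ← mul_div_assoc]
    apply div_le_div_of_nonneg_right _ hA
    calc |D| * (∫ z in x..β, φ z ^ k) ≤ φ x ^ (k + 1) / (k + 1) := e5
      _ = φ x / (k + 1) * φ x ^ k := by
        rw [pow_succ]
        ring
  · have e1 : ∫ z in Iio x, r5 α β k φ z = (∫ z in α..x, φ z ^ k) / A5 α β k φ := by
      unfold r5
      rw [setIntegral_indicator measurableSet_Icc]
      have : Iio x ∩ Icc α β = Ico α x := by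
        ext z
        simp only [mem_inter_iff, mem_Iio, mem_Icc, mem_Ico]
        constructor
        · rintro ⟨h1, h2, h3⟩
          exact ⟨h2, h1⟩
        · rintro ⟨h1, h3⟩
          exact ⟨h3, h1, (h3.trans hx.2).le⟩
      rw [this, integral_Ico_eq_integral_Ioo, ← integral_Ioc_eq_integral_Ioo,
        intervalIntegral.integral_of_le hx.1.le, integral_div]
    have e2 := TL5.pow_integral_le φ hB.cont (φ x) D x α x k hx.1.le hB.nonneg
      (fun y hy => htan y ⟨hy.1, hy.2.trans hx.2.le⟩)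
    have e3 := TL5.tangent_integral (φ x) D x α x k
    have e4 : 0 ≤ φ x + D * (α - x) := (hB.nonneg α).trans (htan α (left_mem_Icc.2 hB.lt.le))
    have e5 : |D| * (∫ z in α..x, φ z ^ k) ≤ φ x ^ (k + 1) / (k + 1) := by
      rw [abs_of_pos hD]
      have h1 : D * (∫ z in α..x, φ z ^ k) ≤ D * ∫ y in α..x, (φ x + D * (y - x)) ^ k :=
        mul_le_mul_of_nonneg_left e2 hD.le
      have h2 : 0 ≤ (φ x + D * (α - x)) ^ (k + 1) / (k + 1) := by positivity
      have h3 : (φ x + D * (x - x)) ^ (k + 1) / (k + 1) = φ x ^ (k + 1) / ((k : ℝ) + 1) := by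
        rw [sub_self, mul_zero, add_zero]
      rw [h3] at e3
      linarith
    rw [e1, hr, ← mul_div_assoc, ← mul_div_assoc]
    apply div_le_div_of_nonneg_right _ hA
    calc |D| * (∫ z in α..x, φ z ^ k) ≤ φ x ^ (k + 1) / (k + 1) := e5
      _ = φ x / (k + 1) * φ x ^ k := by
        rw [pow_succ]
        ring

end Pool.Agent.T2h95.OD
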