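import Pool.Agent.T2h95.OD.Stm

/-!
# Project OD, task TN5: tensorisation of the Poincare inequality
-/

set_option autoImplicit false

namespace Pool.Agent.T2h95.OD

open MeasureTheory Set Filter Topology
open scoped ENNReal
open Pool.Agent.T2h95.OC

namespace TN

/-- bounded and measurable -/
structure BM {A : Type} [MeasurableSpace A] (f : A → ℝ) : Prop where
  meas : Measurable f
  bdd : ∃ C, ∀ x, |f x| ≤ C

section

variable {A B : Type} [MeasurableSpace A] [MeasurableSpace B]

theorem BM.int {f : A → ℝ} (h : BM f) (μ : Measure A) [IsFiniteMeasure μ] : Integrable f μ := by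
  obtain ⟨C, hC⟩ := h.bdd
  exact Integrable.of_bound h.meas.aestronglyMeasurable C (ae_of_all _ hC)

theorem BM.mul {f g : A → ℝ} (hf : BM f) (hg : BM g) : BM fun x => f x * g x := by
  obtain ⟨C, hC⟩ := hf.bdd
  obtain ⟨D, hD⟩ := hg.bdd
  refine ⟨hf.meas.mul hg.meas, C * D, fun x => ?_⟩
  rw [abs_mul]
  exact mul_le_mul (hC x) (hD x) (abs_nonneg _) ((abs_nonneg _).trans (hC x))

theorem BM.sq {f : A → ℝ} (hf : BM f) : BM fun x => f x ^ 2 := by
  have := hf.mul hf
  simpa only [pow_two] using this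

theorem BM.comp {f : A → ℝ} (hf : BM f) {g : B → A} (hg : Measurable g) : BM fun x => f (g x) :=
  ⟨hf.meas.comp hg, hf.bdd.imp fun _ h _ => h _⟩

theorem BM.intR {f : A × B → ℝ} (hf : BM f) (ν : Measure B) [IsProbabilityMeasure ν] :
    BM fun a => ∫ b, f (a, b) ∂ν := by
  obtain ⟨C, hC⟩ := hf.bdd
  refine ⟨(hf.meas.stronglyMeasurable.integral_prod_right').measurable, C, fun a => ?_⟩
  have h := norm_integral_le_of_norm_le_const (μ := ν) (f := fun b => f (a, b)) (C := C)
    (ae_of_all _ fun b => hC (a, b))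
  simpa using h

theorem BM.intL {f : A × B → ℝ} (hf : BM f) (μ : Measure A) [IsProbabilityMeasure μ] :
    BM fun b => ∫ a, f (a, b) ∂μ := by
  obtain ⟨C, hC⟩ := hf.bdd
  refine ⟨(hf.meas.stronglyMeasurable.integral_prod_left').measurable, C, fun b => ?_⟩
  have h := norm_integral_le_of_norm_le_const (μ := μ) (f := fun a => f (a, b)) (C := C)
    (ae_of_all _ fun a => hC (a, b))
  simpa using h

/-- the two-variable step -/
theorem two (μ : Measure A) (ν : Measure B) [IsProbabilityMeasure μ] [IsProbabilityMeasure ν]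
    {F Q0 : A × B → ℝ} (hF : BM F) (hQ0 : BM Q0) {q : ℝ}
    (h0 : ∀ b, ∫ a, F (a, b) ^ 2 ∂μ - (∫ a, F (a, b) ∂μ) ^ 2 ≤ ∫ a, Q0 (a, b) ∂μ)
    (h1 : ∫ a, (∫ b, F (a, b) ^ 2 ∂ν - (∫ b, F (a, b) ∂ν) ^ 2) ∂μ ≤ q) :
    ∫ p, F p ^ 2 ∂(μ.prod ν) - (∫ p, F p ∂(μ.prod ν)) ^ 2 ≤ ∫ p, Q0 p ∂(μ.prod ν) + q := by
  set G : A → ℝ := fun a => ∫ b, F (a, b) ∂ν with hGd
  set h : B → ℝ := fun b => ∫ a, F (a, b) ∂μ with hhd
  have hG : BM G := hF.intR ν
  have hh : BM h := hF.intL μ
  set m : ℝ := ∫ p, F p ∂(μ.prod ν) with hm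
  have hmG : ∫ a, G a ∂μ = m := by
    rw [hm, integral_prod _ (hF.int _)]
  have hmh : ∫ b, h b ∂ν = m := by
    rw [hm, integral_prod_symm _ (hF.int _)]
  have hG1 : BM fun p : A × B => G p.1 := hG.comp measurable_fst
  have hh1 : BM fun p : A × B => h p.2 := hh.comp measurable_snd
  have iG : ∫ p : A × B, G p.1 ∂(μ.prod ν) = m := by
    rw [integral_fun_fst, hmG]; simp
  have ih : ∫ p : A × B, h p.2 ∂(μ.prod ν) = m := by
    rw [integral_fun_snd, hmh]; simp
  have iG2 : ∫ p : A × B, G p.1 ^ 2 ∂(μ.prod ν) = ∫ a, G a ^ 2 ∂μ := by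
    rw [integral_fun_fst (fun a => G a ^ 2)]; simp
  have ih2 : ∫ p : A × B, h p.2 ^ 2 ∂(μ.prod ν) = ∫ b, h b ^ 2 ∂ν := by
    rw [integral_fun_snd (fun b => h b ^ 2)]; simp
  have iGh : ∫ p : A × B, G p.1 * h p.2 ∂(μ.prod ν) = m * m := by
    rw [integral_prod_mul, hmG, hmh]
  have iFG : ∫ p : A × B, F p * G p.1 ∂(μ.prod ν) = ∫ a, G a ^ 2 ∂μ := by
    rw [integral_prod _ ((hF.mul hG1).int _)]
    refine integral_congr_ae (ae_of_all _ fun a => ?_)
    simp only
    rw [integral_mul_const, pow_two]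
  have iFh : ∫ p : A × B, F p * h p.2 ∂(μ.prod ν) = ∫ b, h b ^ 2 ∂ν := by
    rw [integral_prod_symm _ ((hF.mul hh1).int _)]
    refine integral_congr_ae (ae_of_all _ fun b => ?_)
    simp only
    rw [integral_mul_const, pow_two]
  have key : ∫ p : A × B, (F p - G p.1 - h p.2 + m) ^ 2 ∂(μ.prod ν) =
      ∫ p, F p ^ 2 ∂(μ.prod ν) - ∫ a, G a ^ 2 ∂μ - ∫ b, h b ^ 2 ∂ν + m ^ 2 := by
    have e : (fun p : A × B => (F p - G p.1 - h p.2 + m) ^ 2) = fun p =>
        F p ^ 2 + (G p.1 ^ 2 + (h p.2 ^ 2 + ((-2) * (F p * G p.1) + ((-2) * (F p * h p.2) +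
          (2 * m * F p + (2 * (G p.1 * h p.2) + ((-2) * m * G p.1 + ((-2) * m * h p.2 +
            m ^ 2)))))))) := by
      funext p; ring
    have i1 : Integrable (fun p : A × B => F p ^ 2) (μ.prod ν) := hF.sq.int _
    have i2 : Integrable (fun p : A × B => G p.1 ^ 2) (μ.prod ν) := hG1.sq.int _
    have i3 : Integrable (fun p : A × B => h p.2 ^ 2) (μ.prod ν) := hh1.sq.int _
    have i4 : Integrable (fun p : A × B => (-2) * (F p * G p.1)) (μ.prod ν) :=
      ((hF.mul hG1).int _).const_mul _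
    have i5 : Integrable (fun p : A × B => (-2) * (F p * h p.2)) (μ.prod ν) :=
      ((hF.mul hh1).int _).const_mul _
    have i6 : Integrable (fun p : A × B => 2 * m * F p) (μ.prod ν) := (hF.int _).const_mul _
    have i7 : Integrable (fun p : A × B => 2 * (G p.1 * h p.2)) (μ.prod ν) :=
      ((hG1.mul hh1).int _).const_mul _
    have i8 : Integrable (fun p : A × B => (-2) * m * G p.1) (μ.prod ν) :=
      (hG1.int _).const_mul _
    have i9 : Integrable (fun p : A × B => (-2) * m * h p.2) (μ.prod ν) :=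
      (hh1.int _).const_mul _
    have i10 : Integrable (fun _ : A × B => m ^ 2) (μ.prod ν) := integrable_const _
    have j9 : Integrable (fun p : A × B => (-2) * m * h p.2 + m ^ 2) (μ.prod ν) := i9.add i10
    have j8 : Integrable (fun p : A × B => (-2) * m * G p.1 + ((-2) * m * h p.2 + m ^ 2))
      (μ.prod ν) := i8.add j9
    have j7 : Integrable (fun p : A × B => 2 * (G p.1 * h p.2) + ((-2) * m * G p.1 +
      ((-2) * m * h p.2 + m ^ 2))) (μ.prod ν) := i7.add j8
    have j6 : Integrable (fun p : A × B => 2 * m * F p + (2 * (G p.1 * h p.2) +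
      ((-2) * m * G p.1 + ((-2) * m * h p.2 + m ^ 2)))) (μ.prod ν) := i6.add j7
    have j5 : Integrable (fun p : A × B => (-2) * (F p * h p.2) + (2 * m * F p +
      (2 * (G p.1 * h p.2) + ((-2) * m * G p.1 + ((-2) * m * h p.2 + m ^ 2))))) (μ.prod ν) :=
      i5.add j6
    have j4 : Integrable (fun p : A × B => (-2) * (F p * G p.1) + ((-2) * (F p * h p.2) +
      (2 * m * F p + (2 * (G p.1 * h p.2) + ((-2) * m * G p.1 + ((-2) * m * h p.2 +
        m ^ 2)))))) (μ.prod ν) := i4.add j5
    have j3 : Integrable (fun p : A × B => h p.2 ^ 2 + ((-2) * (F p * G p.1) +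
      ((-2) * (F p * h p.2) + (2 * m * F p + (2 * (G p.1 * h p.2) + ((-2) * m * G p.1 +
        ((-2) * m * h p.2 + m ^ 2))))))) (μ.prod ν) := i3.add j4
    have j2 : Integrable (fun p : A × B => G p.1 ^ 2 + (h p.2 ^ 2 + ((-2) * (F p * G p.1) +
      ((-2) * (F p * h p.2) + (2 * m * F p + (2 * (G p.1 * h p.2) + ((-2) * m * G p.1 +
        ((-2) * m * h p.2 + m ^ 2)))))))) (μ.prod ν) := i2.add j3
    rw [e, integral_add i1 j2, integral_add i2 j3, integral_add i3 j4, integral_add i4 j5,
      integral_add i5 j6, integral_add i6 j7, integral_add i7 j8, integral_add i8 j9,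
      integral_add i9 i10,
      integral_const_mul, integral_const_mul, integral_const_mul, integral_const_mul,
      integral_const_mul, integral_const_mul, iG2, ih2, iFG, iFh, ← hm, iGh, iG, ih]
    simp only [integral_const, probReal_univ, smul_eq_mul, one_mul]
    ring
  have hkey : 0 ≤ ∫ p, F p ^ 2 ∂(μ.prod ν) - ∫ a, G a ^ 2 ∂μ - ∫ b, h b ^ 2 ∂ν + m ^ 2 := by
    rw [← key]
    exact integral_nonneg fun p => sq_nonneg _
  have hF2 : BM fun p => F p ^ 2 := hF.sq
  have e1 : ∫ a, (∫ b, F (a, b) ^ 2 ∂ν - (∫ b, F (a, b) ∂ν) ^ 2) ∂μ =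
      ∫ p, F p ^ 2 ∂(μ.prod ν) - ∫ a, G a ^ 2 ∂μ := by
    rw [integral_sub ((hF2.intR ν).int μ) (hG.sq.int μ), integral_prod _ (hF2.int _)]
  have e2 : ∫ p, F p ^ 2 ∂(μ.prod ν) - ∫ b, h b ^ 2 ∂ν =
      ∫ b, (∫ a, F (a, b) ^ 2 ∂μ - (∫ a, F (a, b) ∂μ) ^ 2) ∂ν := by
    rw [integral_sub ((hF2.intL μ).int ν) (hh.sq.int ν), integral_prod_symm _ (hF2.int _)]
  have e3 : ∫ b, (∫ a, F (a, b) ^ 2 ∂μ - (∫ a, F (a, b) ∂μ) ^ 2) ∂ν ≤
      ∫ b, ∫ a, Q0 (a, b) ∂μ ∂ν :=
    integral_mono (((hF2.intL μ).int ν).sub (hh.sq.int ν)) ((hQ0.intL μ).int ν) h0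
  rw [← integral_prod_symm _ (hQ0.int _)] at e3
  linarith

end

/-- Efron-Stein, with bounds for the variances in each coordinate -/
theorem es {E : Type} [MeasurableSpace E] (μ : Measure E) [IsProbabilityMeasure μ] :
    ∀ (n : ℕ) (F : (Fin n → E) → ℝ) (Q : Fin n → (Fin n → E) → ℝ), BM F → (∀ i, BM (Q i)) →
      (∀ i v, ∫ y, F (Function.update v i y) ^ 2 ∂μ - (∫ y, F (Function.update v i y) ∂μ) ^ 2 ≤
        ∫ y, Q i (Function.update v i y) ∂μ) →
      ∫ v, F v ^ 2 ∂(Measure.pi fun _ => μ) - (∫ v, F v ∂(Measure.pi fun _ => μ)) ^ 2 ≤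
        ∑ i, ∫ v, Q i v ∂(Measure.pi fun _ => μ) := by
  intro n
  induction n with
  | zero =>
    intro F Q hF hQ h
    have e : F = fun _ => F default := by
      funext v
      rw [Subsingleton.elim v default]
    rw [e]
    simp
  | succ n ih =>
    intro F Q hF hQ h
    have hmp := measurePreserving_piFinSuccAbove (fun _ : Fin (n + 1) => μ) 0
    have hsy : ∀ p : E × (Fin n → E),
        (MeasurableEquiv.piFinSuccAbove (fun _ : Fin (n + 1) => E) 0).symm p =
          Fin.cons p.1 p.2 := fun p => by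
      simp [MeasurableEquiv.piFinSuccAbove]
      rfl
    have hcons : Measurable fun p : E × (Fin n → E) => (Fin.cons p.1 p.2 : Fin (n + 1) → E) := by
      have := (MeasurableEquiv.piFinSuccAbove (fun _ : Fin (n + 1) => E) 0).symm.measurable
      rw [show (⇑(MeasurableEquiv.piFinSuccAbove (fun _ : Fin (n + 1) => E) 0).symm) =
        fun p => Fin.cons p.1 p.2 from funext hsy] at this
      exact this
    have hI : ∀ f : (Fin (n + 1) → E) → ℝ, ∫ v, f v ∂(Measure.pi fun _ => μ) =
        ∫ p : E × (Fin n → E), f (Fin.cons p.1 p.2) ∂(μ.prod (Measure.pi fun _ => μ)) := by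
      intro f
      have := (hmp.symm).integral_comp' (g := f)
      rw [← this]
      refine integral_congr_ae (ae_of_all _ fun p => ?_)
      simp only
      rw [hsy]
    have hFc : BM fun p : E × (Fin n → E) => F (Fin.cons p.1 p.2) := hF.comp hcons
    have hQc : ∀ i, BM fun p : E × (Fin n → E) => Q i (Fin.cons p.1 p.2) := fun i =>
      (hQ i).comp hcons
    have hcy : ∀ y : E, Measurable fun v : Fin n → E => (Fin.cons y v : Fin (n + 1) → E) :=
      fun y => hcons.comp (measurable_const.prodMk measurable_id)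
    have hfib : ∀ y : E, ∫ v, F (Fin.cons y v) ^ 2 ∂(Measure.pi fun _ => μ) -
        (∫ v, F (Fin.cons y v) ∂(Measure.pi fun _ => μ)) ^ 2 ≤
        ∑ i : Fin n, ∫ v, Q i.succ (Fin.cons y v) ∂(Measure.pi fun _ => μ) := by
      intro y
      refine ih (fun v => F (Fin.cons y v)) (fun i v => Q i.succ (Fin.cons y v))
        (hF.comp (hcy y)) (fun i => (hQ i.succ).comp (hcy y)) ?_
      intro i v
      simp only [Fin.cons_update]
      exact h i.succ (Fin.cons y v)
    have hsum : BM fun p : E × (Fin n → E) => ∑ i : Fin n, Q i.succ (Fin.cons p.1 p.2) := by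
      have : ∀ s : Finset (Fin n), BM fun p : E × (Fin n → E) =>
          ∑ i ∈ s, Q i.succ (Fin.cons p.1 p.2) := by
        intro s
        refine ⟨Finset.measurable_sum _ fun i _ => (hQc i.succ).meas, ?_⟩
        choose C hC using fun i => (hQc i).bdd
        refine ⟨∑ i ∈ s, C i.succ, fun p => (Finset.abs_sum_le_sum_abs _ _).trans ?_⟩
        exact Finset.sum_le_sum fun i _ => hC _ _
      exact this _
    have h1 : ∫ y, (∫ v, F (Fin.cons y v) ^ 2 ∂(Measure.pi fun _ : Fin n => μ) -
        (∫ v, F (Fin.cons y v) ∂(Measure.pi fun _ : Fin n => μ)) ^ 2) ∂μ ≤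
        ∑ i : Fin n, ∫ v, Q i.succ v ∂(Measure.pi fun _ => μ) := by
      have e : ∑ i : Fin n, ∫ v, Q i.succ v ∂(Measure.pi fun _ => μ) =
          ∫ y, ∑ i : Fin n, ∫ v, Q i.succ (Fin.cons y v) ∂(Measure.pi fun _ => μ) ∂μ := by
        rw [integral_finsetSum _ fun i _ => ((hQc i.succ).intR _).int μ]
        refine Finset.sum_congr rfl fun i _ => ?_
        rw [hI, integral_prod _ ((hQc i.succ).int _)]
      rw [e]
      refine integral_mono (((hFc.sq.intR _).int μ).sub ((hFc.intR _).sq.int μ)) ?_ hfib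
      exact integrable_finsetSum _ fun i _ => ((hQc i.succ).intR _).int μ
    have h0 : ∀ v : Fin n → E, ∫ y, F (Fin.cons y v) ^ 2 ∂μ -
        (∫ y, F (Fin.cons y v) ∂μ) ^ 2 ≤ ∫ y, Q 0 (Fin.cons y v) ∂μ := by
      intro v
      by_cases hne : Nonempty E
      · obtain ⟨y0⟩ := hne
        have := h 0 (Fin.cons y0 v)
        simpa only [Fin.update_cons_zero] using this
      · rw [not_nonempty_iff] at hne
        have hu : μ univ = 1 := measure_univ
        rw [Set.eq_empty_of_isEmpty univ, measure_empty] at hu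
        exact absurd hu zero_ne_one
    have hfin := two μ (Measure.pi fun _ : Fin n => μ) hFc (hQc 0) h0 h1
    rw [hI, hI F, Fin.sum_univ_succ, hI (Q 0)]
    exact hfin

variable {n k : ℕ}

/-- normalised restriction to `L` -/
noncomputable def nu (L : Set (Fin k → ℝ)) : Measure (Fin k → ℝ) :=
  (volume L)⁻¹ • volume.restrict L

theorem nu_prob {L : Set (Fin k → ℝ)} (hL : LB L) : IsProbabilityMeasure (nu L) := by
  refine ⟨?_⟩
  rw [nu, Measure.smul_apply, Measure.restrict_apply_univ, smul_eq_mul]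
  exact ENNReal.inv_mul_cancel hL.pos.ne' hL.comp.measure_lt_top.ne

theorem Ln_eq (L : Set (Fin k → ℝ)) : Ln n L = univ.pi fun _ : Fin n => L := by
  ext v
  simp [Ln]

theorem vol_Ln (L : Set (Fin k → ℝ)) : volume (Ln n L) = volume L ^ n := by
  rw [Ln_eq, volume_pi_pi]
  simp

theorem pi_nu {L : Set (Fin k → ℝ)} (hL : LB L) :
    Measure.pi (fun _ : Fin n => nu L) = ((volume L)⁻¹ ^ n) • volume.restrict (Ln n L) := by
  have := nu_prob hL
  refine Measure.pi_eq fun s _ => ?_
  have e : (volume : Measure (Fin n → Fin k → ℝ)).restrict (univ.pi fun _ => L) =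
      Measure.pi fun _ => volume.restrict L :=
    Measure.restrict_pi_pi (fun _ : Fin n => (volume : Measure (Fin k → ℝ))) fun _ => L
  rw [Measure.smul_apply, Ln_eq, e, Measure.pi_pi, smul_eq_mul]
  simp only [nu, Measure.smul_apply, smul_eq_mul]
  rw [Finset.prod_mul_distrib, Finset.prod_const, Finset.card_univ, Fintype.card_fin]

theorem mean_Ln {L : Set (Fin k → ℝ)} (hL : LB L) (G : (Fin n → Fin k → ℝ) → ℝ) :
    (∫ v in Ln n L, G v) / (volume (Ln n L)).toReal =
      ∫ v, G v ∂(Measure.pi fun _ : Fin n => nu L) := by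
  rw [pi_nu hL, integral_smul_measure, vol_Ln, smul_eq_mul, ENNReal.toReal_pow,
    ENNReal.toReal_pow, ENNReal.toReal_inv, inv_pow, div_eq_inv_mul]

theorem mean_L {L : Set (Fin k → ℝ)} (u : (Fin k → ℝ) → ℝ) :
    EL L u = ∫ v, u v ∂(nu L) := by
  rw [EL, nu, integral_smul_measure, smul_eq_mul, ENNReal.toReal_inv, div_eq_inv_mul]

theorem Ln_comp {L : Set (Fin k → ℝ)} (hL : LB L) : IsCompact (Ln n L) := by
  rw [Ln_eq]
  exact isCompact_univ_pi fun _ => hL.comp

theorem bm_ind {L : Set (Fin k → ℝ)} (hL : LB L) {G : (Fin n → Fin k → ℝ) → ℝ}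
    (hG : Continuous G) : BM ((Ln n L).indicator G) := by
  refine ⟨hG.measurable.indicator (Ln_comp hL).measurableSet, ?_⟩
  obtain ⟨C, hC⟩ := (Ln_comp hL).exists_bound_of_continuousOn hG.continuousOn
  refine ⟨max C 0, fun v => ?_⟩
  by_cases hv : v ∈ Ln n L
  · rw [indicator_of_mem hv]
    exact (hC v hv).trans (le_max_left _ _)
  · rw [indicator_of_notMem hv, abs_zero]
    exact le_max_right _ _

theorem ae_Ln {L : Set (Fin k → ℝ)} (hL : LB L) :
    ∀ᵐ v ∂(Measure.pi fun _ : Fin n => nu L), v ∈ Ln n L := by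
  rw [pi_nu hL]
  exact Measure.ae_smul_measure (ae_restrict_mem (Ln_comp hL).measurableSet) _

theorem ae_L {L : Set (Fin k → ℝ)} (hL : LB L) : ∀ᵐ v ∂(nu L), v ∈ L :=
  Measure.ae_smul_measure (ae_restrict_mem hL.comp.measurableSet) _

end TN

open TN in
theorem t_TN5 : S_TN5 := by
  intro n k L lam hL hP hlam F hF
  have := nu_prob hL
  have hFc : Continuous F := hF.continuous
  set Q : Fin n → (Fin n → Fin k → ℝ) → ℝ := fun i v =>
    lam * ∑ j, fderiv ℝ F v (Pi.single i (Pi.single j 1)) ^ 2 with hQ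
  have hQc : ∀ i, Continuous (Q i) := fun i => by
    refine continuous_const.mul (continuous_finsetSum _ fun j _ => ?_)
    exact ((hF.continuous_fderiv (by norm_num)).clm_apply continuous_const).pow 2
  have h := es (nu L) n ((Ln n L).indicator F) (fun i => (Ln n L).indicator (Q i))
    (bm_ind hL hFc) (fun i => bm_ind hL (hQc i)) ?_
  · rw [mean_Ln hL, mean_Ln hL, mean_Ln hL]
    have e1 : ∫ v, (Ln n L).indicator F v ^ 2 ∂(Measure.pi fun _ : Fin n => nu L) =
        ∫ v, F v ^ 2 ∂(Measure.pi fun _ : Fin n => nu L) := by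
      refine integral_congr_ae ?_
      filter_upwards [ae_Ln hL] with v hv
      rw [indicator_of_mem hv]
    have e2 : ∫ v, (Ln n L).indicator F v ∂(Measure.pi fun _ : Fin n => nu L) =
        ∫ v, F v ∂(Measure.pi fun _ : Fin n => nu L) := by
      refine integral_congr_ae ?_
      filter_upwards [ae_Ln hL] with v hv
      rw [indicator_of_mem hv]
    rw [e1, e2] at h
    refine h.trans (le_of_eq ?_)
    rw [← integral_finsetSum _ fun i _ => (bm_ind hL (hQc i)).int _, ← integral_const_mul]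
    refine integral_congr_ae ?_
    filter_upwards [ae_Ln hL] with v hv
    rw [Finset.mul_sum]
    refine Finset.sum_congr rfl fun i _ => ?_
    rw [indicator_of_mem hv]
  · intro i v
    by_cases hv : ∀ l, l ≠ i → v l ∈ L
    · have hin : ∀ y ∈ L, Function.update v i y ∈ Ln n L := by
        intro y hy l
        by_cases hl : l = i
        · subst hl
          rwa [Function.update_self]
        · rw [Function.update_of_ne hl]
          exact hv l hl
      have hup : ContDiff ℝ 1 (Function.update v i) := contDiff_update 1 v i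
      have hu : ContDiff ℝ 1 fun y => F (Function.update v i y) := hF.comp hup
      have hp := hP _ hu
      rw [mean_L, mean_L, mean_L] at hp
      have e1 : ∫ y, (Ln n L).indicator F (Function.update v i y) ^ 2 ∂(nu L) =
          ∫ y, F (Function.update v i y) ^ 2 ∂(nu L) := by
        refine integral_congr_ae ?_
        filter_upwards [ae_L hL] with y hy
        rw [indicator_of_mem (hin y hy)]
      have e2 : ∫ y, (Ln n L).indicator F (Function.update v i y) ∂(nu L) =
          ∫ y, F (Function.update v i y) ∂(nu L) := by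
        refine integral_congr_ae ?_
        filter_upwards [ae_L hL] with y hy
        rw [indicator_of_mem (hin y hy)]
      have e3 : ∫ y, (Ln n L).indicator (Q i) (Function.update v i y) ∂(nu L) =
          lam * ∫ y, ∑ j, fderiv ℝ (fun y => F (Function.update v i y)) y
            (Pi.single j 1) ^ 2 ∂(nu L) := by
        rw [← integral_const_mul]
        refine integral_congr_ae ?_
        filter_upwards [ae_L hL] with y hy
        rw [indicator_of_mem (hin y hy)]
        simp only [hQ]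
        congr 1
        refine Finset.sum_congr rfl fun j _ => ?_
        have hd : HasFDerivAt (fun y => F (Function.update v i y))
            ((fderiv ℝ F (Function.update v i y)).comp
              (ContinuousLinearMap.pi (Pi.single i (ContinuousLinearMap.id ℝ (Fin k → ℝ))))) y :=
          (hF.differentiable (by norm_num) _).hasFDerivAt.comp y (hasFDerivAt_update v y)
        rw [hd.fderiv, ContinuousLinearMap.comp_apply]
        congr 2
        funext l
        by_cases hl : l = i
        · subst hl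
          simp
        · simp [Pi.single_eq_of_ne hl]
      rw [e1, e2, e3]
      exact hp
    · push Not at hv
      obtain ⟨l, hl, hvl⟩ := hv
      have hout : ∀ y, Function.update v i y ∉ Ln n L := by
        intro y hy
        have := hy l
        rw [Function.update_of_ne hl] at this
        exact hvl this
      simp only [indicator_of_notMem (hout _)]
      simp

end Pool.Agent.T2h95.OD
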