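import Pool.Agent.T2h95.OD.Stm

/-!
# Project OD, task WP5: weights
-/

set_option autoImplicit false

namespace Pool.Agent.T2h95.OD

open MeasureTheory Set Filter Topology
open scoped ENNReal
open Pool.Agent.T2h95.OC

theorem wp5_int {ρ : ℝ → ℝ} (h : LCD ρ) : Integrable ρ := by
  refine ⟨h.meas.aestronglyMeasurable, ?_⟩
  rw [hasFiniteIntegral_iff_ofReal (ae_of_all _ h.nonneg), h.one]
  exact ENNReal.one_lt_top

theorem wp5_contL {ρ : ℝ → ℝ} (h : Integrable ρ) : Continuous fun x : ℝ => ∫ y in Iio x, ρ y := by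
  have hF : (fun x : ℝ => ∫ y in Iio x, ρ y) =
      fun x => (∫ y in Iic (0 : ℝ), ρ y) + ∫ y in (0 : ℝ)..x, ρ y := by
    funext x
    have := intervalIntegral.integral_Iic_sub_Iic (f := ρ) (μ := volume) (a := 0) (b := x)
      h.integrableOn h.integrableOn
    rw [← integral_Iic_eq_integral_Iio]
    linarith
  rw [hF]
  exact continuous_const.add
    (intervalIntegral.continuous_primitive (fun a b => h.intervalIntegrable) 0)

theorem wp5_contR {ρ : ℝ → ℝ} (h : Integrable ρ) : Continuous fun x : ℝ => ∫ y in Ioi x, ρ y := by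
  have hF : (fun x : ℝ => ∫ y in Ioi x, ρ y) =
      fun x => (∫ y, ρ y) - ∫ y in Iio x, ρ y := by
    funext x
    rw [← integral_Iic_eq_integral_Iio,
      ← integral_add_compl (measurableSet_Iic (a := x)) h, compl_Iic]
    ring
  rw [hF]
  exact continuous_const.sub (wp5_contL h)

theorem t_WP5 (h1 : S_LD5) (h2 : S_MR5) (h3 : S_TL5) (h4 : S_MED) (h5 : S_MIL) (h6 : S_MAXD)
    (h7 : S_MM2) (h8 : S_VLB) (h9 : S_HAR) : S_WP5 := by
  intro α β H φ k hP c d hc hcd hd
  obtain ⟨hA, hL⟩ := h1 α β H φ k hP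
  set A := A5 α β k φ with hAd
  set ρ := r5 α β k φ with hρd
  have hρe : ρ = (Icc α β).indicator fun x => φ x ^ k / A := rfl
  have hρin : ∀ x ∈ Icc α β, ρ x = φ x ^ k / A := fun x hx => by
    rw [hρe, indicator_of_mem hx]
  have hρout : ∀ x, x ∉ Icc α β → ρ x = 0 := fun x hx => by
    rw [hρe, indicator_of_notMem hx]
  have hint := wp5_int hL
  obtain ⟨m, hm0, hmR, hmL⟩ := h4 ρ hL
  obtain ⟨hMR, hML⟩ := h5 ρ m hL hm0 hmR hmL
  have hmax := h6 ρ m hL hm0 hmR hmL
  have hV := h8 ρ (2 * ρ m) hL.nonneg hL.meas hL.one (by positivity) hmax (h7 ρ hL ⟨m, hm0⟩)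
  -- the median is inside
  have hmβ : m < β := by
    by_contra hcon
    push Not at hcon
    have : ∫ y in Ioi m, ρ y = 0 := by
      refine setIntegral_eq_zero_of_forall_eq_zero fun y hy => ?_
      exact hρout y fun h => absurd h.2 (not_le.2 (lt_of_le_of_lt hcon hy))
    rw [this] at hmR
    norm_num at hmR
  have hmα : α < m := by
    by_contra hcon
    push Not at hcon
    have : ∫ y in Iio m, ρ y = 0 := by
      refine setIntegral_eq_zero_of_forall_eq_zero fun y hy => ?_
      exact hρout y fun h => absurd h.1 (not_le.2 (lt_of_lt_of_le hy hcon))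
    rw [this] at hmL
    norm_num at hmL
  set c' := min c m with hc'
  set d' := max d m with hd'
  have hαc : α < c' := lt_min hc hmα
  have hdβ : d' < β := max_lt hd hmβ
  have hcm : c' ≤ m := min_le_right _ _
  have hmd : m ≤ d' := le_max_right _ _
  have hcd' : c' ≤ d' := hcm.trans hmd
  -- the clamp
  set cl : ℝ → ℝ := fun x => max c' (min d' x) with hcl
  have hclc : Continuous cl := by rw [hcl]; fun_prop
  have hcl1 : ∀ x, c' ≤ cl x := fun x => le_max_left _ _
  have hcl2 : ∀ x, cl x ≤ d' := fun x => max_le hcd' (min_le_left _ _)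
  have hclin : ∀ x, cl x ∈ Ioo α β := fun x =>
    ⟨lt_of_lt_of_le hαc (hcl1 x), lt_of_le_of_lt (hcl2 x) hdβ⟩
  have hclid : ∀ x, c' ≤ x → x ≤ d' → cl x = x := fun x hx1 hx2 => by
    simp only [hcl]
    rw [min_eq_right hx2, max_eq_right hx1]
  have hclhi : ∀ x, d' ≤ x → cl x = d' := fun x hx => by
    simp only [hcl]
    rw [min_eq_left hx, max_eq_right hcd']
  have hcllo : ∀ x, x ≤ c' → cl x = c' := fun x hx => by
    simp only [hcl]
    rw [min_eq_right (hx.trans hcd'), max_eq_left hx]
  -- tails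
  set TL : ℝ → ℝ := fun x => ∫ y in Iio x, ρ y with hTL
  set TR : ℝ → ℝ := fun x => ∫ y in Ioi x, ρ y with hTR
  have hTLc : Continuous TL := wp5_contL hint
  have hTRc : Continuous TR := wp5_contR hint
  have hTL0 : ∀ x, 0 ≤ TL x := fun x => integral_nonneg fun y => hL.nonneg y
  have hTR0 : ∀ x, 0 ≤ TR x := fun x => integral_nonneg fun y => hL.nonneg y
  have hTLm : ∀ x y, x ≤ y → TL x ≤ TL y := fun x y hxy =>
    setIntegral_mono_set hint.integrableOn (ae_of_all _ hL.nonneg)
      (Iio_subset_Iio hxy).eventuallyLE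
  have hTRm : ∀ x y, x ≤ y → TR y ≤ TR x := fun x y hxy =>
    setIntegral_mono_set hint.integrableOn (ae_of_all _ hL.nonneg)
      (Ioi_subset_Ioi hxy).eventuallyLE
  have hTLm' : TL m = 1 / 2 := hmL
  have hTRm' : TR m = 1 / 2 := hmR
  have hden : ∀ x ∈ Ioo α β, 0 < φ x ^ k / A := fun x hx => div_pos (pow_pos (hP.pos x hx) k) hA
  have hρio : ∀ x ∈ Ioo α β, ρ x = φ x ^ k / A := fun x hx => hρin x ⟨hx.1.le, hx.2.le⟩
  have hρpos : ∀ x, 0 < ρ (cl x) := fun x => by
    rw [hρio _ (hclin x)]; exact hden _ (hclin x)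
  set θ : ℝ → ℝ := fun x => min (TL (cl x)) (TR (cl x)) / (φ (cl x) ^ k / A) with hθ
  have hθρ : ∀ x, θ x = min (TL (cl x)) (TR (cl x)) / ρ (cl x) := fun x => by
    simp only [hθ]
    rw [hρio _ (hclin x)]
  have hθc : Continuous θ := by
    refine Continuous.div ?_ ?_ fun x => (hden _ (hclin x)).ne'
    · exact (hTLc.comp hclc).min (hTRc.comp hclc)
    · exact ((hP.cont.comp hclc).pow k).div_const A
  have hθ0 : ∀ x, 0 ≤ θ x := fun x => by
    rw [hθρ]
    exact div_nonneg (le_min (hTL0 _) (hTR0 _)) (hρpos x).le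
  -- the bound by the value at the median
  have hθm : ∀ x, θ x ≤ 1 / (2 * ρ m) := by
    intro x
    rw [hθρ, div_le_iff₀ (hρpos x)]
    rcases le_total m (cl x) with h | h
    · exact (min_le_right _ _).trans (hMR _ h)
    · exact (min_le_left _ _).trans (hML _ h)
  refine ⟨θ, hθc, hθ0, ?_, ?_, ?_⟩
  · refine h9 ρ θ m hL.nonneg hL.meas hL.one hθc hθ0 ?_ ?_
    · intro x hx
      change TR x ≤ θ x * ρ x
      rcases le_total x d' with hxd | hxd
      · have e : cl x = x := hclid x (hcm.trans hx) hxd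
        have hp := hρpos x
        rw [hθρ, e]
        rw [e] at hp
        rw [div_mul_cancel₀ _ hp.ne']
        refine le_min ?_ le_rfl
        calc TR x ≤ TR m := hTRm m x hx
          _ = TL m := by rw [hTRm', hTLm']
          _ ≤ TL x := hTLm m x hx
      · have e : cl x = d' := hclhi x hxd
        have hp := hρpos x
        rw [hθρ, e]
        rw [e] at hp
        have hmin : min (TL d') (TR d') = TR d' := by
          refine min_eq_right ?_
          calc TR d' ≤ TR m := hTRm m d' hmd
            _ = TL m := by rw [hTRm', hTLm']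
            _ ≤ TL d' := hTLm m d' hmd
        rw [hmin, div_mul_eq_mul_div, le_div_iff₀ hp]
        have := (h2 ρ hL d' x hxd).1
        change ρ d' * TR x ≤ ρ x * TR d' at this
        linarith
    · intro x hx
      change TL x ≤ θ x * ρ x
      rcases le_total c' x with hxc | hxc
      · have e : cl x = x := hclid x hxc (hx.trans hmd)
        have hp := hρpos x
        rw [hθρ, e]
        rw [e] at hp
        rw [div_mul_cancel₀ _ hp.ne']
        refine le_min le_rfl ?_
        calc TL x ≤ TL m := hTLm x m hx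
          _ = TR m := by rw [hTRm', hTLm']
          _ ≤ TR x := hTRm x m hx
      · have e : cl x = c' := hcllo x hxc
        have hp := hρpos x
        rw [hθρ, e]
        rw [e] at hp
        have hmin : min (TL c') (TR c') = TL c' := by
          refine min_eq_left ?_
          calc TL c' ≤ TL m := hTLm c' m hcm
            _ = TR m := by rw [hTRm', hTLm']
            _ ≤ TR c' := hTRm c' m hcm
        rw [hmin, div_mul_eq_mul_div, le_div_iff₀ hp]
        have := (h2 ρ hL x c' hxc).2
        change ρ c' * TL x ≤ ρ x * TL c' at this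
        linarith
  · intro x
    have e1 : θ x ^ 2 ≤ (1 / (2 * ρ m)) ^ 2 := pow_le_pow_left₀ (hθ0 x) (hθm x) 2
    have e2 : (1 / (2 * ρ m)) ^ 2 = 12 * (1 / (12 * (2 * ρ m) ^ 2)) := by
      field_simp
    have e3 : 1 / (12 * (2 * ρ m) ^ 2) ≤ V5 α β k φ := hV
    rw [e2] at e1
    linarith
  · intro x hx D hD
    have hk : (0 : ℝ) < (k : ℝ) + 1 := by positivity
    have e : cl x = x := hclid x ((min_le_left _ _).trans hx.1) (hx.2.trans (le_max_left _ _))
    have hp := hρpos x
    have hin := hclin x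
    rw [hθρ, e]
    rw [e] at hp hin
    obtain ⟨hD1, hD2⟩ := h3 α β H φ k hP x hin D hD
    rcases lt_trichotomy D 0 with h | h | h
    · have := hD1 h
      change |D| * TR x ≤ φ x / (k + 1) * ρ x at this
      rw [div_mul_eq_mul_div, div_le_iff₀ hp]
      calc min (TL x) (TR x) * |D| ≤ TR x * |D| :=
            mul_le_mul_of_nonneg_right (min_le_right _ _) (abs_nonneg _)
        _ = |D| * TR x := mul_comm _ _
        _ ≤ _ := this
    · rw [h, abs_zero, mul_zero]
      exact div_nonneg (hP.nonneg x) hk.le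
    · have := hD2 h
      change |D| * TL x ≤ φ x / (k + 1) * ρ x at this
      rw [div_mul_eq_mul_div, div_le_iff₀ hp]
      calc min (TL x) (TR x) * |D| ≤ TL x * |D| :=
            mul_le_mul_of_nonneg_right (min_le_left _ _) (abs_nonneg _)
        _ = |D| * TL x := mul_comm _ _
        _ ≤ _ := this

end Pool.Agent.T2h95.OD
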