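import Pool.Agent.T2h95.OC.All
import Pool.Agent.T2h95.OC.SYV
import Pool.Agent.T2h95.OC.FUB2
import Pool.Agent.T2h95.OD.BD5
import Pool.Agent.T2h95.OD.CB5
import Pool.Agent.T2h95.OD.CH5
import Pool.Agent.T2h95.OD.CU5
import Pool.Agent.T2h95.OD.EU5
import Pool.Agent.T2h95.OD.FA5
import Pool.Agent.T2h95.OD.FC5
import Pool.Agent.T2h95.OD.FU5
import Pool.Agent.T2h95.OD.GD5
import Pool.Agent.T2h95.OD.GE5
import Pool.Agent.T2h95.OD.GR5
import Pool.Agent.T2h95.OD.IN5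
import Pool.Agent.T2h95.OD.LC5
import Pool.Agent.T2h95.OD.LD5
import Pool.Agent.T2h95.OD.LV5
import Pool.Agent.T2h95.OD.MO5
import Pool.Agent.T2h95.OD.MR5
import Pool.Agent.T2h95.OD.PH5
import Pool.Agent.T2h95.OD.PO5
import Pool.Agent.T2h95.OD.SM5
import Pool.Agent.T2h95.OD.SY5
import Pool.Agent.T2h95.OD.TH5
import Pool.Agent.T2h95.OD.TL5
import Pool.Agent.T2h95.OD.TN5
import Pool.Agent.T2h95.OD.WP5

/-!
# Ordered tuples of points of a body with homothetic sections: the parts of the proof, put together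
-/

set_option autoImplicit false

namespace Pool.Agent.T2h95.OD

open Pool.Agent.T2h95.OC

theorem wp5_all : S_WP5 := t_WP5 t_LD5 t_MR5 t_TL5 t_MED t_MIL t_MAXD t_MM2 t_VLB t_HAR

theorem in5_all : S_IN5 := t_IN5 t_LD5 lc_all

theorem fu5_all : S_FU5 := t_FU5 t_FA5 t_FUB2 t_LD5

theorem cu5_all : S_CU5 := t_CU5 t_TN5

theorem syv_all : S_SYV := t_SYV Pool.Agent.R372.OP.SYM.main push_all t_EXH

theorem sy5_all : S_SY5 := t_SY5 syv_all t_QFE wp5_all t_LD5 lc_all fu5_all t_FC5 in5_all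

end Pool.Agent.T2h95.OD
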