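import Pool.Agent.T2h95.OC.Stm2

/-!
# Ordered tuples of points of a body with homothetic sections: statements (project OD)

`L ⊂ ℝ^k` a convex body with barycentre `0`, `φ ≥ 0` concave on `[α, β]`, `w ∈ ℝ^k`,
`D = {(x, z) ∈ ℝ × ℝ^k | α ≤ x ≤ β, z ∈ x w + φ(x) L}` (cylinders, oblique cones, suspensions over
`L`, bodies of revolution, ...), `P` a partial order on `n` points,
`K = {(x_i, z_i)_i ∈ D^n | x_i ≤ x_j for i <_P j} ⊂ ℝ^{n(k+1)}`.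
Theorem: if `L` satisfies the KLS inequality (Poincare form) with constant `κ` then `K` does
(Cheeger form) with constant `c/√κ`, `c` absolute.

Proof (compare part 2 of project OC, folder `T2h95/OC`, files `Stm2.lean` and the proofs there, most of
which can be adapted). `ν` = law of `x` under `D` (density proportional to `φ^k`), `V = Var ν`,
`λ` = Poincare constant of `L`, `H = max φ`, `g(x)` = mean over `v ∈ L^n` of `f(x, x w + φ(x) v)`.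
`Var_K f` = mean of the variance over the fibres (`≤ λ H²` times the energy, tensorisation) + `Var g`;
`Var g ≤ E ∑ 4 θ(x_i)² (∂_i g)²` by Hardy at the median, `θ = min(T_L, T_R)/ρ` (`T` = tails), `θ² ≤ 12 V`
and `θ |φ'| ≤ φ/(k+1)`: the tail of `φ^k` is at most the one of the tangent. Finally
`|v|² ≤ 3 (k+1)² λ` on `L`.
-/

set_option autoImplicit false

namespace Pool.Agent.T2h95.OD

open MeasureTheory Set Filter Topology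
open scoped ENNReal InnerProductSpace
open Pool.Agent.R972.OP (pd)
open Pool.Agent.T2h95.OC

/-- `φ` is concave on `[α, β]`, continuous, `0 ≤ φ ≤ H`, with maximum `H > 0` on `[α, β]` -/
structure HB (α β H : ℝ) (φ : ℝ → ℝ) : Prop where
  lt : α < β
  hpos : 0 < H
  cont : Continuous φ
  conc : ConcaveOn ℝ (Icc α β) φ
  nonneg : ∀ x, 0 ≤ φ x
  le : ∀ x, φ x ≤ H
  att : ∃ x ∈ Icc α β, φ x = H
  pos : ∀ x ∈ Ioo α β, 0 < φ x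

/-- `∫ φ^k` -/
noncomputable def A5 (α β : ℝ) (k : ℕ) (φ : ℝ → ℝ) : ℝ := ∫ x in Icc α β, φ x ^ k

/-- the density of `x` -/
noncomputable def r5 (α β : ℝ) (k : ℕ) (φ : ℝ → ℝ) : ℝ → ℝ :=
  (Icc α β).indicator fun x => φ x ^ k / A5 α β k φ

/-- its variance -/
noncomputable def V5 (α β : ℝ) (k : ℕ) (φ : ℝ → ℝ) : ℝ :=
  ProbabilityTheory.variance (fun x : ℝ => x) (law (r5 α β k φ))

/-! ### 1. the line -/

/-- **LD5**. Proof. `A5 > 0`. Log-concavity: for `x, y ∈ [α, β]`, `0 < t < 1`: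
`φ((1-t)x + ty) ≥ (1-t) φ x + t φ y ≥ φ(x)^{1-t} φ(y)^t` (`Real.geom_mean_le_arith_mean2_weighted`),
raise to the power `k`; if `x` or `y` is outside the left side is `0`. -/
def S_LD5 : Prop := ∀ (α β H : ℝ) (φ : ℝ → ℝ) (k : ℕ), HB α β H φ → 0 < A5 α β k φ ∧
  LCD (r5 α β k φ)

/-- **MR5** (the Mills ratio is monotone). Proof. As `MIL` (`T2h95/OC/MIL.lean`): for `x ≤ y`, `s > 0`,
`ρ x ρ(y + s) ≤ ρ y ρ(x + s)` (four points), integrate over `s > 0`. Mirrored for the left tail. -/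
def S_MR5 : Prop := ∀ ρ : ℝ → ℝ, LCD ρ → ∀ x y : ℝ, x ≤ y →
  (ρ x * ∫ z in Ioi y, ρ z) ≤ ρ y * (∫ z in Ioi x, ρ z) ∧
  (ρ y * ∫ z in Iio x, ρ z) ≤ ρ x * ∫ z in Iio y, ρ z

/-- **TL5** (tails against the tangent). Proof. Right: `x ∈ (α, β)`, `D < 0`, `φ y ≤ φ x + D (y - x)`.
For `y ∈ [x, β]` `φ(y)^k ≤ (φ x - |D| (y - x))^k` (the right side is `≥ 0`), so
`∫_{x}^{β} φ^k ≤ ∫_0^{φ x/|D|} (φ x - |D| s)^k ds = φ(x)^{k+1}/((k+1)|D|)`. The left side is the same,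
mirrored. -/
def S_TL5 : Prop := ∀ (α β H : ℝ) (φ : ℝ → ℝ) (k : ℕ), HB α β H φ → ∀ x ∈ Ioo α β, ∀ D : ℝ,
  (∀ y ∈ Icc α β, φ y ≤ φ x + D * (y - x)) →
  (D < 0 → |D| * ∫ z in Ioi x, r5 α β k φ z ≤ φ x / (k + 1) * r5 α β k φ x) ∧
  (0 < D → |D| * ∫ z in Iio x, r5 α β k φ z ≤ φ x / (k + 1) * r5 α β k φ x)

/-- **WP5** (weights). Proof from `LD5`, `MR5`, `TL5`, `MED`, `MIL`, `MAXD`, `MM2`, `VLB`, `HAR`. `m` =
median (`MED`), `m ∈ (α, β)`; `c' = min c m`, `d' = max d m`;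
`Θ x = min (∫_{Iio x} ρ) (∫_{Ioi x} ρ) / ρ x` on `[c', d'] ⊂ (α, β)` (`ρ > 0` and continuous there, tails
continuous) and `θ x = Θ (clamp of x to [c', d'])`. Hardy's condition (`HAR`, at `m`): `x ∈ [m, d']`: the right
tail is the minimum. `x > d'`: `MR5` with `d' ≤ x`. The same on the left. `θ ≤ 1/(2ρ m)` by
`MIL`, so `4 θ² ≤ 1/ρ(m)² ≤ 48 Var` (`MAXD`, `VLB` with `M = 2 ρ m`), `θ² ≤ 12 Var`. Last: `TL5` if `D ≠ 0`
(the minimum is at most each of the tails). -/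
def S_WP5 : Prop := ∀ (α β H : ℝ) (φ : ℝ → ℝ) (k : ℕ), HB α β H φ → ∀ c d : ℝ, α < c → c ≤ d →
  d < β → ∃ θ : ℝ → ℝ, Continuous θ ∧ (∀ x, 0 ≤ θ x) ∧
    WP (law (r5 α β k φ)) (fun x => 4 * θ x ^ 2) ∧ (∀ x, θ x ^ 2 ≤ 12 * V5 α β k φ) ∧
    ∀ x ∈ Icc c d, ∀ D : ℝ, (∀ y ∈ Icc α β, φ y ≤ φ x + D * (y - x)) →
      θ x * |D| ≤ φ x / (k + 1)

/-- **SM5** (smoothing). Proof. `s m x = (1/δ) ∫_x^{x+δ} φ`, `δ = (β - d)/(2(m+1))` as in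
`T2h95/OC/SMA.lean`; `deriv = (φ(x+δ) - φ x)/δ`, which is monotone in `δ` for concave `φ` and bounded
(by `2H/min(c - α, β - d)`), so it converges to the right derivative `D x`; the right derivative of a concave
function is a supergradient: for `y > x` slopes decrease, for `y < x` slope(y, x) ≥ slope(x, x+δ).
Measurability of `D`: limit of continuous functions on `[c, d]` (put `D = 0` outside). -/
def S_SM5 : Prop := ∀ (α β H : ℝ) (φ : ℝ → ℝ), HB α β H φ → ∀ c d : ℝ, α < c → c ≤ d → d < β →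
  ∃ (s : ℕ → ℝ → ℝ) (D : ℝ → ℝ) (B : ℝ), (∀ m, ContDiff ℝ 1 (s m)) ∧
    (∀ m x, 0 ≤ s m x ∧ s m x ≤ H) ∧ (∀ m, ∀ x ∈ Icc c d, |deriv (s m) x| ≤ B) ∧
    (∀ x, Tendsto (fun m => s m x) atTop (𝓝 (φ x))) ∧ Measurable D ∧ (∀ x, |D x| ≤ B) ∧
    ∀ x ∈ Icc c d, Tendsto (fun m => deriv (s m) x) atTop (𝓝 (D x)) ∧
      ∀ y ∈ Icc α β, φ y ≤ φ x + D x * (y - x)

/-- **MO5** (second moment of `φ`). Proof. Let `φ x₀ = H`, `x₀ ∈ [α, β]`, `M_j = ∫_α^β φ^j`. For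
`0 < δ < 1` the substitution `x = x₀ + (1-δ)(y - x₀)` maps `[α, β]` into itself, and
`φ x ≥ δ H + (1-δ) φ y`, so by the first two terms of the binomial theorem
`M_{k+1} ≥ (1-δ) ∫ (δ H + (1-δ) φ y)^{k+1} dy ≥ (1-δ)^{k+2} M_{k+1} + (k+1) δ (1-δ)^{k+1} H M_k`;
`1 - (1-δ)^{k+2} ≤ (k+2) δ`, so `(k+2) M_{k+1} ≥ (k+1)(1-δ)^{k+1} H M_k`; `δ → 0`: the mean of `φ`
is `≥ (k+1)/(k+2) H ≥ H/2`; the mean of `φ²` is at least the square (or AM-GM: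
`φ² ≥ H φ - H²/4`, mean `≥ H²/4`). -/
def S_MO5 : Prop := ∀ (α β H : ℝ) (φ : ℝ → ℝ) (k : ℕ), HB α β H φ →
  H ^ 2 / 4 ≤ ∫ x, φ x ^ 2 ∂law (r5 α β k φ)

/-! ### 2. the fibres -/

section

variable {n k : ℕ}

/-- convex body with barycentre `0`, in coordinates -/
structure LB (L : Set (Fin k → ℝ)) : Prop where
  conv : Convex ℝ L
  comp : IsCompact L
  pos : 0 < volume L
  cen : ∀ j, ∫ v in L, v j = 0

/-- mean over `L` -/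
noncomputable def EL (L : Set (Fin k → ℝ)) (u : (Fin k → ℝ) → ℝ) : ℝ :=
  (∫ v in L, u v) / (volume L).toReal

/-- Poincare inequality with constant `lam` on `L` -/
def PL (L : Set (Fin k → ℝ)) (lam : ℝ) : Prop := ∀ u : (Fin k → ℝ) → ℝ, ContDiff ℝ 1 u →
  EL L (fun v => u v ^ 2) - EL L u ^ 2 ≤ lam * EL L fun v => ∑ j, fderiv ℝ u v (Pi.single j 1) ^ 2

/-- `L^n` -/
def Ln (n : ℕ) (L : Set (Fin k → ℝ)) : Set (Fin n → Fin k → ℝ) := {v | ∀ i, v i ∈ L}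

/-- the point of the fibre with parameter `v` -/
noncomputable def s5 (w : Fin k → ℝ) (φ : ℝ → ℝ) (x : Fin n → ℝ) (v : Fin n → Fin k → ℝ) :
    Fin n → Fin k → ℝ := fun i j => x i * w j + φ (x i) * v i j

/-- mean over the fibre -/
noncomputable def f5 (w : Fin k → ℝ) (φ : ℝ → ℝ) (L : Set (Fin k → ℝ))
    (F : (Fin n → ℝ) × (Fin n → Fin k → ℝ) → ℝ) (x : Fin n → ℝ) : ℝ :=
  (∫ v in Ln n L, F (x, s5 w φ x v)) / (volume (Ln n L)).toReal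

/-- derivative in the direction of `x_i` -/
noncomputable def eX (f : (Fin n → ℝ) × (Fin n → Fin k → ℝ) → ℝ) (i : Fin n)
    (p : (Fin n → ℝ) × (Fin n → Fin k → ℝ)) : ℝ := fderiv ℝ f p (Pi.single i 1, 0)

/-- derivative in the direction of `z_{ij}` -/
noncomputable def eZ (f : (Fin n → ℝ) × (Fin n → Fin k → ℝ) → ℝ) (i : Fin n) (j : Fin k)
    (p : (Fin n → ℝ) × (Fin n → Fin k → ℝ)) : ℝ := fderiv ℝ f p (0, Pi.single i (Pi.single j 1))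

/-- derivative along the fibres with slope `D` in the coordinate `i` -/
noncomputable def eV (w : Fin k → ℝ) (f : (Fin n → ℝ) × (Fin n → Fin k → ℝ) → ℝ) (i : Fin n)
    (D : ℝ) (v : Fin k → ℝ) (p : (Fin n → ℝ) × (Fin n → Fin k → ℝ)) : ℝ :=
  eX f i p + ∑ j, (w j + D * v j) * eZ f i j p

/-- one point -/
def D5 (α β : ℝ) (w : Fin k → ℝ) (φ : ℝ → ℝ) (L : Set (Fin k → ℝ)) : Set (ℝ × (Fin k → ℝ)) :=
  {p | (α ≤ p.1 ∧ p.1 ≤ β) ∧ ∃ v ∈ L, ∀ j, p.2 j = p.1 * w j + φ p.1 * v j}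

/-- ordered tuples, in coordinates -/
def K5 (D : Set (ℝ × (Fin k → ℝ))) (R : Fin n → Fin n → Prop) :
    Set ((Fin n → ℝ) × (Fin n → Fin k → ℝ)) := {p | p.1 ∈ CR R ∧ ∀ i, (p.1 i, p.2 i) ∈ D}

/-- energy density: `V` = variance, `W = |w|²`, `lam`, `H` -/
noncomputable def G5 (V W lam H : ℝ) (f : (Fin n → ℝ) × (Fin n → Fin k → ℝ) → ℝ)
    (p : (Fin n → ℝ) × (Fin n → Fin k → ℝ)) : ℝ :=
  ∑ i, (144 * V * eX f i p ^ 2 + (144 * V * W + 36 * lam * H ^ 2) * ∑ j, eZ f i j p ^ 2)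

end

/-- **CR5** (circumradius). Proof. `v ∈ L`, `u = v`, `h = ∑ v_j²`. For `0 < δ < 1`,
`L_δ = δ v + (1-δ) L ⊆ L` (convexity), and (`⟨y, u⟩` has mean `0` on `L`)
`∫_L ⟨z,u⟩² ≥ ∫_{L_δ} ⟨z,u⟩² = (1-δ)^k ∫_L (δ h + (1-δ)⟨y,u⟩)² dy ≥ (1-δ)^k δ² h² |L|`; with
`δ = 1/(k+1)`: `(1-δ)^k ≥ 1/3` (`(1 + 1/k)^k ≤ e ≤ 3`; `k ≥ 1`), and the left side is `≤ λ h |L|` by
the Poincare inequality for the linear function. So `h ≤ 3 (k+1)² λ`. (`v ↦ δ v₀ + (1-δ) v` scales the volume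
by `(1-δ)^k`: `Measure.addHaar_smul`.) -/
def S_CR5 : Prop := ∀ (k : ℕ) (L : Set (Fin k → ℝ)) (lam : ℝ), 1 ≤ k → LB L → PL L lam →
  0 ≤ lam → ∀ v ∈ L, ∑ j, v j ^ 2 ≤ 3 * (k + 1) ^ 2 * lam

/-- **TN5** (tensorisation). Proof. Efron-Stein for the product of the normalised measures (library:
`Pool.Agent.T2H99.AW.efron_stein`, or a direct induction on `n`):
`Var F ≤ ∑_i E Var_i F`, and `Var_i F ≤ lam E_i ∑_j (∂_{ij} F)²` by `PL` for the function of `v_i`. -/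
def S_TN5 : Prop := ∀ (n k : ℕ) (L : Set (Fin k → ℝ)) (lam : ℝ), LB L → PL L lam → 0 ≤ lam →
  ∀ F : (Fin n → Fin k → ℝ) → ℝ, ContDiff ℝ 1 F →
  (∫ v in Ln n L, F v ^ 2) / (volume (Ln n L)).toReal -
    ((∫ v in Ln n L, F v) / (volume (Ln n L)).toReal) ^ 2 ≤
  lam * ((∫ v in Ln n L, ∑ i, ∑ j, fderiv ℝ F v (Pi.single i (Pi.single j 1)) ^ 2) /
    (volume (Ln n L)).toReal)

/-- **CU5** (variance over a fibre). Proof from `TN5` for `v ↦ f (x, s5 w φ x v)`, whose partial derivatives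
are `φ(x_i) eZ f i j`, `φ ≤ H`. -/
def S_CU5 : Prop := ∀ (n k : ℕ) (α β H : ℝ) (φ : ℝ → ℝ) (w : Fin k → ℝ) (L : Set (Fin k → ℝ))
  (lam : ℝ), HB α β H φ → LB L → PL L lam → 0 ≤ lam →
  ∀ f : (Fin n → ℝ) × (Fin n → Fin k → ℝ) → ℝ, ContDiff ℝ 1 f → ∀ x : Fin n → ℝ,
  f5 w φ L (fun p => f p ^ 2) x ≤ f5 w φ L f x ^ 2 +
    f5 w φ L (fun p => ∑ i, ∑ j, lam * H ^ 2 * eZ f i j p ^ 2) x

/-- **FC5** (continuity of the mean over the fibre). See `T2h95/OC/FMC.lean`. -/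
def S_FC5 : Prop := ∀ (n k : ℕ) (w : Fin k → ℝ) (φ : ℝ → ℝ) (L : Set (Fin k → ℝ))
  (F : (Fin n → ℝ) × (Fin n → Fin k → ℝ) → ℝ), LB L → Continuous φ → Continuous F →
  Continuous (f5 w φ L F)

/-- **GD5** (differentiation of the mean over the fibre). See `T2h95/OC/GDF.lean`. -/
def S_GD5 : Prop := ∀ (n k : ℕ) (w : Fin k → ℝ) (φ : ℝ → ℝ) (L : Set (Fin k → ℝ))
  (f : (Fin n → ℝ) × (Fin n → Fin k → ℝ) → ℝ), LB L → ContDiff ℝ 1 φ → ContDiff ℝ 1 f →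
  ContDiff ℝ 1 (f5 w φ L f) ∧ ∀ (i : Fin n) (x : Fin n → ℝ), pd (f5 w φ L f) i x =
    (∫ v in Ln n L, eV w f i (deriv φ (x i)) (v i) (x, s5 w φ x v)) / (volume (Ln n L)).toReal

/-- **BD5** (pointwise bound). Proof. `(X + ∑ (w_j + D v_j) Z_j)² ≤ 3 (X² + W ∑ Z² + D² |v|² ∑ Z²)`
(Cauchy-Schwarz), `4 θ² · 3 ≤ 144 V`, `12 θ² D² |v|² ≤ 12 (H/(k+1))² · 3 (k+1)² lam = 36 lam H²`. -/
def S_BD5 : Prop := ∀ (k : ℕ) (X V H lam θ D : ℝ) (w v Z : Fin k → ℝ), 0 ≤ θ →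
  θ ^ 2 ≤ 12 * V → θ * |D| ≤ H / (k + 1) → 0 ≤ H → ∑ j, v j ^ 2 ≤ 3 * (k + 1) ^ 2 * lam →
  4 * θ ^ 2 * (X + ∑ j, (w j + D * v j) * Z j) ^ 2 ≤
    144 * V * X ^ 2 + (144 * V * (∑ j, w j ^ 2) + 36 * lam * H ^ 2) * ∑ j, Z j ^ 2

/-- **LV5** (level `ε`). Proof from `EPS`, `WP5`, `SM5`, `GD5`, `BD5`, `CR5`, `LD5`. As
`T2h95/OC/LVB.lean`: `c = q 0`, `d = q 1` in `(α, β)`; `θ` from `WP5`; `s m`, `D` from `SM5`; `EPS` with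
`τ = 4 θ²` for `G_m = f5 w (s m) L f`; by Jensen
`(pd G_m i x)² ≤` mean over `L^n` of `eV w f i (deriv (s m) (x i)) (v i) (x, s5 w (s m) x v)²`; `m → ∞` by
dominated convergence: in the limit `deriv (s m) (x i)` is replaced by `D (x i)`; then `BD5` with
`θ = θ(x_i)`, `θ |D| ≤ φ/(k+1) ≤ H/(k+1)`, `CR5`. -/
def S_LV5 : Prop := ∀ (α β H : ℝ) (φ : ℝ → ℝ) (k : ℕ) (w : Fin k → ℝ) (L : Set (Fin k → ℝ))
  (lam : ℝ), 1 ≤ k → HB α β H φ → LB L → PL L lam → 0 ≤ lam → ∀ (ε : ℝ) (q : ℝ → ℝ),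
  0 < ε → ε < 1 / 2 → QF (law (r5 α β k φ)) ε q → ∀ (n : ℕ) (R : Fin n → Fin n → Prop)
  (f : (Fin n → ℝ) × (Fin n → Fin k → ℝ) → ℝ), ContDiff ℝ 1 f →
  (pw n (law (r5 α β k φ)) (CR R ∩ Bx n (q 0) (q 1))).toReal *
      (∫ x in CR R ∩ Bx n (q 0) (q 1), f5 w φ L f x ^ 2 ∂pw n (law (r5 α β k φ))) -
    (∫ x in CR R ∩ Bx n (q 0) (q 1), f5 w φ L f x ∂pw n (law (r5 α β k φ))) ^ 2 ≤
  (pw n (law (r5 α β k φ)) (CR R ∩ Bx n (q 0) (q 1))).toReal *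
    ∫ x in CR R ∩ Bx n (q 0) (q 1),
      f5 w φ L (G5 (V5 α β k φ) (∑ j, w j ^ 2) lam H f) x ∂pw n (law (r5 α β k φ))

/-- **IN5** (continuous functions are integrable). See `T2h95/OC/INT.lean`. -/
def S_IN5 : Prop := ∀ (α β H : ℝ) (φ : ℝ → ℝ) (k : ℕ), HB α β H φ → ∀ (n : ℕ)
  (h : (Fin n → ℝ) → ℝ), Continuous h → Integrable h (pw n (law (r5 α β k φ)))

/-- **LC5** (on the cone). Proof from `QFE` (with the `WP` of `WP5` for some `c = d`), `LD5`, `LV5`,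
`IN5`, `FC5`, `EXH`, `LC` (no atoms, probability); see `T2h95/OC/LVC.lean`. -/
def S_LC5 : Prop := ∀ (α β H : ℝ) (φ : ℝ → ℝ) (k : ℕ) (w : Fin k → ℝ) (L : Set (Fin k → ℝ))
  (lam : ℝ), 1 ≤ k → HB α β H φ → LB L → PL L lam → 0 ≤ lam →
  ∀ (n : ℕ) (R : Fin n → Fin n → Prop)
  (f : (Fin n → ℝ) × (Fin n → Fin k → ℝ) → ℝ), ContDiff ℝ 1 f →
  (pw n (law (r5 α β k φ)) (CR R)).toReal *
      (∫ x in CR R, f5 w φ L f x ^ 2 ∂pw n (law (r5 α β k φ))) -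
    (∫ x in CR R, f5 w φ L f x ∂pw n (law (r5 α β k φ))) ^ 2 ≤
  (pw n (law (r5 α β k φ)) (CR R)).toReal *
    ∫ x in CR R, f5 w φ L (G5 (V5 α β k φ) (∑ j, w j ^ 2) lam H f) x ∂pw n (law (r5 α β k φ))

/-- **FA5** (affine change of variables). Proof. For `φ(x_i) > 0` for all `i`: `v ↦ s5 w φ x v` is a
translation composed with the dilation by `φ(x_i)` in the block `i` (`Measure.addHaar_smul` in one block
and products, or `Measure.pi_map_pi`); if some `φ(x_i) = 0` both sides are `0` (`k ≥ 1`: the set is a null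
set). -/
def S_FA5 : Prop := ∀ (n k : ℕ) (w : Fin k → ℝ) (φ : ℝ → ℝ) (L : Set (Fin k → ℝ)), 1 ≤ k → LB L →
  (∀ x, 0 ≤ φ x) → ∀ (x : Fin n → ℝ) (ψ : (Fin n → Fin k → ℝ) → ℝ), Continuous ψ →
  ∫ z in {z : Fin n → Fin k → ℝ | ∀ i, ∃ v ∈ L, ∀ j, z i j = x i * w j + φ (x i) * v j}, ψ z =
    (∏ i, φ (x i) ^ k) * ∫ v in Ln n L, ψ (s5 w φ x v)

/-- **FU5**. Proof from `FA5`, `FUB2` (`T2h95/OC`), `LD5`; see `T2h95/OC/FUB.lean`. `K5` is compact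
(closed: `L` compact, `φ` continuous). -/
def S_FU5 : Prop := ∀ (α β H : ℝ) (φ : ℝ → ℝ) (k : ℕ) (w : Fin k → ℝ) (L : Set (Fin k → ℝ)),
  1 ≤ k → HB α β H φ → LB L → ∀ (n : ℕ) (R : Fin n → Fin n → Prop)
  (G : (Fin n → ℝ) × (Fin n → Fin k → ℝ) → ℝ), Continuous G →
  ∫ p in K5 (D5 α β w φ L) R, G p = (A5 α β k φ * (volume L).toReal) ^ n *
    ∫ x in CR R, f5 w φ L G x ∂pw n (law (r5 α β k φ))

/-- **PO5** (Poincare inequality on `K5`). Proof from `LC5`, `CU5`, `FU5`, `IN5`, `FC5`, `LD5`; see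
`T2h95/OC/POI2.lean`. -/
def S_PO5 : Prop := ∀ (α β H : ℝ) (φ : ℝ → ℝ) (k : ℕ) (w : Fin k → ℝ) (L : Set (Fin k → ℝ))
  (lam : ℝ), 1 ≤ k → HB α β H φ → LB L → PL L lam → 0 ≤ lam →
  ∀ (n : ℕ) (R : Fin n → Fin n → Prop)
  (f : (Fin n → ℝ) × (Fin n → Fin k → ℝ) → ℝ), ContDiff ℝ 1 f →
  (volume (K5 (D5 α β w φ L) R)).toReal * (∫ p in K5 (D5 α β w φ L) R, f p ^ 2) -
    (∫ p in K5 (D5 α β w φ L) R, f p) ^ 2 ≤
  (volume (K5 (D5 α β w φ L) R)).toReal * ∫ p in K5 (D5 α β w φ L) R,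
    ∑ i, (144 * V5 α β k φ * eX f i p ^ 2 +
      (144 * V5 α β k φ * (∑ j, w j ^ 2) + 37 * lam * H ^ 2) * ∑ j, eZ f i j p ^ 2)

/-- **SY5** (symmetric functions). Proof from `SYV` (with `QFE`), `WP5`, `LC`, `FU5`, `FC5`, `IN5`,
`LD5`; see `T2h95/OC/SYK.lean`. -/
def S_SY5 : Prop := ∀ (α β H : ℝ) (φ : ℝ → ℝ) (k : ℕ) (w : Fin k → ℝ) (L : Set (Fin k → ℝ)),
  1 ≤ k → HB α β H φ → LB L → ∀ (n : ℕ) (R : Fin n → Fin n → Prop)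
  (G : (Fin n → ℝ) × (Fin n → Fin k → ℝ) → ℝ), Continuous G →
  (∀ (p : Equiv.Perm (Fin n)) (z : (Fin n → ℝ) × (Fin n → Fin k → ℝ)),
    G (fun i => z.1 (p i), fun i => z.2 (p i)) = G z) →
  ∫ p in K5 (D5 α β w φ L) R, G p = (volume (K5 (D5 α β w φ L) R)).toReal *
    ∫ x, f5 w φ L G x ∂pw n (law (r5 α β k φ))

/-- **FL5** (mean over the fibre of the square of a sum). Proof. With `b = a₀ + ⟨w, u⟩` the sum at the
point of the fibre is `S + ∑_i φ(x_i) ⟨v_i, u⟩`, `S = b ∑ x_i - c`. Mean over the product `L^n`: the cross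
terms vanish (`⟨v_i, u⟩` has mean `0` on `L`, different `v_i` are independent), and the squares give
`∑ φ(x_i)² E_L ⟨v, u⟩²`. -/
def S_FL5 : Prop := ∀ (n k : ℕ) (w u : Fin k → ℝ) (φ : ℝ → ℝ) (L : Set (Fin k → ℝ)) (a₀ c : ℝ)
  (x : Fin n → ℝ), LB L →
  f5 w φ L (fun p => (∑ i, (a₀ * p.1 i + ∑ j, u j * p.2 i j) - c) ^ 2) x =
    ((a₀ + ∑ j, w j * u j) * ∑ i, x i - c) ^ 2 +
      (∑ i, φ (x i) ^ 2) * EL L (fun v => (∑ j, u j * v j) ^ 2)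

/-- **LI5** (variances of linear functions of `K5`, from below). Proof from `FL5`, `MO5`, `LD5`, `LC`,
`IN5`: integrate `FL5` over `ν^n`: `∫ (b ∑ x_i - c)² dν^n ≥ Var = n b² Var ν` (`variance_sum_pi`),
`∫ ∑ φ(x_i)² = n ∫ φ² dν ≥ n H²/4`. -/
def S_LI5 : Prop := ∀ (α β H : ℝ) (φ : ℝ → ℝ) (k : ℕ) (w u : Fin k → ℝ) (L : Set (Fin k → ℝ))
  (a₀ c : ℝ) (n : ℕ), 1 ≤ k → HB α β H φ → LB L →
  n * ((a₀ + ∑ j, w j * u j) ^ 2 * V5 α β k φ +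
    H ^ 2 / 4 * EL L (fun v => (∑ j, u j * v j) ^ 2)) ≤
  ∫ x, f5 w φ L (fun p => (∑ i, (a₀ * p.1 i + ∑ j, u j * p.2 i j) - c) ^ 2) x
    ∂pw n (law (r5 α β k φ))

/-! ### 3. Euclidean space -/

/-- ordered tuples `(x_i, z_i)`, `x_i = y (inl i)`, `z_i = (y (inr (i, j)))_j` -/
def KE {n k : ℕ} (α β : ℝ) (w : EuclideanSpace ℝ (Fin k)) (φ : ℝ → ℝ)
    (L : Set (EuclideanSpace ℝ (Fin k))) (R : Fin n → Fin n → Prop) :
    Set (EuclideanSpace ℝ (Fin n ⊕ Fin n × Fin k)) :=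
  {y | (∀ i, (α ≤ y (Sum.inl i) ∧ y (Sum.inl i) ≤ β) ∧ ∃ v ∈ L, ∀ j,
      y (Sum.inr (i, j)) = y (Sum.inl i) * w j + φ (y (Sum.inl i)) * v j) ∧
    ∀ i j, R i j → y (Sum.inl i) ≤ y (Sum.inl j)}

/-- `L` in coordinates -/
def crd (k : ℕ) (L : Set (EuclideanSpace ℝ (Fin k))) : Set (Fin k → ℝ) := {v | WithLp.toLp 2 v ∈ L}

/-- the point with coordinates `x`, `z` -/
noncomputable def pe {n k : ℕ} (p : (Fin n → ℝ) × (Fin n → Fin k → ℝ)) :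
    EuclideanSpace ℝ (Fin n ⊕ Fin n × Fin k) :=
  WithLp.toLp 2 (Sum.elim p.1 fun z => p.2 z.1 z.2)

/-- **EU5** (translation). Proof as `T2h95/OC/EUC.lean` (`volume_preserving_sumPiEquivProdPi`, currying). -/
def S_EU5 : Prop := ∀ (n k : ℕ) (α β : ℝ) (w : EuclideanSpace ℝ (Fin k)) (φ : ℝ → ℝ)
  (L : Set (EuclideanSpace ℝ (Fin k))) (R : Fin n → Fin n → Prop),
  volume (KE α β w φ L R) = volume (K5 (D5 α β (fun j => w j) φ (crd k L)) R) ∧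
  ∀ G : EuclideanSpace ℝ (Fin n ⊕ Fin n × Fin k) → ℝ, ∫ y in KE α β w φ L R, G y =
    ∫ p in K5 (D5 α β (fun j => w j) φ (crd k L)) R, G (pe p)

/-- **GR5** (the gradient). See `T2h95/OC/GRD.lean`. -/
def S_GR5 : Prop := ∀ (n k : ℕ) (f : EuclideanSpace ℝ (Fin n ⊕ Fin n × Fin k) → ℝ),
  ContDiff ℝ 1 f → ContDiff ℝ 1 (fun p : (Fin n → ℝ) × (Fin n → Fin k → ℝ) => f (pe p)) ∧
  ∀ p : (Fin n → ℝ) × (Fin n → Fin k → ℝ),
    ∑ i, (eX (fun p : (Fin n → ℝ) × (Fin n → Fin k → ℝ) => f (pe p)) i p ^ 2 +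
      ∑ j, eZ (fun p : (Fin n → ℝ) × (Fin n → Fin k → ℝ) => f (pe p)) i j p ^ 2) =
    ‖fderiv ℝ f (pe p)‖ ^ 2

/-- convex body with barycentre `0` -/
structure CB {k : ℕ} (L : Set (EuclideanSpace ℝ (Fin k))) : Prop where
  conv : Convex ℝ L
  comp : IsCompact L
  int : (interior L).Nonempty
  cen : ∫ v in L, v = 0

/-- **CB5** (`L` in coordinates). Proof. Volume preserving linear equivalence; `VV`, `EV` of
`W695.KH.Defs`; `‖fderiv v‖² = ∑ (partial derivatives)²`. -/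
def S_CB5 : Prop := ∀ (k : ℕ) (L : Set (EuclideanSpace ℝ (Fin k))), CB L → LB (crd k L) ∧
  (∀ lam : ℝ, (∀ v : EuclideanSpace ℝ (Fin k) → ℝ, ContDiff ℝ 1 v →
    Pool.Agent.W695.KH.VV L v ≤ lam * Pool.Agent.W695.KH.EV L fun x => ‖fderiv ℝ v x‖ ^ 2) →
    PL (crd k L) lam) ∧
  ∀ u : EuclideanSpace ℝ (Fin k), Pool.Agent.W695.KH.VV L (fun x => ⟪u, x⟫_ℝ) =
    EL (crd k L) fun v => (∑ j, u j * v j) ^ 2

/-- **PH5** (profiles). Proof. `φ` continuous, concave, nonnegative on `[α, β]`, not identically zero;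
`φ' x = φ (max α (min β x))`, `H` = maximum; `φ > 0` inside by concavity. -/
def S_PH5 : Prop := ∀ (α β : ℝ) (φ : ℝ → ℝ), α < β → ContinuousOn φ (Icc α β) →
  ConcaveOn ℝ (Icc α β) φ → (∀ x ∈ Icc α β, 0 ≤ φ x) → (∃ x ∈ Icc α β, 0 < φ x) →
  ∃ (H : ℝ) (φ' : ℝ → ℝ), HB α β H φ' ∧ ∀ x ∈ Icc α β, φ' x = φ x

/-- **GE5** (`KE` is a convex body). Proof. See `T2h95/OC/GEO2.lean`. `0 ∈ L` (barycentre;
`Convex.average_mem`), so `a L ⊆ b L` for `0 ≤ a ≤ b` and `{(x, z) | z ∈ x w + φ(x) L}` is convex. Interior: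
for an interior point `v₀` of `L` and `x₀ ∈ (α, β)` the point `x_i = x₀ + e_i`,
`z_i = x_i w + φ(x_i) v₀`, with `e` small and strictly increasing along `R`. -/
def S_GE5 : Prop := ∀ (n k : ℕ) (α β H : ℝ) (w : EuclideanSpace ℝ (Fin k)) (φ : ℝ → ℝ)
  (L : Set (EuclideanSpace ℝ (Fin k))) (R : Fin n → Fin n → Prop), CB L → HB α β H φ →
  (∀ a b, R a b → R b a → a = b) → (∀ a b c, R a b → R b c → R a c) →
  IsCompact (KE α β w φ L R) ∧ Convex ℝ (KE α β w φ L R) ∧ (interior (KE α β w φ L R)).Nonempty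

/-- **CH5** (from Poincare to KLS, with the dependence on the ratio; `T2h95/OC/CHE.lean`, `S_CHE`, in
which `c` is proportional to `1/√κ`). -/
def S_CH5 : Prop := ∃ c : ℝ, 0 < c ∧ ∀ κ : ℝ, 0 < κ → ∀ (ι : Type) [Fintype ι]
  (K : Set (EuclideanSpace ℝ ι)), IsCompact K → Convex ℝ K → (interior K).Nonempty →
  ∀ (Cp : ℝ) (θ : EuclideanSpace ℝ ι), 0 < Cp → ‖θ‖ = 1 →
  (∀ v : EuclideanSpace ℝ ι → ℝ, ContDiff ℝ 1 v →
    Pool.Agent.W695.KH.VV K v ≤ Cp * Pool.Agent.W695.KH.EV K fun x => ‖fderiv ℝ v x‖ ^ 2) →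
  (∀ m : ℝ, Cp ≤ κ * Pool.Agent.W695.KH.EV K fun x => (⟪θ, x⟫_ℝ - m) ^ 2) →
  KLSg (c / Real.sqrt κ) K

/-- **TH5** (the theorem). Proof from `PO5`, `SY5`, `LI5`, `EU5`, `GR5`, `CB5`, `PH5`, `GE5`, `CH5`, `FU5`.
Replace `φ` by `φ'` (`PH5`; same set `KE`). `lam = κ Var_L ⟪θ₀, ·⟫` (so `PL (crd k L) lam`, and
`κ ≥ 1` by testing `⟪θ₀, ·⟫`; `lam > 0`). `V = V5`, `W = |w|²`. Poincare constant of `KE` (by `PO5`,
`EU5`, `GR5`): `Cp = 144 V (1 + W) + 37 lam H²`. Linear functions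
`⟪Θ, y⟫ = (1/√n) ∑ (a₀ x_i + ⟨u, z_i⟩)`, `a₀² + |u|² = 1`: by `SY5` and `LI5` the mean of `(⟪Θ, y⟫ - m)²` is at
least `(a₀ + ⟨w, u⟩)² V + H²/4 Var_L ⟪u, ·⟫`. Take `(a₀, u) = (1, 0)`: `V`; if `w ≠ 0`
`(0, w/|w|)`: `≥ W V`; `(0, θ₀)`: `≥ H² lam/(4κ)`. The largest of the three is at least
`Cp/(436 κ)`: `Cp ≤ 144 M + 144 M + 148 κ M`. -/
def S_TH5 : Prop := ∃ c : ℝ, 0 < c ∧ ∀ (n k : ℕ) (κ α β : ℝ) (w θ₀ : EuclideanSpace ℝ (Fin k))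
  (φ : ℝ → ℝ) (L : Set (EuclideanSpace ℝ (Fin k))) (R : Fin n → Fin n → Prop), 1 ≤ n → 1 ≤ k →
  CB L → ‖θ₀‖ = 1 → (∀ v : EuclideanSpace ℝ (Fin k) → ℝ, ContDiff ℝ 1 v →
    Pool.Agent.W695.KH.VV L v ≤ κ * Pool.Agent.W695.KH.VV L (fun x => ⟪θ₀, x⟫_ℝ) *
      Pool.Agent.W695.KH.EV L fun x => ‖fderiv ℝ v x‖ ^ 2) →
  α < β → ContinuousOn φ (Icc α β) → ConcaveOn ℝ (Icc α β) φ → (∀ x ∈ Icc α β, 0 ≤ φ x) →
  (∃ x ∈ Icc α β, 0 < φ x) → (∀ a b, R a b → R b a → a = b) →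
  (∀ a b c, R a b → R b c → R a c) → KLSg (c / Real.sqrt κ) (KE α β w φ L R)

end Pool.Agent.T2h95.OD
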