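import Pool.Agent.T2h95.OD.Stm

/-!
# Every convex body satisfies the KLS inequality with a constant depending on the dimension

Project OD, part 2: crude bounds.
-/

set_option autoImplicit false

namespace Pool.Agent.T2h95.OD

open MeasureTheory Set Filter Topology
open scoped ENNReal InnerProductSpace
open Pool.Agent.W695.KH (EV VV)

/-- **CP6** (crude Poincare inequality). Proof. `VV L f = (1/2) |L|⁻² ∫_L ∫_L (f x - f y)²`,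
`(f x - f y)² ≤ D² ∫_0^1 ‖∇ f((1-t) x + t y)‖² dt`. For `t ≥ 1/2` and fixed `x` the map
`y ↦ (1-t) x + t y` sends `L` into `L` and scales the volume by `t^k ≥ 2^{-k}`, so
`∫_L ‖∇f((1-t)x + ty)‖² dy ≤ 2^k ∫_L ‖∇f‖²`; for `t ≤ 1/2` exchange `x` and `y`. Hence
`VV ≤ (1/2) D² 2^k EV`. -/
def S_CP6 : Prop := ∀ (k : ℕ) (L : Set (EuclideanSpace ℝ (Fin k))) (D : ℝ), Convex ℝ L →
  IsCompact L → 0 < volume L → (∀ x ∈ L, ∀ y ∈ L, ‖x - y‖ ≤ D) →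
  ∀ f : EuclideanSpace ℝ (Fin k) → ℝ, ContDiff ℝ 1 f →
  VV L f ≤ 2 ^ k / 2 * D ^ 2 * EV L fun x => ‖fderiv ℝ f x‖ ^ 2

/-- **CR6** (circumradius). Proof: the one of `CR5` (file `T2h95/OD/CR5.lean`): the homothetic copy
`L_δ = δ v + (1-δ) L ⊆ L`, `δ = 1/(k+1)`, gives
`EV L ⟪v,·⟫² ≥ (1-δ)^k δ² ‖v‖⁴ ≥ ‖v‖⁴/(3 (k+1)²)`; `⟪v, ·⟫` has mean `0`, so this is `VV`. Either directly
in Euclidean space, or from the lemma inside `CR5` and the translation of `CB5` (`VV L ⟪u,·⟫ = EL ...`). -/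
def S_CR6 : Prop := ∀ (k : ℕ) (L : Set (EuclideanSpace ℝ (Fin k))), 1 ≤ k → CB L → ∀ v ∈ L,
  ‖v‖ ^ 4 ≤ 3 * (k + 1) ^ 2 * VV L fun x => ⟪v, x⟫_ℝ

/-- **UN6**. Proof from `CP6`, `CR6`: `v ∈ L` with the largest norm `r > 0` (`interior L` is nonempty,
`k ≥ 1`), `D = 2 r`, `θ₀ = v/r`: `VV L ⟪θ₀,·⟫ = VV L ⟪v,·⟫/r² ≥ r²/(3(k+1)²)` and
`VV L f ≤ 2^k/2 · 4 r² · EV ≤ 6 (k+1)² 2^k VV L ⟪θ₀,·⟫ EV`. -/
def S_UN6 : Prop := ∀ (k : ℕ) (L : Set (EuclideanSpace ℝ (Fin k))), 1 ≤ k → CB L →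
  ∃ θ₀ : EuclideanSpace ℝ (Fin k), ‖θ₀‖ = 1 ∧ ∀ f : EuclideanSpace ℝ (Fin k) → ℝ,
    ContDiff ℝ 1 f → VV L f ≤ 6 * (k + 1) ^ 2 * 2 ^ k * VV L (fun x => ⟪θ₀, x⟫_ℝ) *
      EV L fun x => ‖fderiv ℝ f x‖ ^ 2

end Pool.Agent.T2h95.OD
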